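import Mathlib

/-!
# FAC/Adj: the adjugate argument and Taylor divisibility (architect helper1; Mathlib only)

* `adj_dvd`: `adj(M) (M w) = det(M) w` (`Matrix.adjugate_mul`, `Matrix.mulVec_mulVec`), so `a ∣ det(M) w_j`, and `w_j` is a unit.
* `taylor_dvd`: `X^m ∣ (taylor x P : power series)` means that the coefficients `< m` of `taylor x P` vanish
  (`PowerSeries.X_pow_dvd_iff`, `Polynomial.coeff_coe`), i.e. `X^m ∣ taylor x P` as polynomials, and `taylor (-x)` is a ring homomorphism
  which maps `X` to `X - C x` (`Polynomial.taylor_taylor`).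
-/

namespace Pool.Agent.FAC

theorem adj_dvd {R : Type*} [CommRing R] {σ : Type*} [Fintype σ] [DecidableEq σ]
    (M : Matrix σ σ R) (w : σ → R) (j : σ) (hw : IsUnit (w j)) {a : R}
    (h : ∀ i, a ∣ M.mulVec w i) : a ∣ M.det := by
  have h1 : M.adjugate.mulVec (M.mulVec w) = M.det • w := by
    rw [Matrix.mulVec_mulVec, Matrix.adjugate_mul, Matrix.smul_mulVec, Matrix.one_mulVec]
  have h2 : a ∣ M.det * w j := by
    have h3 : M.det * w j = (M.adjugate.mulVec (M.mulVec w)) j := by
      rw [h1]
      rfl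
    rw [h3]
    unfold Matrix.mulVec dotProduct
    exact Finset.dvd_sum fun i _ => Dvd.dvd.mul_left (h i) _
  exact hw.dvd_mul_right.mp h2

theorem taylor_dvd {k : Type*} [Field k] (x : k) (P : Polynomial k) {m : ℕ}
    (h : (PowerSeries.X : PowerSeries k) ^ m ∣
      ((Polynomial.taylor x P : Polynomial k) : PowerSeries k)) :
    (Polynomial.X - Polynomial.C x) ^ m ∣ P := by
  have h1 : (Polynomial.X : Polynomial k) ^ m ∣ Polynomial.taylor x P := by
    rw [Polynomial.X_pow_dvd_iff]
    intro d hd
    rw [PowerSeries.X_pow_dvd_iff] at h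
    have := h d hd
    rwa [Polynomial.coeff_coe] at this
  obtain ⟨Q, hQ⟩ := h1
  have h2 : Polynomial.taylor (-x) (Polynomial.taylor x P) = P := by
    rw [Polynomial.taylor_taylor]
    simp
  rw [← h2, hQ, Polynomial.taylor_mul, Polynomial.taylor_pow, Polynomial.taylor_X]
  have h3 : (Polynomial.X + Polynomial.C (-x) : Polynomial k) = Polynomial.X - Polynomial.C x := by
    rw [Polynomial.C_neg, sub_eq_add_neg]
  rw [h3]
  exact Dvd.intro _ rfl

end Pool.Agent.FAC
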