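import Pool.Agent.FAC.Defs

/-!
# FAC/BCoef: the coefficients of the cube root (architect helper1)

* `bc_rec`: by definition (`field_simp`).
* `abs_bc_le`: induction, `|1/3 - t| ≤ t + 1` for `t ≥ 0`.
* `bS_ode`: compare coefficients: `coeff t ((1 + X) b') = (t+1) b_{t+1} + t b_t = (1/3) b_t` (`bc_rec`, cast to `k`).
* `bS_cube`: let `g = b^3`; then `(1 + X) g' = 3 b^2 (1 + X) b' = g`, so `(t+1) g_{t+1} = (1 - t) g_t`, `g_0 = 1`,
  hence `g_1 = 1` and `g_t = 0` for `t ≥ 2` (characteristic zero).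
-/

namespace Pool.Agent.FAC

open PowerSeries

theorem bc_rec (t : ℕ) : ((t : ℚ) + 1) * bc (t + 1) = (1 / 3 - (t : ℚ)) * bc t := by
  have h : ((t : ℚ) + 1) ≠ 0 := by positivity
  show ((t : ℚ) + 1) * (bc t * (1 / 3 - (t : ℚ)) / ((t : ℚ) + 1)) = _
  field_simp

theorem abs_bc_le (t : ℕ) : |bc t| ≤ 1 := by
  induction t with
  | zero =>
    show |(1 : ℚ)| ≤ 1
    rw [abs_one]
  | succ t ih =>
    have hpos : (0 : ℚ) < (t : ℚ) + 1 := by positivity
    have h0 : (0 : ℚ) ≤ (t : ℚ) := Nat.cast_nonneg t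
    have h1 : |(1 / 3 - (t : ℚ))| ≤ (t : ℚ) + 1 := by
      rw [abs_le]
      constructor <;> linarith
    have h2 : ((t : ℚ) + 1) * |bc (t + 1)| = |(1 / 3 - (t : ℚ))| * |bc t| := by
      have h3 : |((t : ℚ) + 1)| = (t : ℚ) + 1 := abs_of_pos hpos
      rw [← h3, ← abs_mul, ← abs_mul, bc_rec]
    have h4 : ((t : ℚ) + 1) * |bc (t + 1)| ≤ ((t : ℚ) + 1) * 1 := by
      rw [h2]
      exact mul_le_mul h1 ih (abs_nonneg _) hpos.le
    exact le_of_mul_le_mul_left h4 hpos

private theorem bS_coeff (k : Type*) [Field k] (t : ℕ) : coeff t (bS k) = ((bc t : ℚ) : k) := by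
  unfold bS
  rw [coeff_mk]

private theorem bc_rec_cast (k : Type*) [Field k] [CharZero k] (t : ℕ) :
    ((t : k) + 1) * ((bc (t + 1) : ℚ) : k) = (1 / 3 - (t : k)) * ((bc t : ℚ) : k) := by
  have h := congrArg (fun q : ℚ => (q : k)) (bc_rec t)
  push_cast at h
  exact h

private theorem coeff_one_add_X_mul (k : Type*) [Field k] (φ : PowerSeries k) (t : ℕ) :
    coeff t ((1 + (X : PowerSeries k)) * d⁄dX k φ) =
      coeff (t + 1) φ * ((t : k) + 1) + coeff t φ * (t : k) := by
  rw [add_mul, one_mul, map_add, coeff_derivative]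
  congr 1
  cases t with
  | zero =>
    rw [coeff_zero_X_mul]
    simp
  | succ t =>
    rw [coeff_succ_X_mul, coeff_derivative]
    push_cast
    ring

theorem bS_ode (k : Type*) [Field k] [CharZero k] :
    (1 + (X : PowerSeries k)) * d⁄dX k (bS k) = C ((1 : k) / 3) * bS k := by
  ext t
  rw [coeff_one_add_X_mul, coeff_C_mul, bS_coeff, bS_coeff]
  have h := bc_rec_cast k t
  linear_combination h

theorem bS_cube (k : Type*) [Field k] [CharZero k] :
    bS k ^ 3 = 1 + (X : PowerSeries k) := by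
  have h3 : (3 : k) ≠ 0 := by norm_num
  have hd : (1 + (X : PowerSeries k)) * d⁄dX k (bS k ^ 3) = bS k ^ 3 := by
    have h1 : d⁄dX k (bS k ^ 3) = 3 * bS k ^ 2 * d⁄dX k (bS k) := by
      rw [Derivation.leibniz_pow]
      simp only [smul_eq_mul, nsmul_eq_mul]
      push_cast
      ring
    have hC : (3 : PowerSeries k) * C ((1 : k) / 3) = 1 := by
      have : (3 : PowerSeries k) = C (3 : k) := by
        rw [map_ofNat]
      rw [this, ← map_mul, mul_one_div_cancel h3, map_one]
    calc (1 + (X : PowerSeries k)) * d⁄dX k (bS k ^ 3)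
        = 3 * bS k ^ 2 * ((1 + (X : PowerSeries k)) * d⁄dX k (bS k)) := by rw [h1]; ring
      _ = 3 * bS k ^ 2 * (C ((1 : k) / 3) * bS k) := by rw [bS_ode]
      _ = ((3 : PowerSeries k) * C ((1 : k) / 3)) * bS k ^ 3 := by ring
      _ = bS k ^ 3 := by rw [hC, one_mul]
  have hrec : ∀ t : ℕ, coeff (t + 1) (bS k ^ 3) * ((t : k) + 1) =
      (1 - (t : k)) * coeff t (bS k ^ 3) := by
    intro t
    have h1 := congrArg (coeff t) hd
    rw [coeff_one_add_X_mul] at h1
    linear_combination h1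
  have h0 : coeff 0 (bS k ^ 3) = 1 := by
    rw [coeff_zero_eq_constantCoeff_apply, map_pow, ← coeff_zero_eq_constantCoeff_apply, bS_coeff]
    show ((1 : ℚ) : k) ^ 3 = 1
    simp
  have h1 : coeff 1 (bS k ^ 3) = 1 := by
    have h := hrec 0
    rw [h0] at h
    simpa using h
  have h2 : ∀ t : ℕ, coeff (t + 2) (bS k ^ 3) = 0 := by
    intro t
    induction t with
    | zero =>
      have h := hrec 1
      rw [h1] at h
      have h5 : coeff 2 (bS k ^ 3) * (((1 : ℕ) : k) + 1) = 0 := by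
        rw [h]
        push_cast
        ring
      have h6 : (((1 : ℕ) : k) + 1) ≠ 0 := by
        push_cast
        norm_num
      exact (mul_eq_zero.1 h5).resolve_right h6
    | succ t ih =>
      have h := hrec (t + 2)
      rw [ih, mul_zero] at h
      have h6 : (((t + 2 : ℕ) : k) + 1) ≠ 0 := Nat.cast_add_one_ne_zero (t + 2)
      exact (mul_eq_zero.1 h).resolve_right h6
  ext t
  rcases t with _ | _ | t
  · rw [h0]
    simp
  · rw [zero_add, h1]
    simp [coeff_one]
  · rw [h2 t, map_add, coeff_one, coeff_X]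
    simp

end Pool.Agent.FAC
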