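import Pool.Agent.FAC.BCoef

/-!
# FAC/BInt: `9^t b_t` is an integer (architect helper1)

Let `B = rescale 9 (bS ℚ)`, so `B^3 = 1 + 9 X` (`bS_cube`).  Put `u_t = 9^t b_t / 3` for `t ≥ 1`, `u_0 = 0`, that is
`B = 1 + 3 u` with `u(0) = 0`.  Then `(1 + 3u)^3 = 1 + 9 u + 27 u^2 + 27 u^3 = 1 + 9 X`, so
`u = X - 3 u^2 - 3 u^3`.  The coefficient `t` of `u^2` and of `u^3` only involves `u_1, …, u_{t-1}` (as `u_0 = 0`), so by strong
induction all `u_t` are integers; `9^t b_t = 3 u_t` for `t ≥ 1`.

An alternative is a direct p-adic argument; any proof is fine.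
-/

namespace Pool.Agent.FAC

open PowerSeries

theorem nine_pow_bc (t : ℕ) : ∃ z : ℤ, (z : ℚ) = 9 ^ t * bc t := by
  set B : PowerSeries ℚ := rescale (9 : ℚ) (bS ℚ) with hB
  have hBc : ∀ n, coeff n B = 9 ^ n * bc n := by
    intro n
    rw [hB, coeff_rescale, bS, coeff_mk]
    simp
  have hB3 : B ^ 3 = 1 + 9 * X := by
    rw [hB, ← map_pow, bS_cube, map_add, map_one, rescale_X]
    rfl
  set u : PowerSeries ℚ := C (1 / 3 : ℚ) * (B - 1) with hu
  have hC3 : (3 : PowerSeries ℚ) * C (1 / 3 : ℚ) = 1 := by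
    have : (3 : PowerSeries ℚ) = C (3 : ℚ) := rfl
    rw [this, ← map_mul]
    norm_num
  have hBu : B = 1 + 3 * u := by
    rw [hu, ← mul_assoc, hC3]
    ring
  have h9 : (9 : PowerSeries ℚ) ≠ 0 := by
    have : (9 : PowerSeries ℚ) = C (9 : ℚ) := rfl
    rw [this]
    intro h
    have := congrArg (coeff 0) h
    simp at this
  have hrel : u = X - 3 * u ^ 2 - 3 * u ^ 3 := by
    apply mul_left_cancel₀ h9
    rw [hBu] at hB3
    linear_combination hB3
  have hu0 : coeff 0 u = 0 := by
    rw [hu, coeff_C_mul, map_sub, hBc]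
    simp [bc]
  set R : Subring ℚ := (Int.castRingHom ℚ).range with hR
  have key : ∀ n, coeff n u ∈ R := by
    intro n
    induction n using Nat.strong_induction_on with
    | _ n ih =>
      have hsq : ∀ m ≤ n, coeff m (u ^ 2) ∈ R := by
        intro m hm
        rw [pow_two, coeff_mul]
        refine R.sum_mem fun p hp => ?_
        rw [Finset.HasAntidiagonal.mem_antidiagonal] at hp
        rcases Nat.eq_zero_or_pos p.1 with h1 | h1
        · rw [h1, hu0, zero_mul]
          exact R.zero_mem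
        · rcases Nat.eq_zero_or_pos p.2 with h2 | h2
          · rw [h2, hu0, mul_zero]
            exact R.zero_mem
          · exact R.mul_mem (ih p.1 (by omega)) (ih p.2 (by omega))
      have hcu : coeff n (u ^ 3) ∈ R := by
        rw [show u ^ 3 = u * u ^ 2 by ring, coeff_mul]
        refine R.sum_mem fun p hp => ?_
        rw [Finset.HasAntidiagonal.mem_antidiagonal] at hp
        rcases Nat.eq_zero_or_pos p.2 with h2 | h2
        · have : coeff 0 (u ^ 2) = 0 := by
            rw [pow_two, coeff_mul]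
            simp [hu0]
          rw [h2, this, mul_zero]
          exact R.zero_mem
        · exact R.mul_mem (ih p.1 (by omega)) (hsq p.2 (by omega))
      rw [hrel, map_sub, map_sub]
      have hc3 : ∀ f : PowerSeries ℚ, coeff n (3 * f) = 3 * coeff n f := by
        intro f
        have : (3 : PowerSeries ℚ) = C (3 : ℚ) := rfl
        rw [this, coeff_C_mul]
      have h3 : (3 : ℚ) ∈ R := ⟨3, by simp⟩
      rw [hc3, hc3]
      refine R.sub_mem (R.sub_mem ?_ (R.mul_mem h3 (hsq n le_rfl))) (R.mul_mem h3 hcu)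
      rw [coeff_X]
      split_ifs
      · exact R.one_mem
      · exact R.zero_mem
  have hBt : coeff t B ∈ R := by
    rw [hBu, map_add]
    have hc3 : coeff t (3 * u) = 3 * coeff t u := by
      have : (3 : PowerSeries ℚ) = C (3 : ℚ) := rfl
      rw [this, coeff_C_mul]
    rw [hc3]
    refine R.add_mem ?_ (R.mul_mem ⟨3, by simp⟩ (key t))
    rw [coeff_one]
    split_ifs
    · exact R.one_mem
    · exact R.zero_mem
  rw [hBc] at hBt
  obtain ⟨z, hz⟩ := hBt
  exact ⟨z, by simpa using hz⟩

end Pool.Agent.FAC
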