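import Pool.Agent.FAC.Defs

/-!
# FAC/CcSep: distinct monomials are separated modulo 3 (architect helper1)

For a pattern `h` (`h 0 = 0`, strictly increasing) and `i = 1, 2, 3`: `cc h α (3 h_i) = [i ≤ α₁] + [i ≤ α₂] ∈ {0,1,2}` (strict monotonicity), and
`3 h_i ∈ Icc 1 K`.  Two such numbers are congruent modulo 3 iff they are equal, and the three numbers for `i = 1,2,3` determine `α`
(`α₁ ≤ α₂`): `decide` over the `10 × 10` pairs.
-/

namespace Pool.Agent.FAC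

private theorem idx_sep : ∀ α β : Idx, α ≠ β → ∃ i : Fin 4, i ≠ 0 ∧
    ((if i ≤ α.1.1 then 1 else 0) + (if i ≤ α.1.2 then 1 else 0) : ℕ) ≠
      (if i ≤ β.1.1 then 1 else 0) + (if i ≤ β.1.2 then 1 else 0) := by
  decide

theorem cc_sep {K : ℕ} {h : Fin 4 → ℕ} (hp : Pat K h) (α β : Idx) (hne : α ≠ β) :
    ∃ l ∈ Finset.Icc 1 K, ¬ (3 : ℤ) ∣ ((cc h α l : ℤ) - (cc h β l : ℤ)) := by
  obtain ⟨i, hi0, hi⟩ := idx_sep α β hne
  have hcc : ∀ γ : Idx, cc h γ (3 * h i) =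
      (if i ≤ γ.1.1 then 1 else 0) + (if i ≤ γ.1.2 then 1 else 0) := by
    intro γ
    unfold cc
    have e : ∀ j : Fin 4, (3 * h i ≤ 3 * h j) ↔ i ≤ j := fun j => by
      rw [Nat.mul_le_mul_left_iff (by norm_num)]
      exact hp.mono.le_iff_le
    simp only [e]
  have hpos : h 0 < h i := hp.mono (Fin.pos_of_ne_zero hi0)
  refine ⟨3 * h i, Finset.mem_Icc.2 ⟨by omega, hp.le i⟩, ?_⟩
  rw [← hcc α, ← hcc β] at hi
  have b1 : cc h α (3 * h i) ≤ 2 := by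
    rw [hcc]; split_ifs <;> omega
  have b2 : cc h β (3 * h i) ≤ 2 := by
    rw [hcc]; split_ifs <;> omega
  omega

end Pool.Agent.FAC
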