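import Mathlib

/-!
# FAC/Defs: definitions for the counting theorem on n! = (m - 1) m (m + 1) (architect helper1)

Goal (problem MP_a9bfd1_nt): the number of `n ≤ N` such that `n!` is a product of three consecutive integers
is `O(N^(4/5))`.  Method: simultaneous Padé approximation (Siegel lemma) to the products
`∏_{l ≤ K} (1 + l x)^(c_α(l)/3)`, jets, and a zero estimate with multiplicities at the points `1/n`.
-/

namespace Pool.Agent.FAC

/-- Taylor coefficients at `0` of `(1 + X)^(1/3)`. -/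
noncomputable def bc : ℕ → ℚ
  | 0 => 1
  | (t + 1) => bc t * (1 / 3 - (t : ℚ)) / ((t : ℚ) + 1)

/-- the power series `(1 + X)^(1/3)` -/
noncomputable def bS (k : Type*) [Field k] : PowerSeries k :=
  PowerSeries.mk fun t => ((bc t : ℚ) : k)

/-- `∏_{l=1}^K (1 + l h/(1 + l x))^(c l/3)` as a power series in `h` -/
noncomputable def Fh (k : Type*) [Field k] (K : ℕ) (c : ℕ → ℕ) (x : k) : PowerSeries k :=
  ∏ l ∈ Finset.Icc 1 K,
    (PowerSeries.rescale ((l : k) / (1 + (l : k) * x)) (bS k)) ^ (c l)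

/-- the value `∏_{l=1}^K (1 + l x)^(c l/3)` -/
noncomputable def Fv (K : ℕ) (c : ℕ → ℕ) (x : ℝ) : ℝ :=
  ∏ l ∈ Finset.Icc 1 K, ((1 + (l : ℝ) * x) ^ ((1 : ℝ) / 3)) ^ (c l)

/-- the Taylor expansion of the integer polynomial `A` at `x`, as a power series over `k` -/
noncomputable def tp (k : Type*) [Field k] (A : Polynomial ℤ) (x : k) : PowerSeries k :=
  ((Polynomial.taylor x (A.map (Int.castRingHom k)) : Polynomial k) : PowerSeries k)

/-- `∑_α v_α A_α(x + h) ∏_l (1 + l h/(1 + l x))^(c_α(l)/3)` -/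
noncomputable def Ser (k : Type*) [Field k] {ι : Type*} [Fintype ι] (K : ℕ) (c : ι → ℕ → ℕ)
    (A : ι → Polynomial ℤ) (v : ι → k) (x : k) : PowerSeries k :=
  ∑ α, PowerSeries.C (v α) * tp k (A α) x * Fh k K (c α) x

/-- the jet at `x` of the function `∑_α v_α A_α(x) ∏_l (1 + l x)^(c_α(l)/3)` -/
noncomputable def Jv {ι : Type*} [Fintype ι] (K : ℕ) (c : ι → ℕ → ℕ)
    (A : ι → Polynomial ℤ) (v : ι → ℝ) (x : ℝ) : PowerSeries ℝ :=
  Ser ℝ K c A (fun α => v α * Fv K (c α) x) x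

/-- the size of the coefficients -/
def Hw (N b K l : ℕ) : ℕ := min (N ^ l) (N ^ b * K ^ l)

/-- jets: all Taylor coefficients differentiate correctly at `x` -/
def IsJetAt (J : ℝ → PowerSeries ℝ) (x : ℝ) : Prop :=
  ∀ t : ℕ, HasDerivAt (fun y => PowerSeries.coeff t (J y))
    (((t : ℝ) + 1) * PowerSeries.coeff (t + 1) (J x)) x

/-- pairs `i ≤ j` of indices in `{0, 1, 2, 3}`: the ten monomials `m_i m_j` -/
abbrev Idx : Type := {p : Fin 4 × Fin 4 // p.1 ≤ p.2}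

/-- the exponents attached to a pattern `h : Fin 4 → ℕ` -/
def cc (h : Fin 4 → ℕ) (α : Idx) (l : ℕ) : ℕ :=
  (if l ≤ 3 * h α.1.1 then 1 else 0) + (if l ≤ 3 * h α.1.2 then 1 else 0)

/-- the linear forms `v^(i)_α = [α₁ = i] + [α₂ = i]` -/
def vv (i : Fin 4) (α : Idx) : ℤ :=
  (if α.1.1 = i then 1 else 0) + (if α.1.2 = i then 1 else 0)

/-- The auxiliary polynomials: degrees, heights and vanishing at the origin. -/
structure Aux (K N b d M₀ M₁ : ℕ) (h : Fin 4 → ℕ) (A : Idx → Polynomial ℤ) : Prop where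
  deg : ∀ α, (A α).natDegree ≤ d
  bd : ∀ α l, |(A α).coeff l| ≤ (Hw N b K l : ℤ)
  ne : ∃ α, A α ≠ 0
  z0 : ∀ l < M₀, PowerSeries.coeff l (Ser ℚ K (cc h) A (fun _ => 1) 0) = 0
  z1 : ∀ i : Fin 4, i ≠ 0 → ∀ l < M₁,
    PowerSeries.coeff l (Ser ℚ K (cc h) A (fun α => ((vv i α : ℤ) : ℚ)) 0) = 0

/-- a pattern -/
structure Pat (K : ℕ) (h : Fin 4 → ℕ) : Prop where
  zero : h 0 = 0
  mono : StrictMono h
  le : ∀ i, 3 * h i ≤ K

/-- `n!` is a product of three consecutive integers -/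
def Sol (n : ℕ) : Prop := ∃ m : ℕ, 0 < m ∧ n.factorial = (m - 1) * m * (m + 1)

/-- the bound `R_l` for the values of the linear forms in the Siegel lemma -/
def Rw (N b K l : ℕ) : ℕ := 20 * (l + 1) * 18 ^ l * 4 ^ K * Hw N b K l

/-- `y₀²` where `y₀ = (n!)^(1/3)` -/
noncomputable def Yn (n : ℕ) : ℝ := ((n.factorial : ℝ) ^ ((1 : ℝ) / 3)) ^ 2

/-- the bound for the Taylor coefficients of the approximation forms -/
noncomputable def Zf (N b K M n t : ℕ) : ℝ :=
  2 ^ M * (40 * ((M : ℝ) + 1) * 8 ^ K * (N : ℝ) ^ b * (2 * (K : ℝ)) ^ M) * (n : ℝ) ^ t /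
    (n : ℝ) ^ M

/-- the polynomial `T = ∏ (1 + l X)` -/
noncomputable def TT (k : Type*) [Field k] (K : ℕ) : Polynomial k :=
  ∏ l ∈ Finset.Icc 1 K, (1 + Polynomial.C (l : k) * Polynomial.X)

/-- `ρ = (1/3) ∑ c(l) l ∏_{l' ≠ l} (1 + l' X)` -/
noncomputable def rho (k : Type*) [Field k] (K : ℕ) (c : ℕ → ℕ) : Polynomial k :=
  ∑ l ∈ Finset.Icc 1 K, Polynomial.C ((c l : k) * (l : k) / 3) *
    ∏ l' ∈ (Finset.Icc 1 K).erase l, (1 + Polynomial.C (l' : k) * Polynomial.X)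

/-- the differential operator `𝒟 A = T A' + ρ A` -/
noncomputable def DD (k : Type*) [Field k] (K : ℕ) (c : ℕ → ℕ) (A : Polynomial k) :
    Polynomial k :=
  TT k K * Polynomial.derivative A + rho k K c * A

end Pool.Agent.FAC
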