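import Pool.Agent.FAC.Defs

/-!
# FAC/PowBd: coefficients of products of geometrically bounded series (architect helper1)

If `|f_t| ≤ U^t` for each of `m` factors (with multiplicity, `m = ∑ c_l`), then the coefficient `t` of the product is at most
`binom(m+t, t) U^t ≤ 2^(m+t) U^t`: adding one factor, `∑_{i ≤ t} binom(m+i, i) = binom(m+1+t, t)`
(`Nat.sum_range_choose_...`, or any hockey stick identity; only the inequality is needed) and `U^i U^(t-i) = U^t`.
-/

namespace Pool.Agent.FAC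

open PowerSeries

private lemma pb_geom (n : ℕ) : ∑ i ∈ Finset.range n, (2 : ℝ) ^ i = 2 ^ n - 1 := by
  induction n with
  | zero => simp
  | succ n ih =>
    rw [Finset.sum_range_succ, ih, pow_succ]
    ring

/-- One more factor. -/
private lemma pb_step {f g : PowerSeries ℝ} {U : ℝ} (hU : 0 ≤ U) {m : ℕ}
    (hg : ∀ t, |coeff t g| ≤ 2 ^ (m + t) * U ^ t) (hf : ∀ t, |coeff t f| ≤ U ^ t) (t : ℕ) :
    |coeff t (g * f)| ≤ 2 ^ (m + 1 + t) * U ^ t := by
  rw [coeff_mul]
  refine (Finset.abs_sum_le_sum_abs _ _).trans ?_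
  have h1 : ∀ p ∈ Finset.HasAntidiagonal.antidiagonal t, |coeff p.1 g * coeff p.2 f| ≤
      (2 ^ m * U ^ t) * 2 ^ p.1 := by
    intro p hp
    have hp' := Finset.HasAntidiagonal.mem_antidiagonal.1 hp
    rw [abs_mul]
    calc |coeff p.1 g| * |coeff p.2 f| ≤ (2 ^ (m + p.1) * U ^ p.1) * U ^ p.2 :=
          mul_le_mul (hg _) (hf _) (abs_nonneg _) (by positivity)
      _ = (2 ^ m * U ^ t) * 2 ^ p.1 := by
          rw [← hp', pow_add, pow_add]
          ring
  refine (Finset.sum_le_sum h1).trans ?_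
  rw [← Finset.mul_sum, Finset.Nat.sum_antidiagonal_eq_sum_range_succ_mk, pb_geom, pow_succ,
    pow_add, pow_add]
  have h2 : (0 : ℝ) ≤ 2 ^ m * U ^ t := by positivity
  nlinarith

private lemma pb_pow {f g : PowerSeries ℝ} {U : ℝ} (hU : 0 ≤ U) {m : ℕ}
    (hg : ∀ t, |coeff t g| ≤ 2 ^ (m + t) * U ^ t) (hf : ∀ t, |coeff t f| ≤ U ^ t) (c : ℕ) :
    ∀ t, |coeff t (g * f ^ c)| ≤ 2 ^ (m + c + t) * U ^ t := by
  induction c with
  | zero =>
    intro t
    rw [pow_zero, mul_one, add_zero]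
    exact hg t
  | succ c ih =>
    intro t
    rw [pow_succ, ← mul_assoc]
    exact pb_step hU ih hf t

theorem coeff_prod_le (K : ℕ) (c : ℕ → ℕ) (f : ℕ → PowerSeries ℝ) {U : ℝ} (hU : 0 ≤ U)
    (hf : ∀ l ∈ Finset.Icc 1 K, ∀ t, |coeff t (f l)| ≤ U ^ t) (t : ℕ) :
    |coeff t (∏ l ∈ Finset.Icc 1 K, f l ^ c l)| ≤
      2 ^ ((∑ l ∈ Finset.Icc 1 K, c l) + t) * U ^ t := by
  classical
  have h : ∀ s : Finset ℕ, (∀ l ∈ s, ∀ t, |coeff t (f l)| ≤ U ^ t) →
      ∀ t, |coeff t (∏ l ∈ s, f l ^ c l)| ≤ 2 ^ ((∑ l ∈ s, c l) + t) * U ^ t := by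
    intro s
    induction s using Finset.induction_on with
    | empty =>
      intro _ t
      rw [Finset.prod_empty, Finset.sum_empty, coeff_one]
      split_ifs with h0
      · subst h0
        simp
      · rw [abs_zero]
        positivity
    | insert a s ha ih =>
      intro hs t
      rw [Finset.prod_insert ha, Finset.sum_insert ha, mul_comm, add_comm (c a)]
      exact pb_pow hU (ih fun l hl => hs l (Finset.mem_insert_of_mem hl))
        (hs a (Finset.mem_insert_self a s)) (c a) t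
  exact h _ hf t

end Pool.Agent.FAC
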