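import Pool.Agent.FAC.BCoef
import Pool.Agent.FAC.PowBd

/-!
# FAC/FhBd: bounds for `Fh` and `Fv` at a real point `x ≥ 0` (architect helper1)

* `fh_bd`: each factor has coefficients `(l/(1+lx))^t b_t` of absolute value `≤ K^t` (`abs_bc_le`, cast to `ℝ`,
  `l/(1+lx) ≤ l ≤ K`); `coeff_prod_le` with `U = K` and `∑ c_l ≤ 2K` gives `2^(2K+t) K^t = 4^K (2K)^t`.
* `fv_bd`: each factor `((1+lx)^(1/3))^(c l)` is `≥ 1` and, as `1 + lx ≤ 1 + Kx ≤ 2`, it is `≤ (2^(1/3))^2 ≤ 2`; there are `K` factors.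
* `fv_zero`: all factors are `1`.
-/

namespace Pool.Agent.FAC

open PowerSeries

theorem fh_bd (K : ℕ) (c : ℕ → ℕ) (hc : ∀ l, c l ≤ 2) {x : ℝ} (hx : 0 ≤ x) (t : ℕ) :
    |coeff t (Fh ℝ K c x)| ≤ 4 ^ K * (2 * (K : ℝ)) ^ t := by
  have h1 := coeff_prod_le K c (fun l => rescale ((l : ℝ) / (1 + (l : ℝ) * x)) (bS ℝ))
    (U := (K : ℝ)) (by positivity) (fun l hl t => by
      obtain ⟨hl1, hl2⟩ := Finset.mem_Icc.1 hl
      have hlK : (l : ℝ) ≤ K := by exact_mod_cast hl2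
      have hl0 : (0 : ℝ) ≤ l := by positivity
      have hlx : 0 ≤ (l : ℝ) * x := mul_nonneg hl0 hx
      have ha0 : 0 ≤ (l : ℝ) / (1 + (l : ℝ) * x) := div_nonneg hl0 (by linarith)
      have ha1 : (l : ℝ) / (1 + (l : ℝ) * x) ≤ K := (div_le_self hl0 (by linarith)).trans hlK
      have hb : |((bc t : ℚ) : ℝ)| ≤ 1 := by
        have := abs_bc_le t
        exact_mod_cast this
      rw [coeff_rescale, bS, coeff_mk, abs_mul, abs_of_nonneg (pow_nonneg ha0 t)]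
      calc ((l : ℝ) / (1 + (l : ℝ) * x)) ^ t * |((bc t : ℚ) : ℝ)|
          ≤ (K : ℝ) ^ t * 1 := mul_le_mul (pow_le_pow_left₀ ha0 ha1 t) hb (abs_nonneg _)
            (by positivity)
        _ = (K : ℝ) ^ t := mul_one _) t
  have h2 : ∑ l ∈ Finset.Icc 1 K, c l ≤ 2 * K := by
    calc ∑ l ∈ Finset.Icc 1 K, c l ≤ ∑ l ∈ Finset.Icc 1 K, 2 := Finset.sum_le_sum fun l _ => hc l
      _ = 2 * K := by simp [mul_comm]
  refine h1.trans ?_
  calc (2 : ℝ) ^ ((∑ l ∈ Finset.Icc 1 K, c l) + t) * (K : ℝ) ^ t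
      ≤ 2 ^ (2 * K + t) * (K : ℝ) ^ t :=
        mul_le_mul_of_nonneg_right (pow_le_pow_right₀ (by norm_num) (by omega)) (by positivity)
    _ = 4 ^ K * (2 * (K : ℝ)) ^ t := by
        rw [pow_add, pow_mul, mul_pow]
        norm_num
        ring

theorem fv_bd (K : ℕ) (c : ℕ → ℕ) (hc : ∀ l, c l ≤ 2) {x : ℝ} (hx : 0 ≤ x)
    (hx1 : (K : ℝ) * x ≤ 1) : 1 ≤ Fv K c x ∧ Fv K c x ≤ 2 ^ K := by
  have key : ∀ l ∈ Finset.Icc 1 K, 1 ≤ ((1 + (l : ℝ) * x) ^ ((1 : ℝ) / 3)) ^ (c l) ∧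
      ((1 + (l : ℝ) * x) ^ ((1 : ℝ) / 3)) ^ (c l) ≤ 2 := by
    intro l hl
    obtain ⟨hl1, hl2⟩ := Finset.mem_Icc.1 hl
    have hlK : (l : ℝ) ≤ K := by exact_mod_cast hl2
    have hl0 : (0 : ℝ) ≤ l := by positivity
    have hlx : 0 ≤ (l : ℝ) * x := mul_nonneg hl0 hx
    have hlx1 : (l : ℝ) * x ≤ 1 := (mul_le_mul_of_nonneg_right hlK hx).trans hx1
    have hy : 1 ≤ (1 + (l : ℝ) * x) ^ ((1 : ℝ) / 3) := Real.one_le_rpow (by linarith) (by norm_num)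
    refine ⟨one_le_pow₀ hy, (pow_le_pow_right₀ hy (show c l ≤ 3 by have := hc l; omega)).trans ?_⟩
    rw [← Real.rpow_natCast, ← Real.rpow_mul (by linarith)]
    norm_num
    linarith
  unfold Fv
  constructor
  · calc (1 : ℝ) = ∏ _l ∈ Finset.Icc 1 K, (1 : ℝ) := by simp
      _ ≤ _ := Finset.prod_le_prod (fun _ _ => zero_le_one) fun l hl => (key l hl).1
  · calc ∏ l ∈ Finset.Icc 1 K, ((1 + (l : ℝ) * x) ^ ((1 : ℝ) / 3)) ^ (c l)
        ≤ ∏ _l ∈ Finset.Icc 1 K, (2 : ℝ) :=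
          Finset.prod_le_prod (fun l hl => zero_le_one.trans (key l hl).1) fun l hl => (key l hl).2
      _ = 2 ^ K := by simp

theorem fv_zero (K : ℕ) (c : ℕ → ℕ) : Fv K c 0 = 1 := by
  unfold Fv
  simp

end Pool.Agent.FAC
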