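import Mathlib

/-!
# FAC/TayBd: Taylor coefficients of a jet vanishing at the origin (architect helper1; Mathlib only)

Downward induction on `t ≤ M`.  `t = M`: the hypothesis `hS`.  Step from `t+1` to `t < M`: `T_t(0) = 0` and for `y ∈ [0, x]`
`|T_t'(y)| = (t+1) |T_{t+1}(y)| ≤ (t+1) binom(M,t+1) S y^(M-t-1) = (M-t) binom(M,t) S y^(M-t-1)`
(`Nat.succ_mul_choose_eq`-type identity `(t+1) binom(M,t+1) = (M-t) binom(M,t)`), which is the derivative of
`binom(M,t) S y^(M-t)`; conclude with `image_norm_le_of_norm_deriv_right_le_deriv_boundary` (Mathlib's Gronwall-type comparison) or with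
`monotoneOn` arguments for `binom(M,t) S y^(M-t) ± T_t(y)`.
-/

namespace Pool.Agent.FAC

theorem tay_bd (T : ℕ → ℝ → ℝ) {X : ℝ} (hX : 0 ≤ X)
    (hT : ∀ t : ℕ, ∀ x ∈ Set.Icc 0 X, HasDerivAt (T t) (((t : ℝ) + 1) * T (t + 1) x) x)
    {M : ℕ} (h0 : ∀ t < M, T t 0 = 0) {S : ℝ} (hS : ∀ x ∈ Set.Icc 0 X, |T M x| ≤ S) :
    ∀ t ≤ M, ∀ x ∈ Set.Icc 0 X, |T t x| ≤ (M.choose t : ℝ) * S * x ^ (M - t) := by
  have _ := hX
  have key : ∀ k : ℕ, k ≤ M → ∀ x ∈ Set.Icc 0 X,
      |T (M - k) x| ≤ (M.choose (M - k) : ℝ) * S * x ^ k := by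
    intro k
    induction k with
    | zero =>
      intro _ x hx
      rw [Nat.sub_zero, Nat.choose_self, Nat.cast_one, one_mul, pow_zero, mul_one]
      exact hS x hx
    | succ k ih =>
      intro hk x hx
      obtain ⟨t, ht⟩ : ∃ t, t = M - (k + 1) := ⟨_, rfl⟩
      have htk : M - k = t + 1 := by omega
      have hMt : M - t = k + 1 := by omega
      have ih' := ih (by omega)
      rw [htk] at ih'
      rw [← ht]
      have hch : (M.choose (t + 1) : ℝ) * ((t : ℝ) + 1) = (M.choose t : ℝ) * ((k : ℝ) + 1) := by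
        have h1 := Nat.choose_succ_right_eq M t
        rw [hMt] at h1
        exact_mod_cast h1
      have hB : ∀ y : ℝ, HasDerivAt (fun y : ℝ => (M.choose t : ℝ) * S * y ^ (k + 1))
          ((M.choose t : ℝ) * S * (((k : ℝ) + 1) * y ^ k)) y := by
        intro y
        have h1 := (hasDerivAt_pow (k + 1) y).const_mul ((M.choose t : ℝ) * S)
        simpa using h1
      have hmain := image_norm_le_of_norm_deriv_right_le_deriv_boundary (E := ℝ) (a := 0) (b := X)
        (f := T t) (f' := fun y => ((t : ℝ) + 1) * T (t + 1) y)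
        (fun y hy => (hT t y hy).continuousAt.continuousWithinAt)
        (fun y hy => (hT t y ⟨hy.1, hy.2.le⟩).hasDerivWithinAt)
        (B := fun y : ℝ => (M.choose t : ℝ) * S * y ^ (k + 1))
        (B' := fun y : ℝ => (M.choose t : ℝ) * S * (((k : ℝ) + 1) * y ^ k))
        (by
          rw [h0 t (by omega)]
          simp)
        hB
        (fun y hy => by
          have h1 := ih' y ⟨hy.1, hy.2.le⟩
          rw [Real.norm_eq_abs, abs_mul, abs_of_nonneg (by positivity : (0 : ℝ) ≤ (t : ℝ) + 1)]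
          calc ((t : ℝ) + 1) * |T (t + 1) y| ≤
              ((t : ℝ) + 1) * ((M.choose (t + 1) : ℝ) * S * y ^ k) :=
                mul_le_mul_of_nonneg_left h1 (by positivity)
            _ = ((M.choose (t + 1) : ℝ) * ((t : ℝ) + 1)) * S * y ^ k := by ring
            _ = (M.choose t : ℝ) * S * (((k : ℝ) + 1) * y ^ k) := by
                rw [hch]
                ring)
      have := hmain hx
      rwa [Real.norm_eq_abs] at this
  intro t ht x hx
  have h1 := key (M - t) (Nat.sub_le M t) x hx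
  rwa [Nat.sub_sub_self ht] at h1

end Pool.Agent.FAC
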