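import Pool.Agent.FAC.Defs

/-!
# FAC/TpBd: bounds for the Taylor coefficients of a polynomial with `|a_l| ≤ Hw N b K l` (architect helper1)

`coeff t (tp ℝ A x) = ∑_{l ≥ t} binom(l, t) a_l x^(l-t)` (`Polynomial.taylor_coeff`, `Polynomial.hasseDeriv_apply`, eval).
* `tp_bd1` (`0 ≤ x ≤ 1/N`, `2K ≤ N`, so `K x ≤ 1/2`): `|a_l| ≤ N^b K^l`, so the sum is at most
  `N^b K^t ∑_{l ≥ t} binom(l, t) (K x)^(l-t) ≤ N^b K^t ∑_j binom(t+j, t) 2^(-j) = N^b K^t 2^(t+1)`.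
  (For finite sums: `∑_{j < m} binom(t+j, t) (1/2)^j ≤ 2^(t+1)` by induction on `t` or from `PowerSeries.invOneSubPow`,
  `tsum_choose_mul_geometric_of_norm_lt_one`.)
* `tp_bd2` (`x = 1/n`, `N ≤ n`, degree `≤ d`): `|a_l| ≤ N^l`, so `|a_l| n^(-(l-t)) ≤ n^t` and the sum is at most
  `n^t ∑_{l ≤ d} binom(l, t) ≤ n^t ∑_{l ≤ d} 2^l ≤ n^t 2^(d+1)`.
-/

namespace Pool.Agent.FAC

open PowerSeries

private theorem tp_coeff (A : Polynomial ℤ) (x : ℝ) (t : ℕ) :
    coeff t (tp ℝ A x) = ∑ l ∈ (A.map (Int.castRingHom ℝ)).support,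
      ((l.choose t : ℝ) * (A.coeff l : ℝ)) * x ^ (l - t) := by
  unfold tp
  rw [Polynomial.coeff_coe, Polynomial.taylor_coeff, Polynomial.hasseDeriv_apply,
    Polynomial.sum_def, Polynomial.eval_finsetSum]
  refine Finset.sum_congr rfl fun l _ => ?_
  rw [Polynomial.eval_monomial, Polynomial.coeff_map]
  rfl

private theorem geo_bd (t m : ℕ) :
    ∑ j ∈ Finset.range m, (((j + t).choose t : ℕ) : ℝ) * (1 / 2) ^ j ≤ 2 ^ (t + 1) := by
  have hr : ‖(1 / 2 : ℝ)‖ < 1 := by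
    rw [Real.norm_eq_abs, abs_of_pos (by norm_num)]
    norm_num
  have h1 := summable_choose_mul_geometric_of_norm_lt_one (R := ℝ) t hr
  have h2 := tsum_choose_mul_geometric_of_norm_lt_one (𝕜 := ℝ) t hr
  have h3 : (1 : ℝ) / (1 - 1 / 2) ^ (t + 1) = 2 ^ (t + 1) := by
    have e : (1 : ℝ) - 1 / 2 = 1 / 2 := by norm_num
    rw [e, one_div_pow, one_div_one_div]
  rw [h3] at h2
  rw [← h2]
  exact h1.sum_le_tsum _ (fun j _ => by positivity)

private theorem geo_supp (t : ℕ) (s : Finset ℕ) :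
    ∑ l ∈ s, ((l.choose t : ℕ) : ℝ) * (1 / 2) ^ (l - t) ≤ 2 ^ (t + 1) := by
  obtain ⟨m, hm⟩ : ∃ m, s ⊆ Finset.range (t + m) := by
    refine ⟨s.sup id + 1, fun l hl => ?_⟩
    have h1 : l ≤ s.sup id := Finset.le_sup (f := id) hl
    rw [Finset.mem_range]
    omega
  refine (Finset.sum_le_sum_of_subset_of_nonneg hm (fun l _ _ => by positivity)).trans ?_
  rw [Finset.sum_range_add]
  have h0 : ∑ l ∈ Finset.range t, ((l.choose t : ℕ) : ℝ) * (1 / 2) ^ (l - t) = 0 := by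
    refine Finset.sum_eq_zero fun l hl => ?_
    rw [Nat.choose_eq_zero_of_lt (Finset.mem_range.1 hl)]
    simp
  rw [h0, zero_add]
  refine le_trans (le_of_eq ?_) (geo_bd t m)
  refine Finset.sum_congr rfl fun j _ => ?_
  rw [Nat.add_sub_cancel_left, add_comm t j]

theorem tp_bd1 {N b K : ℕ} (hK : 1 ≤ K) (hN : 2 * K ≤ N) {A : Polynomial ℤ}
    (hA : ∀ l, |A.coeff l| ≤ (Hw N b K l : ℤ)) {x : ℝ} (hx : 0 ≤ x) (hxN : x * (N : ℝ) ≤ 1)
    (t : ℕ) : |coeff t (tp ℝ A x)| ≤ (N : ℝ) ^ b * (K : ℝ) ^ t * 2 ^ (t + 1) := by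
  have hK0 : (0 : ℝ) ≤ K := Nat.cast_nonneg K
  have hKx : (K : ℝ) * x ≤ 1 / 2 := by
    have h1 : (2 : ℝ) * K ≤ N := by exact_mod_cast hN
    nlinarith
  rw [tp_coeff]
  refine (Finset.abs_sum_le_sum_abs _ _).trans ?_
  refine (Finset.sum_le_sum (g := fun l => ((N : ℝ) ^ b * (K : ℝ) ^ t) *
    (((l.choose t : ℕ) : ℝ) * (1 / 2) ^ (l - t))) fun l _ => ?_).trans ?_
  · rcases lt_or_ge l t with hlt | hle
    · rw [Nat.choose_eq_zero_of_lt hlt]
      simp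
    · have hAl : |(A.coeff l : ℝ)| ≤ (N : ℝ) ^ b * (K : ℝ) ^ l := by
        have h1 := hA l
        have h2 : (Hw N b K l : ℤ) ≤ (N : ℤ) ^ b * (K : ℤ) ^ l := by
          unfold Hw
          exact_mod_cast min_le_right _ _
        have h3 := h1.trans h2
        exact_mod_cast h3
      rw [abs_mul, abs_mul, abs_of_nonneg (Nat.cast_nonneg _ : (0 : ℝ) ≤ (l.choose t : ℝ)),
        abs_of_nonneg (pow_nonneg hx _)]
      have hKl : (K : ℝ) ^ l = (K : ℝ) ^ t * (K : ℝ) ^ (l - t) := by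
        rw [← pow_add, Nat.add_sub_cancel' hle]
      calc (l.choose t : ℝ) * |(A.coeff l : ℝ)| * x ^ (l - t)
          ≤ (l.choose t : ℝ) * ((N : ℝ) ^ b * (K : ℝ) ^ l) * x ^ (l - t) := by gcongr
        _ = (N : ℝ) ^ b * (K : ℝ) ^ t * ((l.choose t : ℝ) * (K * x) ^ (l - t)) := by
          rw [hKl, mul_pow]
          ring
        _ ≤ (N : ℝ) ^ b * (K : ℝ) ^ t * ((l.choose t : ℝ) * (1 / 2) ^ (l - t)) := by
          gcongr
  · rw [← Finset.mul_sum]
    exact mul_le_mul_of_nonneg_left (geo_supp t _) (by positivity)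

private theorem two_sum (m : ℕ) : ∑ l ∈ Finset.range m, (2 : ℝ) ^ l ≤ 2 ^ m := by
  induction m with
  | zero => simp
  | succ m ih =>
    rw [Finset.sum_range_succ, pow_succ]
    linarith

theorem tp_bd2 {N b K d n : ℕ} (hN : 0 < N) (hn : N ≤ n) {A : Polynomial ℤ}
    (hd : A.natDegree ≤ d) (hA : ∀ l, |A.coeff l| ≤ (Hw N b K l : ℤ)) (t : ℕ) :
    |coeff t (tp ℝ A (1 / (n : ℝ)))| ≤ 2 ^ (d + 1) * (n : ℝ) ^ t := by
  have hn0 : (0 : ℝ) < n := by exact_mod_cast lt_of_lt_of_le hN hn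
  rw [tp_coeff]
  refine (Finset.abs_sum_le_sum_abs _ _).trans ?_
  refine (Finset.sum_le_sum (g := fun l => (2 : ℝ) ^ l * (n : ℝ) ^ t) fun l _ => ?_).trans ?_
  · rcases lt_or_ge l t with hlt | hle
    · rw [Nat.choose_eq_zero_of_lt hlt]
      simp only [Nat.cast_zero, zero_mul, abs_zero]
      positivity
    · have hAl : |(A.coeff l : ℝ)| ≤ (n : ℝ) ^ l := by
        have h1 := hA l
        have h2 : (Hw N b K l : ℤ) ≤ (n : ℤ) ^ l := by
          unfold Hw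
          exact_mod_cast (min_le_left _ _).trans (Nat.pow_le_pow_left hn l)
        have h3 := h1.trans h2
        exact_mod_cast h3
      rw [abs_mul, abs_mul, abs_of_nonneg (Nat.cast_nonneg _ : (0 : ℝ) ≤ (l.choose t : ℝ)),
        abs_of_nonneg (by positivity : (0 : ℝ) ≤ (1 / (n : ℝ)) ^ (l - t))]
      have hc : (l.choose t : ℝ) ≤ 2 ^ l := by exact_mod_cast Nat.choose_le_two_pow l t
      have hnl : (n : ℝ) ^ l = (n : ℝ) ^ t * (n : ℝ) ^ (l - t) := by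
        rw [← pow_add, Nat.add_sub_cancel' hle]
      calc (l.choose t : ℝ) * |(A.coeff l : ℝ)| * (1 / (n : ℝ)) ^ (l - t)
          ≤ 2 ^ l * (n : ℝ) ^ l * (1 / (n : ℝ)) ^ (l - t) := by gcongr
        _ = 2 ^ l * (n : ℝ) ^ t := by
          rw [hnl, one_div_pow]
          field_simp
  · rw [← Finset.sum_mul]
    refine mul_le_mul_of_nonneg_right ?_ (by positivity)
    refine le_trans ?_ (two_sum (d + 1))
    refine Finset.sum_le_sum_of_subset_of_nonneg ?_ (fun l _ _ => by positivity)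
    intro l hl
    rw [Finset.mem_range]
    have h1 := Polynomial.le_natDegree_of_mem_supp l hl
    have h2 := Polynomial.natDegree_map_le (f := Int.castRingHom ℝ) (p := A)
    omega

end Pool.Agent.FAC
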