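import Pool.Agent.FAC.JetSer
import Pool.Agent.FAC.TayBd
import Pool.Agent.FAC.FhBd
import Pool.Agent.FAC.TpBd

/-!
# FAC/Small: the approximation forms are small at `1/n` (architect helper1)

* `jv_coeff_bd`: for `0 ≤ x ≤ 1/N`: each term `v_α Fv tp_α Fh_α` has coefficient `M` at most
  `2 · 2^K · ∑_{i+j=M} (N^b K^i 2^(i+1)) (4^K (2K)^j) = 4 (M+1) 8^K N^b (2K)^M` (`tp_bd1`, `fh_bd`, `fv_bd` with `K x ≤ K/N ≤ 1`); sum over
  `card ι` terms.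
* `small_bd`: `tay_bd` for `T_t(x) = coeff t (Jv K c A v x)` on `[0, 1/n]` (`isJetAt_Jv`; at `0`, `Jv K c A v 0 = Ser ℝ K c A v 0` by `fv_zero`),
  with `S` from `jv_coeff_bd`, and `binom(M,t) ≤ 2^M` (`Nat.choose_le_two_pow`), `(1/n)^(M-t) = n^t/n^M`.
* `second_bd`: `2^K · ∑_{i+j=t} (2^(d+1) n^i) (4^K (2K)^j) ≤ (t+1) 2^(d+1) 8^K n^t` as `2K ≤ n` (`tp_bd2`, `fh_bd`, `fv_bd`).
-/

namespace Pool.Agent.FAC

open PowerSeries

private theorem prod_bd (w : ℝ) (f g : PowerSeries ℝ) (M : ℕ) {W P G r : ℝ} (hw : |w| ≤ W)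
    (hf : ∀ i, |coeff i f| ≤ P * r ^ i) (hg : ∀ j, |coeff j g| ≤ G * r ^ j)
    (hP : 0 ≤ P) (hr : 0 ≤ r) :
    |coeff M (C w * f * g)| ≤ W * (((M : ℝ) + 1) * (P * G * r ^ M)) := by
  rw [mul_assoc, PowerSeries.coeff_C_mul, abs_mul, PowerSeries.coeff_mul]
  have hW : 0 ≤ W := (abs_nonneg w).trans hw
  refine mul_le_mul hw ?_ (abs_nonneg _) hW
  refine (Finset.abs_sum_le_sum_abs _ _).trans ?_
  have h1 : ∀ p ∈ Finset.HasAntidiagonal.antidiagonal M, |coeff p.1 f * coeff p.2 g| ≤ P * G * r ^ M := by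
    intro p hp
    rw [Finset.HasAntidiagonal.mem_antidiagonal] at hp
    rw [abs_mul, ← hp, pow_add]
    calc |coeff p.1 f| * |coeff p.2 g| ≤ (P * r ^ p.1) * (G * r ^ p.2) :=
          mul_le_mul (hf _) (hg _) (abs_nonneg _) (mul_nonneg hP (pow_nonneg hr _))
      _ = P * G * (r ^ p.1 * r ^ p.2) := by ring
  refine (Finset.sum_le_sum h1).trans (le_of_eq ?_)
  rw [Finset.sum_const, Finset.Nat.card_antidiagonal, nsmul_eq_mul]
  push_cast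
  ring

theorem jv_coeff_bd {ι : Type*} [Fintype ι] {N b K : ℕ} (M : ℕ) (hK : 1 ≤ K) (hN : 2 * K ≤ N)
    (c : ι → ℕ → ℕ) (hc : ∀ α l, c α l ≤ 2) (A : ι → Polynomial ℤ)
    (hA : ∀ α l, |(A α).coeff l| ≤ (Hw N b K l : ℤ)) (v : ι → ℝ) (hv : ∀ α, |v α| ≤ 2)
    {x : ℝ} (hx : 0 ≤ x) (hxN : x * (N : ℝ) ≤ 1) :
    |coeff M (Jv K c A v x)| ≤
      4 * (Fintype.card ι : ℝ) * ((M : ℝ) + 1) * 8 ^ K * (N : ℝ) ^ b * (2 * (K : ℝ)) ^ M := by
  have hN' : 2 * (K : ℝ) ≤ N := by exact_mod_cast hN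
  have hKx : (K : ℝ) * x ≤ 1 := by nlinarith
  unfold Jv Ser
  rw [map_sum]
  refine (Finset.abs_sum_le_sum_abs _ _).trans ?_
  have h1 : ∀ α ∈ (Finset.univ : Finset ι),
      |coeff M (C (v α * Fv K (c α) x) * tp ℝ (A α) x * Fh ℝ K (c α) x)| ≤
        (2 * 2 ^ K) * (((M : ℝ) + 1) * (((N : ℝ) ^ b * 2) * 4 ^ K * (2 * (K : ℝ)) ^ M)) := by
    intro α _
    have hfv := fv_bd K (c α) (hc α) hx hKx
    refine prod_bd _ _ _ M ?_ ?_ ?_ (by positivity) (by positivity)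
    · rw [abs_mul, abs_of_nonneg (zero_le_one.trans hfv.1)]
      exact mul_le_mul (hv α) hfv.2 (zero_le_one.trans hfv.1) (by norm_num)
    · intro i
      refine (tp_bd1 hK hN (hA α) hx hxN i).trans (le_of_eq ?_)
      rw [mul_pow, pow_succ]
      ring
    · intro j
      exact fh_bd K (c α) (hc α) hx j
  refine (Finset.sum_le_sum h1).trans (le_of_eq ?_)
  rw [Finset.sum_const, Finset.card_univ, nsmul_eq_mul,
    show (8 : ℝ) ^ K = 2 ^ K * 4 ^ K by rw [← mul_pow]; norm_num]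
  ring

theorem small_bd {ι : Type*} [Fintype ι] {N b K M n : ℕ} (hK : 1 ≤ K) (hN : 2 * K ≤ N)
    (hn : N ≤ n) (c : ι → ℕ → ℕ) (hc : ∀ α l, c α l ≤ 2) (A : ι → Polynomial ℤ)
    (hA : ∀ α l, |(A α).coeff l| ≤ (Hw N b K l : ℤ)) (v : ι → ℝ) (hv : ∀ α, |v α| ≤ 2)
    (h0 : ∀ l < M, coeff l (Ser ℝ K c A v 0) = 0) {t : ℕ} (ht : t ≤ M) :
    |coeff t (Jv K c A v (1 / (n : ℝ)))| ≤
      2 ^ M * (4 * (Fintype.card ι : ℝ) * ((M : ℝ) + 1) * 8 ^ K * (N : ℝ) ^ b *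
        (2 * (K : ℝ)) ^ M) * (n : ℝ) ^ t / (n : ℝ) ^ M := by
  have hN0 : 0 < N := by omega
  have hn0 : 0 < n := by omega
  have hn0' : (0 : ℝ) < n := by exact_mod_cast hn0
  have hX : (0 : ℝ) ≤ 1 / n := by positivity
  have hfv0 : ∀ α, Fv K (c α) 0 = 1 := fun α => fv_zero K (c α)
  have hmain := tay_bd (fun t x => coeff t (Jv K c A v x)) hX
    (fun t x hx => isJetAt_Jv K c A v hx.1 t) (M := M)
    (fun l hl => by
      have h1 : (fun α => v α * Fv K (c α) 0) = v := by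
        funext α
        rw [hfv0, mul_one]
      unfold Jv
      rw [h1]
      exact h0 l hl)
    (S := 4 * (Fintype.card ι : ℝ) * ((M : ℝ) + 1) * 8 ^ K * (N : ℝ) ^ b *
        (2 * (K : ℝ)) ^ M)
    (fun x hx => by
      refine jv_coeff_bd M hK hN c hc A hA v hv hx.1 ?_
      have h1 : x * (N : ℝ) ≤ (1 / n) * n := by
        refine mul_le_mul hx.2 (by exact_mod_cast hn) (by positivity) (by positivity)
      rwa [one_div, inv_mul_cancel₀ hn0'.ne'] at h1)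
    t ht (1 / (n : ℝ)) ⟨hX, le_rfl⟩
  refine hmain.trans ?_
  have h2 : (1 / (n : ℝ)) ^ (M - t) = (n : ℝ) ^ t / (n : ℝ) ^ M := by
    rw [one_div, inv_pow, eq_div_iff (by positivity), inv_mul_eq_iff_eq_mul₀ (by positivity),
      ← pow_add, Nat.sub_add_cancel ht]
  rw [h2, mul_div_assoc]
  refine mul_le_mul_of_nonneg_right ?_ (by positivity)
  refine mul_le_mul_of_nonneg_right ?_ (by positivity)
  exact_mod_cast Nat.choose_le_two_pow M t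

theorem second_bd {N b K d n : ℕ} (hK : 1 ≤ K) (hN : 2 * K ≤ N) (hn : N ≤ n) (c : ℕ → ℕ)
    (hc : ∀ l, c l ≤ 2) {A : Polynomial ℤ} (hd : A.natDegree ≤ d)
    (hA : ∀ l, |A.coeff l| ≤ (Hw N b K l : ℤ)) (t : ℕ) :
    |coeff t (C (Fv K c (1 / (n : ℝ))) * tp ℝ A (1 / (n : ℝ)) * Fh ℝ K c (1 / (n : ℝ)))| ≤
      ((t : ℝ) + 1) * 2 ^ (d + 1) * 8 ^ K * (n : ℝ) ^ t := by
  have hN0 : 0 < N := by omega
  have hn0 : 0 < n := by omega
  have hn0' : (0 : ℝ) < n := by exact_mod_cast hn0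
  have hX : (0 : ℝ) ≤ 1 / n := by positivity
  have hKn : 2 * (K : ℝ) ≤ n := by exact_mod_cast hN.trans hn
  have hKx : (K : ℝ) * (1 / n) ≤ 1 := by
    rw [mul_one_div, div_le_one hn0']
    nlinarith [(Nat.cast_nonneg K : (0 : ℝ) ≤ K)]
  have hfv := fv_bd K c hc hX hKx
  refine (prod_bd _ _ _ t (W := 2 ^ K) (P := 2 ^ (d + 1)) (G := 4 ^ K) (r := (n : ℝ)) ?_ ?_ ?_
    (by positivity) (by positivity)).trans (le_of_eq ?_)
  · rw [abs_of_nonneg (zero_le_one.trans hfv.1)]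
    exact hfv.2
  · intro i
    exact tp_bd2 hN0 hn hd hA i
  · intro j
    refine (fh_bd K c hc hX j).trans ?_
    exact mul_le_mul_of_nonneg_left (pow_le_pow_left₀ (by positivity) hKn j) (by positivity)
  · rw [show (8 : ℝ) ^ K = 2 ^ K * 4 ^ K by rw [← mul_pow]; norm_num]
    ring

end Pool.Agent.FAC
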