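import Pool.Agent.FAC.MapSer
import Pool.Agent.FAC.Small

/-!
# FAC/Expand: the three orders of the rational series (architect helper1)

* `expand`: linearity: `(1+ε₁)(1+ε₂) = 1 + (ε₁+ε₂) + ε₁ε₂` and `ε_{α₁} + ε_{α₂} = ∑_i ε_i vv i α`.
* `aux_zero`: cast `Aux.z0`, `Aux.z1` to `ℝ` with `ser_cast` (at `x = 0`); for `i = 0`: `∑_i vv i α = 2`, so
  `Ser(vv 0) = 2 Ser(1) - Ser(vv 1) - Ser(vv 2) - Ser(vv 3)` (`Ser` is linear in `v`), and `M₁ ≤ M₀`.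
* `coef_est`: `expand` at `x = 1/n`, `Y = Yn n`; `small_bd` for `v = 1` (`M = M₀`) and for `v = vv i` (`|vv i| ≤ 2`, `M = M₁`), `card Idx = 10`
  (`decide`/`rfl`), so the bound of `small_bd` is `Zf N b K M n t`; `Y ε_i ≤ 1`, `Y ε_i ε_j ≤ Y⁻¹`; `second_bd`; `cc h α l ≤ 2`.
-/

namespace Pool.Agent.FAC

open PowerSeries

theorem cc_le (h : Fin 4 → ℕ) (α : Idx) (l : ℕ) : cc h α l ≤ 2 := by
  unfold cc; split_ifs <;> omega

/-- the coefficients of the series are linear in `v` -/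
theorem coeff_Ser {ι : Type*} [Fintype ι] (K : ℕ) (c : ι → ℕ → ℕ) (A : ι → Polynomial ℤ)
    (v : ι → ℝ) (x : ℝ) (t : ℕ) : coeff t (Ser ℝ K c A v x) =
      ∑ α, v α * coeff t (tp ℝ (A α) x * Fh ℝ K (c α) x) := by
  unfold Ser
  rw [map_sum]
  refine Finset.sum_congr rfl fun α _ => ?_
  rw [mul_assoc, coeff_C_mul]

theorem sum_vv (ε : Fin 4 → ℝ) (α : Idx) :
    ∑ i : Fin 4, ε i * ((vv i α : ℤ) : ℝ) = ε α.1.1 + ε α.1.2 := by
  unfold vv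
  simp only [Int.cast_add, Int.cast_ite, Int.cast_one, Int.cast_zero, mul_add,
    Finset.sum_add_distrib, mul_ite, mul_one, mul_zero, Finset.sum_ite_eq, Finset.mem_univ,
    if_true]

theorem expand (K : ℕ) (h : Fin 4 → ℕ) (A : Idx → Polynomial ℤ) (ε : Fin 4 → ℝ) (Y x : ℝ)
    (t : ℕ) :
    coeff t (Ser ℝ K (cc h) A
      (fun α => Y * ((1 + ε α.1.1) * (1 + ε α.1.2)) * Fv K (cc h α) x) x) =
    Y * (coeff t (Jv K (cc h) A (fun _ => 1) x) +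
      ∑ i : Fin 4, ε i * coeff t (Jv K (cc h) A (fun α => ((vv i α : ℤ) : ℝ)) x) +
      ∑ α : Idx, ε α.1.1 * ε α.1.2 *
        coeff t (C (Fv K (cc h α) x) * tp ℝ (A α) x * Fh ℝ K (cc h α) x)) := by
  unfold Jv
  simp only [coeff_Ser, mul_assoc (C _), coeff_C_mul]
  have e1 : ∑ i : Fin 4, ε i * ∑ α : Idx, ((vv i α : ℤ) : ℝ) * Fv K (cc h α) x *
        coeff t (tp ℝ (A α) x * Fh ℝ K (cc h α) x) =
      ∑ α : Idx, (ε α.1.1 + ε α.1.2) * (Fv K (cc h α) x *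
        coeff t (tp ℝ (A α) x * Fh ℝ K (cc h α) x)) := by
    simp only [Finset.mul_sum]
    rw [Finset.sum_comm]
    refine Finset.sum_congr rfl fun α _ => ?_
    rw [← sum_vv ε α, Finset.sum_mul]
    refine Finset.sum_congr rfl fun i _ => ?_
    ring
  rw [e1, ← Finset.sum_add_distrib, ← Finset.sum_add_distrib, Finset.mul_sum]
  refine Finset.sum_congr rfl fun α _ => ?_
  ring

theorem vv_sum_two (α : Idx) : ((vv 0 α : ℤ) : ℝ) = 2 - ((vv 1 α : ℤ) : ℝ) -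
    ((vv 2 α : ℤ) : ℝ) - ((vv 3 α : ℤ) : ℝ) := by
  have h1 := sum_vv (fun _ => 1) α
  rw [Fin.sum_univ_four] at h1
  linarith

theorem aux_zero {K N b d M₀ M₁ : ℕ} {h : Fin 4 → ℕ} {A : Idx → Polynomial ℤ}
    (hA : Aux K N b d M₀ M₁ h A) (hM : M₁ ≤ M₀) :
    (∀ l < M₀, coeff l (Ser ℝ K (cc h) A (fun _ => 1) 0) = 0) ∧
      ∀ i : Fin 4, ∀ l < M₁,
        coeff l (Ser ℝ K (cc h) A (fun α => ((vv i α : ℤ) : ℝ)) 0) = 0 := by
  have h0 : ∀ l < M₀, coeff l (Ser ℝ K (cc h) A (fun _ => 1) 0) = 0 := by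
    intro l hl
    have h1 := ser_cast K (cc h) A (fun _ => 1) 0 l
    rw [hA.z0 l hl] at h1
    simp only [Rat.cast_zero, Rat.cast_one] at h1
    exact h1.symm
  have hi : ∀ i : Fin 4, i ≠ 0 → ∀ l < M₁,
      coeff l (Ser ℝ K (cc h) A (fun α => ((vv i α : ℤ) : ℝ)) 0) = 0 := by
    intro i hi l hl
    have h1 := ser_cast K (cc h) A (fun α => ((vv i α : ℤ) : ℚ)) 0 l
    rw [hA.z1 i hi l hl] at h1
    simp only [Rat.cast_zero, Rat.cast_intCast] at h1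
    exact h1.symm
  refine ⟨h0, ?_⟩
  intro i l hl
  by_cases hi0 : i = 0
  · subst hi0
    have a0 := h0 l (lt_of_lt_of_le hl hM)
    have a1 := hi 1 (by decide) l hl
    have a2 := hi 2 (by decide) l hl
    have a3 := hi 3 (by decide) l hl
    rw [coeff_Ser] at a0 a1 a2 a3 ⊢
    have e : ∑ α : Idx, ((vv 0 α : ℤ) : ℝ) * coeff l (tp ℝ (A α) 0 * Fh ℝ K (cc h α) 0) =
        2 * ∑ α : Idx, 1 * coeff l (tp ℝ (A α) 0 * Fh ℝ K (cc h α) 0) -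
        ∑ α : Idx, ((vv 1 α : ℤ) : ℝ) * coeff l (tp ℝ (A α) 0 * Fh ℝ K (cc h α) 0) -
        ∑ α : Idx, ((vv 2 α : ℤ) : ℝ) * coeff l (tp ℝ (A α) 0 * Fh ℝ K (cc h α) 0) -
        ∑ α : Idx, ((vv 3 α : ℤ) : ℝ) * coeff l (tp ℝ (A α) 0 * Fh ℝ K (cc h α) 0) := by
      rw [Finset.mul_sum, ← Finset.sum_sub_distrib, ← Finset.sum_sub_distrib,
        ← Finset.sum_sub_distrib]
      refine Finset.sum_congr rfl fun α _ => ?_
      rw [vv_sum_two α]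
      ring
    rw [e, a0, a1, a2, a3]
    ring
  · exact hi i hi0 l hl

theorem card_Idx : Fintype.card Idx = 10 := by
  decide

theorem abs_vv_le (i : Fin 4) (α : Idx) : |((vv i α : ℤ) : ℝ)| ≤ 2 := by
  unfold vv
  split_ifs <;> norm_num

theorem coef_est {K N b d M₀ M₁ n : ℕ} {h : Fin 4 → ℕ} {A : Idx → Polynomial ℤ}
    (hA : Aux K N b d M₀ M₁ h A) (hM : M₁ ≤ M₀) (hK : 1 ≤ K) (hN : 2 * K ≤ N) (hn : N ≤ n)
    {Y : ℝ} (hY : 0 < Y) {ε : Fin 4 → ℝ} (hε : ∀ i, 0 ≤ ε i) (hεY : ∀ i, ε i * Y ≤ 1)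
    {t : ℕ} (ht : t ≤ M₁) :
    |coeff t (Ser ℝ K (cc h) A
      (fun α => Y * ((1 + ε α.1.1) * (1 + ε α.1.2)) * Fv K (cc h α) (1 / (n : ℝ)))
        (1 / (n : ℝ)))| ≤
      Y * Zf N b K M₀ n t + 4 * Zf N b K M₁ n t +
        10 * Y⁻¹ * (((t : ℝ) + 1) * 2 ^ (d + 1) * 8 ^ K * (n : ℝ) ^ t) := by
  obtain ⟨hz0, hz1⟩ := aux_zero hA hM
  have hcc : ∀ (α : Idx) l, cc h α l ≤ 2 := fun α l => cc_le h α l
  have b0 : |coeff t (Jv K (cc h) A (fun _ => 1) (1 / (n : ℝ)))| ≤ Zf N b K M₀ n t := by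
    have h1 := small_bd (n := n) (M := M₀) hK hN hn (cc h) hcc A hA.bd (fun _ => 1)
      (fun _ => by norm_num) hz0 (ht.trans hM)
    refine h1.trans (le_of_eq ?_)
    unfold Zf
    rw [card_Idx]
    push_cast
    ring
  have b1 : ∀ i : Fin 4, |coeff t (Jv K (cc h) A (fun α => ((vv i α : ℤ) : ℝ))
      (1 / (n : ℝ)))| ≤ Zf N b K M₁ n t := by
    intro i
    have h1 := small_bd (n := n) (M := M₁) hK hN hn (cc h) hcc A hA.bd
      (fun α => ((vv i α : ℤ) : ℝ)) (fun α => abs_vv_le i α) (hz1 i) ht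
    refine h1.trans (le_of_eq ?_)
    unfold Zf
    rw [card_Idx]
    push_cast
    ring
  have b2 : ∀ α : Idx, |coeff t (C (Fv K (cc h α) (1 / (n : ℝ))) * tp ℝ (A α) (1 / (n : ℝ)) *
      Fh ℝ K (cc h α) (1 / (n : ℝ)))| ≤ ((t : ℝ) + 1) * 2 ^ (d + 1) * 8 ^ K * (n : ℝ) ^ t :=
    fun α => second_bd hK hN hn (cc h α) (hcc α) (hA.deg α) (hA.bd α) t
  rw [expand, mul_add, mul_add, Finset.mul_sum, Finset.mul_sum]
  refine (abs_add_three _ _ _).trans ?_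
  refine add_le_add (add_le_add ?_ ?_) ?_
  · rw [abs_mul, abs_of_pos hY]
    exact mul_le_mul_of_nonneg_left b0 hY.le
  · refine (Finset.abs_sum_le_sum_abs _ _).trans ?_
    have h1 : ∀ i ∈ (Finset.univ : Finset (Fin 4)), |Y * (ε i * coeff t (Jv K (cc h) A
        (fun α => ((vv i α : ℤ) : ℝ)) (1 / (n : ℝ))))| ≤ Zf N b K M₁ n t := by
      intro i _
      rw [← mul_assoc, abs_mul, abs_of_nonneg (mul_nonneg hY.le (hε i))]
      have h2 : Y * ε i ≤ 1 := by rw [mul_comm]; exact hεY i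
      calc Y * ε i * |coeff t (Jv K (cc h) A (fun α => ((vv i α : ℤ) : ℝ)) (1 / (n : ℝ)))| ≤
          1 * |coeff t (Jv K (cc h) A (fun α => ((vv i α : ℤ) : ℝ)) (1 / (n : ℝ)))| :=
            mul_le_mul_of_nonneg_right h2 (abs_nonneg _)
        _ ≤ _ := by rw [one_mul]; exact b1 i
    refine (Finset.sum_le_card_nsmul _ _ _ h1).trans (le_of_eq ?_)
    rw [Finset.card_univ, Fintype.card_fin, nsmul_eq_mul]
    norm_num
  · refine (Finset.abs_sum_le_sum_abs _ _).trans ?_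
    have h1 : ∀ α ∈ (Finset.univ : Finset Idx), |Y * (ε α.1.1 * ε α.1.2 *
        coeff t (C (Fv K (cc h α) (1 / (n : ℝ))) * tp ℝ (A α) (1 / (n : ℝ)) *
          Fh ℝ K (cc h α) (1 / (n : ℝ))))| ≤
        Y⁻¹ * (((t : ℝ) + 1) * 2 ^ (d + 1) * 8 ^ K * (n : ℝ) ^ t) := by
      intro α _
      rw [← mul_assoc, abs_mul, abs_of_nonneg (mul_nonneg hY.le (mul_nonneg (hε _) (hε _)))]
      have h2 : Y * (ε α.1.1 * ε α.1.2) ≤ Y⁻¹ := by
        have h3 : Y * (ε α.1.1 * ε α.1.2) = (ε α.1.1 * Y) * (ε α.1.2 * Y) * Y⁻¹ := by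
          field_simp
        rw [h3]
        have h4 : (ε α.1.1 * Y) * (ε α.1.2 * Y) ≤ 1 := by
          have := mul_le_mul (hεY α.1.1) (hεY α.1.2) (mul_nonneg (hε _) hY.le) zero_le_one
          simpa using this
        calc (ε α.1.1 * Y) * (ε α.1.2 * Y) * Y⁻¹ ≤ 1 * Y⁻¹ :=
              mul_le_mul_of_nonneg_right h4 (inv_nonneg.mpr hY.le)
          _ = Y⁻¹ := one_mul _
      exact mul_le_mul h2 (b2 α) (abs_nonneg _) (inv_nonneg.mpr hY.le)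
    refine (Finset.sum_le_card_nsmul _ _ _ h1).trans (le_of_eq ?_)
    rw [Finset.card_univ, card_Idx, nsmul_eq_mul]
    push_cast
    ring

end Pool.Agent.FAC
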