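import Pool.Agent.FAC.BInt

/-!
# FAC/FhInt: integrality of the coefficients of `Fh` (architect helper1)

Call a power series `f` over `ℚ` `q`-integral if `q^t coeff t f ∈ ℤ` for all `t`; products and powers of `q`-integral series are
`q`-integral (`q^t = q^i q^j` for `i + j = t`).  `rescale a b` with `9 a b_t`…: `q^t (a^t b_t) = (q a / 9)^t (9^t b_t)` is an integer
if `q a / 9 ∈ ℤ` (`nine_pow_bc`).
* `x = 0`: `a = l`, `q = 9`.
* `x = 1/n`: `a = l/(1 + l/n) = l n/(n+l)`, `q = 9 D`, `D = ∏_{l ≤ K} (n+l)`: `q a/9 = l n D/(n+l) ∈ ℤ` (`Finset.dvd_prod_of_mem`).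
-/

namespace Pool.Agent.FAC

open PowerSeries

/-- the power series with integer coefficients -/
private noncomputable def IS : Subring (PowerSeries ℚ) := (PowerSeries.map (Int.castRingHom ℚ)).range

private theorem mem_IS {f : PowerSeries ℚ} (h : ∀ t, ∃ z : ℤ, (z : ℚ) = coeff t f) : f ∈ IS := by
  choose z hz using h
  refine ⟨PowerSeries.mk z, ?_⟩
  ext t
  rw [PowerSeries.coeff_map, coeff_mk]
  exact hz t

private theorem of_mem_IS {f : PowerSeries ℚ} (h : f ∈ IS) (t : ℕ) :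
    ∃ z : ℤ, (z : ℚ) = coeff t f := by
  obtain ⟨g, rfl⟩ := h
  exact ⟨coeff t g, by rw [PowerSeries.coeff_map]; rfl⟩

private theorem fac_mem {a q : ℚ} {m : ℤ} (h : q * a = 9 * m) :
    rescale q (rescale a (bS ℚ)) ∈ IS := by
  refine mem_IS fun t => ?_
  obtain ⟨z, hz⟩ := nine_pow_bc t
  refine ⟨m ^ t * z, ?_⟩
  rw [coeff_rescale, coeff_rescale, bS, coeff_mk]
  push_cast
  have h1 : q ^ t * a ^ t = 9 ^ t * (m : ℚ) ^ t := by
    rw [← mul_pow, h, mul_pow]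
  rw [hz]
  linear_combination (-bc t) * h1

private theorem fh_aux (K : ℕ) (c : ℕ → ℕ) (x q : ℚ)
    (h : ∀ l ∈ Finset.Icc 1 K, ∃ m : ℤ, q * ((l : ℚ) / (1 + (l : ℚ) * x)) = 9 * m) (t : ℕ) :
    ∃ z : ℤ, (z : ℚ) = q ^ t * coeff t (Fh ℚ K c x) := by
  have h1 : rescale q (Fh ℚ K c x) ∈ IS := by
    unfold Fh
    rw [map_prod]
    refine Subring.prod_mem _ fun l hl => ?_
    rw [map_pow]
    obtain ⟨m, hm⟩ := h l hl
    exact Subring.pow_mem _ (fac_mem hm) _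
  obtain ⟨z, hz⟩ := of_mem_IS h1 t
  exact ⟨z, by rw [hz, coeff_rescale]⟩

theorem fh_int0 (K : ℕ) (c : ℕ → ℕ) (t : ℕ) :
    ∃ z : ℤ, (z : ℚ) = 9 ^ t * coeff t (Fh ℚ K c 0) := by
  refine fh_aux K c 0 9 (fun l _ => ⟨l, ?_⟩) t
  simp

theorem fh_int (K : ℕ) (c : ℕ → ℕ) {n : ℕ} (hn : 0 < n) (t : ℕ) :
    ∃ z : ℤ, (z : ℚ) =
      (9 * ∏ l ∈ Finset.Icc 1 K, ((n : ℚ) + (l : ℚ))) ^ t * coeff t (Fh ℚ K c (1 / (n : ℚ))) := by
  refine fh_aux K c (1 / (n : ℚ)) _ (fun l hl => ?_) t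
  refine ⟨(l : ℤ) * n * ∏ l' ∈ (Finset.Icc 1 K).erase l, ((n : ℤ) + (l' : ℤ)), ?_⟩
  rw [← Finset.mul_prod_erase _ _ hl]
  push_cast
  have h1 : (n : ℚ) ≠ 0 := by positivity
  have h2 : (n : ℚ) + l ≠ 0 := by positivity
  have h3 : (l : ℚ) / (1 + (l : ℚ) * (1 / (n : ℚ))) = l * n / (n + l) := by
    field_simp
  rw [h3]
  field_simp

end Pool.Agent.FAC
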