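import Pool.Agent.FAC.BCoef

/-!
# FAC/FhODE: the differential equation of `Fh` (architect helper1)

For `a = l/(1+lx)`: `(1 + a X) (rescale a b)' = (a/3) rescale a b` (`bS_ode`; derivative of `rescale`: compare coefficients), so
`(1 + lx + l X) (rescale a b)' = (l/3) rescale a b`.  And `taylor x (1 + l X) = 1 + lx + l X`.  Leibniz for the product
`Fh = ∏ (rescale a_l b)^(c l)`: `τ(T) Fh' = ∑_l c_l (l/3) ∏_{l' ≠ l} (1 + l'x + l'X) Fh = τ(rho) Fh` (`Derivation.leibniz_pow`,
`Finset.prod` induction, or `Derivation.leibniz_prod`-type lemmas).  Induction on `K` also works: `TT (K+1) = TT K * (1 + (K+1) X)`,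
`rho (K+1) c = rho K c * (1 + (K+1) X) + C (c (K+1) (K+1)/3) * TT K`.
-/

namespace Pool.Agent.FAC

open PowerSeries

private theorem coeff_bS (k : Type*) [Field k] (t : ℕ) : coeff t (bS k) = ((bc t : ℚ) : k) := by
  unfold bS
  rw [coeff_mk]

/-- the differential equation of one factor -/
private theorem g_ode (k : Type*) [Field k] [CharZero k] (l u : k) (hu : u ≠ 0) :
    (C u + C l * (X : PowerSeries k)) * d⁄dX k (rescale (l / u) (bS k)) =
      C (l / 3) * rescale (l / u) (bS k) := by
  ext t
  have hrec : ((t : k) + 1) * ((bc (t + 1) : ℚ) : k) = (1 / 3 - (t : k)) * ((bc t : ℚ) : k) := by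
    have h := congrArg (fun q : ℚ => (q : k)) (bc_rec t)
    push_cast at h
    exact h
  have h1 : coeff t ((C u + C l * (X : PowerSeries k)) * d⁄dX k (rescale (l / u) (bS k))) =
      u * ((l / u) ^ (t + 1) * ((bc (t + 1) : ℚ) : k) * ((t : k) + 1)) +
        l * ((l / u) ^ t * ((bc t : ℚ) : k) * (t : k)) := by
    rw [add_mul, map_add, coeff_C_mul, coeff_derivative, coeff_rescale, coeff_bS]
    congr 1
    rw [mul_assoc, coeff_C_mul]
    cases t with
    | zero =>
      rw [coeff_zero_X_mul]
      simp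
    | succ t =>
      rw [coeff_succ_X_mul, coeff_derivative, coeff_rescale, coeff_bS]
      push_cast
      ring
  rw [h1, coeff_C_mul, coeff_rescale, coeff_bS]
  have hul : u * (l / u) = l := mul_div_cancel₀ l hu
  have h2 : u * ((l / u) ^ (t + 1) * ((bc (t + 1) : ℚ) : k) * ((t : k) + 1)) =
      l * ((l / u) ^ t) * (((t : k) + 1) * ((bc (t + 1) : ℚ) : k)) := by
    rw [pow_succ]
    calc u * ((l / u) ^ t * (l / u) * ((bc (t + 1) : ℚ) : k) * ((t : k) + 1))
        = (u * (l / u)) * ((l / u) ^ t) * (((t : k) + 1) * ((bc (t + 1) : ℚ) : k)) := by ring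
      _ = _ := by rw [hul]
  rw [h2, hrec]
  ring

private theorem g_pow_ode (k : Type*) [Field k] [CharZero k] (l u : k) (hu : u ≠ 0) (n : ℕ) :
    (C u + C l * (X : PowerSeries k)) * d⁄dX k (rescale (l / u) (bS k) ^ n) =
      C ((n : k) * l / 3) * rescale (l / u) (bS k) ^ n := by
  rw [Derivation.leibniz_pow]
  simp only [smul_eq_mul, nsmul_eq_mul]
  cases n with
  | zero => simp
  | succ n =>
    rw [Nat.add_sub_cancel]
    have h1 := g_ode k l u hu
    have hC : (C (((n + 1 : ℕ) : k) * l / 3) : PowerSeries k) =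
        ((n + 1 : ℕ) : PowerSeries k) * C (l / 3) := by
      rw [mul_div_assoc, map_mul, map_natCast]
    rw [hC]
    calc (C u + C l * (X : PowerSeries k)) * (((n + 1 : ℕ) : PowerSeries k) *
          ((rescale (l / u)) (bS k) ^ n * d⁄dX k ((rescale (l / u)) (bS k))))
        = ((n + 1 : ℕ) : PowerSeries k) * (rescale (l / u)) (bS k) ^ n *
          ((C u + C l * (X : PowerSeries k)) * d⁄dX k ((rescale (l / u)) (bS k))) := by ring
      _ = _ := by rw [h1]; ring

private theorem Fh_succ (k : Type*) [Field k] (K : ℕ) (c : ℕ → ℕ) (x : k) :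
    Fh k (K + 1) c x = Fh k K c x *
      (rescale (((K + 1 : ℕ) : k) / (1 + ((K + 1 : ℕ) : k) * x)) (bS k)) ^ (c (K + 1)) := by
  unfold Fh
  rw [Finset.prod_Icc_succ_top (by omega)]

private theorem TT_succ (k : Type*) [Field k] (K : ℕ) :
    TT k (K + 1) = TT k K * (1 + Polynomial.C ((K + 1 : ℕ) : k) * Polynomial.X) := by
  unfold TT
  rw [Finset.prod_Icc_succ_top (by omega)]

private theorem rho_succ (k : Type*) [Field k] (K : ℕ) (c : ℕ → ℕ) :
    rho k (K + 1) c = rho k K c * (1 + Polynomial.C ((K + 1 : ℕ) : k) * Polynomial.X) +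
      Polynomial.C ((c (K + 1) : k) * ((K + 1 : ℕ) : k) / 3) * TT k K := by
  unfold rho TT
  rw [Finset.sum_Icc_succ_top (by omega), Finset.sum_mul]
  congr 1
  · refine Finset.sum_congr rfl fun l hl => ?_
    rw [Finset.mem_Icc] at hl
    have e : (Finset.Icc 1 (K + 1)).erase l = insert (K + 1) ((Finset.Icc 1 K).erase l) := by
      ext v
      simp only [Finset.mem_erase, Finset.mem_Icc, Finset.mem_insert]
      omega
    rw [e, Finset.prod_insert]
    · ring
    · simp
  · have e : (Finset.Icc 1 (K + 1)).erase (K + 1) = Finset.Icc 1 K := by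
      ext v
      simp only [Finset.mem_erase, Finset.mem_Icc]
      omega
    rw [e]

private theorem taylor_lin (k : Type*) [Field k] (l x : k) :
    ((Polynomial.taylor x (1 + Polynomial.C l * Polynomial.X) : Polynomial k) : PowerSeries k) =
      C (1 + l * x) + C l * (X : PowerSeries k) := by
  rw [map_add, Polynomial.taylor_mul, Polynomial.taylor_one, Polynomial.taylor_C,
    Polynomial.taylor_X]
  push_cast
  rw [map_add, map_mul]
  ring

theorem fh_ode (k : Type*) [Field k] [CharZero k] (K : ℕ) (c : ℕ → ℕ) {x : k}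
    (hx : ∀ l ∈ Finset.Icc 1 K, 1 + (l : k) * x ≠ 0) :
    ((Polynomial.taylor x (TT k K) : Polynomial k) : PowerSeries k) * d⁄dX k (Fh k K c x) =
      ((Polynomial.taylor x (rho k K c) : Polynomial k) : PowerSeries k) * Fh k K c x := by
  induction K with
  | zero =>
    have h1 : Fh k 0 c x = 1 := by
      unfold Fh
      rfl
    have h2 : rho k 0 c = 0 := by
      unfold rho
      rfl
    rw [h1, h2, map_zero, Polynomial.coe_zero, zero_mul]
    have h3 : d⁄dX k (1 : PowerSeries k) = 0 := Derivation.map_one_eq_zero _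
    rw [h3, mul_zero]
  | succ K ih =>
    have ih' := ih (fun l hl => hx l (by
      rw [Finset.mem_Icc] at hl ⊢
      omega))
    have hu := hx (K + 1) (by
      rw [Finset.mem_Icc]
      omega)
    have hg := g_pow_ode k ((K + 1 : ℕ) : k) (1 + ((K + 1 : ℕ) : k) * x) hu (c (K + 1))
    rw [Fh_succ, TT_succ, rho_succ, Derivation.leibniz, map_add, Polynomial.taylor_mul,
      Polynomial.taylor_mul, Polynomial.taylor_mul, Polynomial.taylor_C]
    simp only [smul_eq_mul]
    push_cast
    have hl := taylor_lin k ((K + 1 : ℕ) : k) x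
    push_cast at hl hg ih' ⊢
    rw [hl]
    linear_combination ((Polynomial.taylor x (TT k K) : Polynomial k) : PowerSeries k) *
        Fh k K c x * hg +
      (C (1 + ((K : k) + 1) * x) + C ((K : k) + 1) * (X : PowerSeries k)) *
        ((rescale (((K : k) + 1) / (1 + ((K : k) + 1) * x))) (bS k) ^ c (K + 1)) * ih'

theorem fh_unit (k : Type*) [Field k] (K : ℕ) (c : ℕ → ℕ) (x : k) :
    IsUnit (Fh k K c x) := by
  rw [isUnit_iff_constantCoeff]
  have h : constantCoeff (Fh k K c x) = 1 := by
    unfold Fh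
    rw [map_prod]
    refine Finset.prod_eq_one fun l _ => ?_
    rw [map_pow, ← coeff_zero_eq_constantCoeff_apply, coeff_rescale, coeff_bS, pow_zero, one_mul]
    show ((1 : ℚ) : k) ^ c l = 1
    rw [Rat.cast_one, one_pow]
  rw [h]
  exact isUnit_one

end Pool.Agent.FAC
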