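import Pool.Agent.FAC.Local

/-!
# FAC/Final: summation over scales (architect helper1)

Let `f(N)` be the number of solutions `n ≤ N`.  For `N ≥ N₀` put `w = ⌈N/3003⌉`: `3000 w ≤ (3000/3003) N + 3000 ≤ 0.9995 N`, `N ≤ 3003 w`, so
`f(N) ≤ f(3000 w) + 50000 w^(4/5)` (`local_count`), `w ≤ N`.  With `C = max(N₀, 10^9)`: by strong induction `f(3000w) ≤ C (0.9995 N)^(4/5)` and
`(0.9995)^(4/5) ≤ 1 - 0.0003`, so `f(N) ≤ C N^(4/5) - 0.0003 C N^(4/5) + 50000 N^(4/5) ≤ C N^(4/5)`; for `N < N₀` `f(N) ≤ N ≤ N₀ ≤ C N^(4/5)`.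
-/

namespace Pool.Agent.FAC

theorem count_final : ∃ C : ℝ, 0 < C ∧ ∀ N : ℕ, 1 ≤ N →
    ({n : ℕ | 1 ≤ n ∧ n ≤ N ∧ Sol n}.ncard : ℝ) ≤ C * (N : ℝ) ^ ((4 : ℝ) / 5) := by
  classical
  obtain ⟨w₀, hw₀⟩ := local_count
  set N₀ : ℕ := 10 ^ 7 + 3003 * w₀ with hN₀
  set C : ℝ := (N₀ : ℝ) + 10 ^ 9 with hC
  have hC9 : (10 : ℝ) ^ 9 ≤ C := by
    have : (0 : ℝ) ≤ (N₀ : ℝ) := Nat.cast_nonneg _
    linarith
  refine ⟨C, by norm_num at hC9; linarith, ?_⟩
  have hset : ∀ N : ℕ, {n : ℕ | 1 ≤ n ∧ n ≤ N ∧ Sol n}.ncard = ((Finset.Icc 1 N).filter Sol).card := by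
    intro N
    rw [← Set.ncard_coe_finset]
    congr 1
    ext n
    constructor
    · rintro ⟨h1, h2, h3⟩
      exact Finset.mem_coe.2 (Finset.mem_filter.2 ⟨Finset.mem_Icc.2 ⟨h1, h2⟩, h3⟩)
    · intro h
      have h1 := Finset.mem_filter.1 (Finset.mem_coe.1 h)
      have h2 := Finset.mem_Icc.1 h1.1
      exact ⟨h2.1, h2.2, h1.2⟩
  intro N
  induction N using Nat.strong_induction_on with
  | _ N ih =>
    intro hN
    have hN1 : (1 : ℝ) ≤ N := by exact_mod_cast hN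
    have hNp : (1 : ℝ) ≤ (N : ℝ) ^ ((4 : ℝ) / 5) := Real.one_le_rpow hN1 (by norm_num)
    rcases lt_or_ge N N₀ with hlt | hge
    · rw [hset]
      have h1 : (((Finset.Icc 1 N).filter Sol).card : ℝ) ≤ N := by
        have := Finset.card_filter_le (Finset.Icc 1 N) Sol
        rw [Nat.card_Icc] at this
        have h2 : ((Finset.Icc 1 N).filter Sol).card ≤ N := by omega
        exact_mod_cast h2
      have h2 : (N : ℝ) ≤ C := by
        have : (N : ℝ) ≤ (N₀ : ℝ) := by exact_mod_cast hlt.le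
        have : (0 : ℝ) ≤ 10 ^ 9 := by positivity
        linarith
      have h3 : C ≤ C * (N : ℝ) ^ ((4 : ℝ) / 5) := by
        have : 0 ≤ C := by linarith
        nlinarith
      linarith
    · obtain ⟨w, hw⟩ : ∃ w : ℕ, w = (N + 3002) / 3003 := ⟨_, rfl⟩
      have hNw : N ≤ 3003 * w := by omega
      have hwN : 3003 * w ≤ N + 3002 := by omega
      have hN7 : 10 ^ 7 + 3003 * w₀ ≤ N := hge
      norm_num at hN7
      have hww₀ : w₀ ≤ w := by omega
      have hw1 : 1 ≤ w := by omega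
      have hlt : 3000 * w < N := by omega
      have h95 : (3000 * (w : ℝ)) ≤ (1 + (-0.0005)) * N := by
        have a1 : (3003 : ℝ) * w ≤ N + 3002 := by exact_mod_cast hwN
        have a2 : (10000000 : ℝ) + 3003 * w₀ ≤ N := by exact_mod_cast hN7
        have a3 : (0 : ℝ) ≤ (w₀ : ℝ) := Nat.cast_nonneg _
        nlinarith
      have ihw := ih (3000 * w) hlt (by omega)
      have hl := hw₀ w hww₀
      rw [hset] at ihw ⊢
      have hsub : (Finset.Icc 1 N).filter Sol ⊆ ((Finset.Icc 1 (3000 * w)).filter Sol) ∪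
          ((Finset.Icc (3000 * w) (3003 * w)).filter Sol) := by
        intro n hn
        have h1 := Finset.mem_filter.1 hn
        have h2 := Finset.mem_Icc.1 h1.1
        rcases le_total n (3000 * w) with h | h
        · exact Finset.mem_union_left _ (Finset.mem_filter.2 ⟨Finset.mem_Icc.2 ⟨h2.1, h⟩, h1.2⟩)
        · exact Finset.mem_union_right _
            (Finset.mem_filter.2 ⟨Finset.mem_Icc.2 ⟨h, h2.2.trans hNw⟩, h1.2⟩)
      have hcard : (((Finset.Icc 1 N).filter Sol).card : ℝ) ≤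
          (((Finset.Icc 1 (3000 * w)).filter Sol).card : ℝ) +
          (((Finset.Icc (3000 * w) (3003 * w)).filter Sol).card : ℝ) := by
        exact_mod_cast (Finset.card_le_card hsub).trans (Finset.card_union_le _ _)
      have hrp : ((3000 * w : ℕ) : ℝ) ^ ((4 : ℝ) / 5) ≤ (0.9996 : ℝ) * (N : ℝ) ^ ((4 : ℝ) / 5) := by
        have h1 : ((3000 * w : ℕ) : ℝ) ^ ((4 : ℝ) / 5) ≤ ((1 + (-0.0005)) * (N : ℝ)) ^ ((4 : ℝ) / 5) := by
          refine Real.rpow_le_rpow (Nat.cast_nonneg _) ?_ (by norm_num)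
          push_cast
          exact h95
        have h2 : ((1 + (-0.0005)) * (N : ℝ)) ^ ((4 : ℝ) / 5) =
            (1 + (-0.0005)) ^ ((4 : ℝ) / 5) * (N : ℝ) ^ ((4 : ℝ) / 5) :=
          Real.mul_rpow (by norm_num) (by linarith)
        have h3 : ((1 + (-0.0005)) : ℝ) ^ ((4 : ℝ) / 5) ≤ 1 + (4 : ℝ) / 5 * (-0.0005) :=
          rpow_one_add_le_one_add_mul_self (by norm_num) (by norm_num) (by norm_num)
        rw [h2] at h1
        refine h1.trans (mul_le_mul_of_nonneg_right (h3.trans (by norm_num)) (by linarith))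
      have hwp : (w : ℝ) ^ ((4 : ℝ) / 5) ≤ (N : ℝ) ^ ((4 : ℝ) / 5) := by
        refine Real.rpow_le_rpow (Nat.cast_nonneg _) ?_ (by norm_num)
        have : w ≤ N := by omega
        exact_mod_cast this
      have hC0 : 0 ≤ C := by norm_num at hC9; linarith
      have h1 : C * ((3000 * w : ℕ) : ℝ) ^ ((4 : ℝ) / 5) ≤
          C * ((0.9996 : ℝ) * (N : ℝ) ^ ((4 : ℝ) / 5)) := mul_le_mul_of_nonneg_left hrp hC0
      set y : ℝ := (N : ℝ) ^ ((4 : ℝ) / 5) with hy
      have h2 : 50000 * y ≤ C * (0.0004 * y) := by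
        have : (50000 : ℝ) ≤ C * 0.0004 := by norm_num at hC9; linarith
        nlinarith
      calc (((Finset.Icc 1 N).filter Sol).card : ℝ) ≤
          C * ((0.9996 : ℝ) * y) + 50000 * y := by linarith
        _ ≤ C * ((0.9996 : ℝ) * y) + C * (0.0004 * y) := by linarith
        _ = C * y := by ring

end Pool.Agent.FAC
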