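import Pool.Agent.FAC.FhInt

/-!
# FAC/SerInt: integrality of the rational series (architect helper1)

`coeff t (C μ_α * tp_α * Fh_α) = μ_α ∑_{i+j=t} [tp_α]_i [Fh_α]_j`.  Multiply by `n^(d+e) (9D)^t = n^e n^d (9D)^i (9D)^j`:
`n^e μ_α ∈ ℤ` (hypothesis), `n^d [tp_α]_i = ∑_l binom(l,i) a_l n^(d-(l-i)) ∈ ℤ` as `l ≤ d` (`Polynomial.taylor_coeff`,
`hasseDeriv`, `Polynomial.eval_eq_sum_range`), `(9D)^i ∈ ℤ`, `(9D)^j [Fh_α]_j ∈ ℤ` (`fh_int`).
-/

namespace Pool.Agent.FAC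

open PowerSeries

theorem tp_int {A : Polynomial ℤ} {d : ℕ} (hd : A.natDegree ≤ d) {n : ℕ} (hn : 0 < n) (i : ℕ) :
    ∃ z : ℤ, (z : ℚ) = (n : ℚ) ^ d * coeff i (tp ℚ A (1 / (n : ℚ))) := by
  set R : Subring ℚ := (Int.castRingHom ℚ).range with hR
  have hn' : (n : ℚ) ≠ 0 := by exact_mod_cast hn.ne'
  have key : (n : ℚ) ^ d * coeff i (tp ℚ A (1 / (n : ℚ))) ∈ R := by
    unfold tp
    rw [Polynomial.coeff_coe, Polynomial.taylor_coeff]
    have hdeg : (Polynomial.hasseDeriv i (A.map (Int.castRingHom ℚ))).natDegree < d + 1 := by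
      have h1 := Polynomial.natDegree_hasseDeriv_le (A.map (Int.castRingHom ℚ)) i
      have h2 := Polynomial.natDegree_map_le (f := Int.castRingHom ℚ) (p := A)
      omega
    rw [Polynomial.eval_eq_sum_range' hdeg, Finset.mul_sum]
    refine R.sum_mem fun m hm => ?_
    have hmd : m ≤ d := by
      have := Finset.mem_range.1 hm
      omega
    rw [Polynomial.hasseDeriv_coeff, Polynomial.coeff_map]
    have e : (n : ℚ) ^ d * (((m + i).choose i : ℚ) * (Int.castRingHom ℚ) (A.coeff (m + i)) *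
        (1 / (n : ℚ)) ^ m) = ((((m + i).choose i : ℤ) * A.coeff (m + i) * (n : ℤ) ^ (d - m) : ℤ) : ℚ) := by
      have h3 : (n : ℚ) ^ d = (n : ℚ) ^ (d - m) * (n : ℚ) ^ m := by
        rw [← pow_add]
        congr 1
        omega
      rw [h3, one_div, inv_pow]
      push_cast
      field_simp
      simp
    rw [e]
    exact ⟨_, rfl⟩
  obtain ⟨z, hz⟩ := key
  exact ⟨z, by simpa using hz⟩

theorem ser_int {ι : Type*} [Fintype ι] (K : ℕ) (c : ι → ℕ → ℕ) {A : ι → Polynomial ℤ} {d : ℕ}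
    (hd : ∀ α, (A α).natDegree ≤ d) {n : ℕ} (hn : 0 < n) {μ : ι → ℚ} {e : ℕ}
    (hμ : ∀ α, ∃ z : ℤ, (z : ℚ) = (n : ℚ) ^ e * μ α) (t : ℕ) :
    ∃ z : ℤ, (z : ℚ) = (n : ℚ) ^ (d + e) *
      (9 * ∏ l ∈ Finset.Icc 1 K, ((n : ℚ) + (l : ℚ))) ^ t *
        coeff t (Ser ℚ K c A μ (1 / (n : ℚ))) := by
  set R : Subring ℚ := (Int.castRingHom ℚ).range with hR
  have conv : ∀ q : ℚ, (∃ z : ℤ, (z : ℚ) = q) → q ∈ R := by
    rintro q ⟨z, hz⟩
    exact ⟨z, by simpa using hz⟩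
  set D : ℚ := 9 * ∏ l ∈ Finset.Icc 1 K, ((n : ℚ) + (l : ℚ)) with hD
  have hDR : D ∈ R := by
    apply conv
    refine ⟨9 * ∏ l ∈ Finset.Icc 1 K, ((n : ℤ) + (l : ℤ)), ?_⟩
    rw [hD]
    push_cast
    rfl
  have key : (n : ℚ) ^ (d + e) * D ^ t * coeff t (Ser ℚ K c A μ (1 / (n : ℚ))) ∈ R := by
    unfold Ser
    rw [map_sum, Finset.mul_sum]
    refine R.sum_mem fun α _ => ?_
    rw [mul_assoc (C (μ α)), coeff_C_mul, coeff_mul]
    have e1 : (n : ℚ) ^ (d + e) * D ^ t * (μ α * ∑ p ∈ Finset.HasAntidiagonal.antidiagonal t,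
        coeff p.1 (tp ℚ (A α) (1 / (n : ℚ))) * coeff p.2 (Fh ℚ K (c α) (1 / (n : ℚ)))) =
        ∑ p ∈ Finset.HasAntidiagonal.antidiagonal t, (((n : ℚ) ^ e * μ α) *
          ((n : ℚ) ^ d * coeff p.1 (tp ℚ (A α) (1 / (n : ℚ)))) * D ^ p.1 *
          (D ^ p.2 * coeff p.2 (Fh ℚ K (c α) (1 / (n : ℚ))))) := by
      rw [Finset.mul_sum, Finset.mul_sum]
      refine Finset.sum_congr rfl fun p hp => ?_
      have h1 : p.1 + p.2 = t := Finset.HasAntidiagonal.mem_antidiagonal.1 hp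
      rw [← h1, pow_add, pow_add]
      ring
    rw [e1]
    refine R.sum_mem fun p _ => ?_
    exact R.mul_mem (R.mul_mem (R.mul_mem (conv _ (hμ α)) (conv _ (tp_int (hd α) hn p.1)))
      (R.pow_mem hDR _)) (conv _ (fh_int K (c α) hn p.2))
  obtain ⟨z, hz⟩ := key
  exact ⟨z, by simpa using hz⟩

end Pool.Agent.FAC
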