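import Pool.Agent.FAC.YRel
import Pool.Agent.FAC.Expand
import Pool.Agent.FAC.SerInt

/-!
# FAC/Forced: the Taylor coefficients of the rational series vanish (architect helper1)

Let `μ_α = m_{α₁} m_{α₂} / n^(h_{α₁}+h_{α₂}) ∈ ℚ`, `e = K`; `n^K μ_α ∈ ℤ` as `h_i + h_j ≤ K` (`3 h_i ≤ K`).  By `ser_int`,
`I = n^(d+K) (9D)^t coeff t (Ser ℚ K (cc h) A μ (1/n))` is an integer, `D = ∏ (n+l) ≤ (2n)^K` (`l ≤ K ≤ n`).  By `ser_cast`, `mu_eq` and
`coef_est` (`Y = Yn n > 0`), `|I| ≤ n^(d+K) (9 (2n)^K)^t · (bound) < 1`, so `I = 0` and the coefficient is `0`.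
-/

namespace Pool.Agent.FAC

open PowerSeries

theorem forced {K N b d M₀ M₁ n : ℕ} {h : Fin 4 → ℕ} (hp : Pat K h)
    {A : Idx → Polynomial ℤ} (hA : Aux K N b d M₀ M₁ h A) (hM : M₁ ≤ M₀) (hK : 1 ≤ K)
    (hN : 2 * K ≤ N) (hn : N ≤ n) {m : Fin 4 → ℕ} (hm : ∀ i, 0 < m i)
    (hs : ∀ i, (n + 3 * h i).factorial = (m i - 1) * m i * (m i + 1))
    {t : ℕ} (ht : t ≤ M₁)
    (hnum : (n : ℝ) ^ (d + K) * (9 * (2 * (n : ℝ)) ^ K) ^ t *
        (Yn n * Zf N b K M₀ n t + 4 * Zf N b K M₁ n t +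
          10 * (Yn n)⁻¹ * (((t : ℝ) + 1) * 2 ^ (d + 1) * 8 ^ K * (n : ℝ) ^ t)) < 1) :
    coeff t (Ser ℚ K (cc h) A
      (fun α => ((m α.1.1 : ℚ) * (m α.1.2 : ℚ)) / (n : ℚ) ^ (h α.1.1 + h α.1.2))
        (1 / (n : ℚ))) = 0 := by
  have hn0 : 0 < n := by omega
  have hnQ : (n : ℚ) ≠ 0 := by exact_mod_cast hn0.ne'
  have hnR : (0 : ℝ) < n := by exact_mod_cast hn0
  set μ : Idx → ℚ := fun α => ((m α.1.1 : ℚ) * (m α.1.2 : ℚ)) / (n : ℚ) ^ (h α.1.1 + h α.1.2) with hμdef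
  have hle : ∀ i j : Fin 4, h i + h j ≤ K := by
    intro i j
    have h1 := hp.le i
    have h2 := hp.le j
    omega
  have hμ : ∀ α, ∃ z : ℤ, (z : ℚ) = (n : ℚ) ^ K * μ α := by
    intro α
    refine ⟨(m α.1.1 : ℤ) * m α.1.2 * (n : ℤ) ^ (K - (h α.1.1 + h α.1.2)), ?_⟩
    rw [hμdef]
    push_cast
    rw [mul_div_assoc', eq_div_iff (pow_ne_zero _ hnQ)]
    have : (n : ℚ) ^ K = (n : ℚ) ^ (K - (h α.1.1 + h α.1.2)) * (n : ℚ) ^ (h α.1.1 + h α.1.2) := by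
      rw [← pow_add, Nat.sub_add_cancel (hle _ _)]
    rw [this]
    ring
  obtain ⟨z, hz⟩ := ser_int K (cc h) hA.deg hn0 hμ t
  obtain ⟨ε, hε0, hεY, hμε⟩ := mu_eq hp hn0 hm hs
  have hY : 0 < Yn n := by
    unfold Yn
    have : (0 : ℝ) < n.factorial := by exact_mod_cast n.factorial_pos
    positivity
  have hest := coef_est hA hM hK hN hn hY hε0 hεY ht
  have hcast := ser_cast K (cc h) A μ (1 / (n : ℚ)) t
  have hμc : (fun α => ((μ α : ℚ) : ℝ)) =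
      fun α : Idx => Yn n * ((1 + ε α.1.1) * (1 + ε α.1.2)) * Fv K (cc h α) (1 / (n : ℝ)) := by
    funext α
    rw [← hμε α, hμdef]
    push_cast
    ring
  have hxc : ((1 / (n : ℚ) : ℚ) : ℝ) = 1 / (n : ℝ) := by push_cast; ring
  rw [hμc, hxc] at hcast
  rw [← hcast] at hest
  set cq : ℚ := coeff t (Ser ℚ K (cc h) A μ (1 / (n : ℚ))) with hcq
  have hD : ∏ l ∈ Finset.Icc 1 K, ((n : ℝ) + (l : ℝ)) ≤ (2 * (n : ℝ)) ^ K := by
    have h1 : ∏ l ∈ Finset.Icc 1 K, ((n : ℝ) + (l : ℝ)) ≤ ∏ l ∈ Finset.Icc 1 K, (2 * (n : ℝ)) := by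
      refine Finset.prod_le_prod (fun l _ => by positivity) fun l hl => ?_
      have h2 : (l : ℝ) ≤ n := by
        have := (Finset.mem_Icc.mp hl).2
        exact_mod_cast (by omega : l ≤ n)
      linarith
    rw [Finset.prod_const, Nat.card_Icc, Nat.add_sub_cancel] at h1
    exact h1
  have hD0 : (0 : ℝ) < ∏ l ∈ Finset.Icc 1 K, ((n : ℝ) + (l : ℝ)) :=
    Finset.prod_pos fun l _ => by positivity
  have hzR : (z : ℝ) = (n : ℝ) ^ (d + K) *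
      (9 * ∏ l ∈ Finset.Icc 1 K, ((n : ℝ) + (l : ℝ))) ^ t * (cq : ℝ) := by
    have h1 := congrArg (fun q : ℚ => (q : ℝ)) hz
    push_cast at h1
    exact h1
  have habs : |(z : ℝ)| < 1 := by
    rw [hzR, abs_mul, abs_of_nonneg (by positivity)]
    refine lt_of_le_of_lt ?_ hnum
    refine mul_le_mul ?_ hest (abs_nonneg _) (by positivity)
    refine mul_le_mul_of_nonneg_left ?_ (by positivity)
    exact pow_le_pow_left₀ (by positivity) (by linarith) t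
  have hz0 : z = 0 := by
    have : |z| < 1 := by exact_mod_cast habs
    exact Int.abs_lt_one_iff.mp this
  rw [hz0] at hz
  have h3 : (n : ℚ) ^ (d + K) * (9 * ∏ l ∈ Finset.Icc 1 K, ((n : ℚ) + (l : ℚ))) ^ t ≠ 0 := by
    have : (0 : ℚ) < n := by exact_mod_cast hn0
    have h4 : (0 : ℚ) < ∏ l ∈ Finset.Icc 1 K, ((n : ℚ) + (l : ℚ)) :=
      Finset.prod_pos fun l _ => by positivity
    positivity
  rw [Int.cast_zero] at hz
  exact (mul_eq_zero.mp hz.symm).resolve_left h3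

end Pool.Agent.FAC
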