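import Pool.Agent.FAC.Defs

/-!
# FAC/Jet: closure properties of jets (architect helper1)

`IsJetAt J x` says that for all `t` the function `y ↦ coeff t (J y)` has derivative `(t+1) coeff (t+1) (J x) =
coeff t (d/dX (J x))` at `x` (`PowerSeries.coeff_derivative`).  Hence for a product
`coeff t (J₁ J₂) = ∑_{i+j=t} coeff i J₁ coeff j J₂` (`PowerSeries.coeff_mul`) has derivative
`coeff t (J₁' J₂ + J₁ J₂') = coeff t ((J₁ J₂)')` (`HasDerivAt.fun_sum`, `Derivation.leibniz`).
-/

namespace Pool.Agent.FAC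

open PowerSeries

theorem isJetAt_iff (J : ℝ → PowerSeries ℝ) (x : ℝ) : IsJetAt J x ↔
    ∀ t : ℕ, HasDerivAt (fun y => coeff t (J y)) (coeff t (derivative ℝ (J x))) x := by
  unfold IsJetAt
  refine forall_congr' fun t => ?_
  rw [coeff_derivative, mul_comm]

theorem IsJetAt.const (a : ℝ) (x : ℝ) : IsJetAt (fun _ => C a) x := by
  intro t
  have h : coeff (t + 1) (C a : PowerSeries ℝ) = 0 := by
    rw [coeff_C]; simp
  rw [h, mul_zero]
  exact hasDerivAt_const _ _

theorem IsJetAt.add {J₁ J₂ : ℝ → PowerSeries ℝ} {x : ℝ} (h₁ : IsJetAt J₁ x)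
    (h₂ : IsJetAt J₂ x) : IsJetAt (fun y => J₁ y + J₂ y) x := by
  intro t
  have := (h₁ t).add (h₂ t)
  simp only [map_add, mul_add]
  exact this

theorem IsJetAt.mul {J₁ J₂ : ℝ → PowerSeries ℝ} {x : ℝ} (h₁ : IsJetAt J₁ x)
    (h₂ : IsJetAt J₂ x) : IsJetAt (fun y => J₁ y * J₂ y) x := by
  rw [isJetAt_iff] at h₁ h₂ ⊢
  intro t
  simp only [Derivation.leibniz, smul_eq_mul, map_add, coeff_mul]
  have h : ∑ p ∈ Finset.HasAntidiagonal.antidiagonal t, coeff p.1 (J₁ x) * coeff p.2 (derivative ℝ (J₂ x)) +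
      ∑ p ∈ Finset.HasAntidiagonal.antidiagonal t, coeff p.1 (J₂ x) * coeff p.2 (derivative ℝ (J₁ x)) =
      ∑ p ∈ Finset.HasAntidiagonal.antidiagonal t, (coeff p.1 (derivative ℝ (J₁ x)) * coeff p.2 (J₂ x) +
        coeff p.1 (J₁ x) * coeff p.2 (derivative ℝ (J₂ x))) := by
    rw [Finset.sum_add_distrib, add_comm]
    congr 1
    rw [← Finset.Nat.sum_antidiagonal_swap]
    refine Finset.sum_congr rfl fun p _ => ?_
    simp [mul_comm]
  rw [h]
  exact HasDerivAt.fun_sum fun p _ => (h₁ p.1).mul (h₂ p.2)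

theorem IsJetAt.sum {σ : Type*} (s : Finset σ) {J : σ → ℝ → PowerSeries ℝ} {x : ℝ}
    (h : ∀ i ∈ s, IsJetAt (J i) x) : IsJetAt (fun y => ∑ i ∈ s, J i y) x := by
  classical
  induction s using Finset.induction_on with
  | empty => simpa using IsJetAt.const 0 x
  | insert a s ha ih =>
    simp only [Finset.sum_insert ha]
    exact (h a (Finset.mem_insert_self _ _)).add (ih fun i hi => h i (Finset.mem_insert_of_mem hi))

theorem IsJetAt.prod {σ : Type*} (s : Finset σ) {J : σ → ℝ → PowerSeries ℝ} {x : ℝ}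
    (h : ∀ i ∈ s, IsJetAt (J i) x) : IsJetAt (fun y => ∏ i ∈ s, J i y) x := by
  classical
  induction s using Finset.induction_on with
  | empty => simpa using IsJetAt.const 1 x
  | insert a s ha ih =>
    simp only [Finset.prod_insert ha]
    exact (h a (Finset.mem_insert_self _ _)).mul (ih fun i hi => h i (Finset.mem_insert_of_mem hi))

theorem IsJetAt.pow {J : ℝ → PowerSeries ℝ} {x : ℝ} (h : IsJetAt J x) (m : ℕ) :
    IsJetAt (fun y => J y ^ m) x := by
  induction m with
  | zero => simpa using IsJetAt.const 1 x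
  | succ m ih =>
    simp only [pow_succ]
    exact ih.mul h

end Pool.Agent.FAC
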