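import Pool.Agent.FAC.BCoef

/-!
# FAC/JetBeta: the jet of `(1 + l x)^(1/3)` (architect helper1)

`coeff t = (1+ly)^(1/3) (l/(1+ly))^t b_t = l^t b_t (1+ly)^(1/3 - t)` near `x ≥ 0` (there `1 + ly > 0`); its derivative is
`l^t b_t (1/3 - t) l (1+lx)^(1/3 - t - 1) = (t+1) b_{t+1} l^(t+1) (1+lx)^(1/3-(t+1))` (`bc_rec` cast to `ℝ`; `PowerSeries.coeff_C_mul`,
`PowerSeries.coeff_rescale`, `Real.rpow_sub_nat`, `HasDerivAt.rpow_const`; use `HasDerivAt.congr_of_eventuallyEq`, or directly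
differentiate the product of `(1+ly)^(1/3)` and `(l/(1+ly))^t`).
-/

namespace Pool.Agent.FAC

open PowerSeries

theorem isJetAt_beta (l : ℕ) {x : ℝ} (hx : 0 ≤ x) :
    IsJetAt (fun y => C ((1 + (l : ℝ) * y) ^ ((1 : ℝ) / 3)) *
      rescale ((l : ℝ) / (1 + (l : ℝ) * y)) (bS ℝ)) x := by
  intro t
  have hw0 : 0 < 1 + (l : ℝ) * x := by positivity
  have hw : HasDerivAt (fun y : ℝ => 1 + (l : ℝ) * y) (l : ℝ) x := by
    simpa using ((hasDerivAt_id x).const_mul (l : ℝ)).const_add 1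
  have hc : HasDerivAt (fun y : ℝ => (1 + (l : ℝ) * y) ^ ((1 : ℝ) / 3))
      ((1 / 3) * ((l : ℝ) / (1 + (l : ℝ) * x)) * (1 + (l : ℝ) * x) ^ ((1 : ℝ) / 3)) x := by
    have h := hw.rpow_const (p := (1 : ℝ) / 3) (Or.inl hw0.ne')
    refine h.congr_deriv ?_
    rw [Real.rpow_sub_one hw0.ne']
    field_simp
  have hr : HasDerivAt (fun y : ℝ => (l : ℝ) / (1 + (l : ℝ) * y))
      (-((l : ℝ) / (1 + (l : ℝ) * x)) ^ 2) x := by
    have h := (hasDerivAt_const x (l : ℝ)).div hw hw0.ne'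
    refine h.congr_deriv ?_
    field_simp
    ring
  have hrt : HasDerivAt (fun y : ℝ => ((l : ℝ) / (1 + (l : ℝ) * y)) ^ t)
      (-((t : ℝ) * ((l : ℝ) / (1 + (l : ℝ) * x)) ^ (t + 1))) x := by
    cases t with
    | zero => simpa using hasDerivAt_const x (1 : ℝ)
    | succ s =>
      have h := hr.fun_pow (s + 1)
      refine h.congr_deriv ?_
      simp only [Nat.add_sub_cancel]
      push_cast
      ring
  have hb : ((t : ℝ) + 1) * ((bc (t + 1) : ℚ) : ℝ) = (1 / 3 - (t : ℝ)) * ((bc t : ℚ) : ℝ) := by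
    have := congrArg (fun q : ℚ => (q : ℝ)) (bc_rec t)
    push_cast at this
    exact this
  have hco : ∀ (s : ℕ) (y : ℝ), coeff s (C ((1 + (l : ℝ) * y) ^ ((1 : ℝ) / 3)) *
      rescale ((l : ℝ) / (1 + (l : ℝ) * y)) (bS ℝ)) =
      (1 + (l : ℝ) * y) ^ ((1 : ℝ) / 3) * (((l : ℝ) / (1 + (l : ℝ) * y)) ^ s *
        ((bc s : ℚ) : ℝ)) := by
    intro s y
    rw [coeff_C_mul, coeff_rescale, bS, coeff_mk]
  simp only [hco]
  have h := hc.fun_mul (hrt.mul_const ((bc t : ℚ) : ℝ))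
  refine h.congr_deriv ?_
  have e : ((t : ℝ) + 1) * ((1 + (l : ℝ) * x) ^ ((1 : ℝ) / 3) *
      (((l : ℝ) / (1 + (l : ℝ) * x)) ^ (t + 1) * ((bc (t + 1) : ℚ) : ℝ))) =
      (1 + (l : ℝ) * x) ^ ((1 : ℝ) / 3) * ((l : ℝ) / (1 + (l : ℝ) * x)) ^ (t + 1) *
        (((t : ℝ) + 1) * ((bc (t + 1) : ℚ) : ℝ)) := by ring
  rw [e, hb]
  ring

end Pool.Agent.FAC
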