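import Pool.Agent.FAC.Defs

/-!
# FAC/JetPoly: Taylor expansions of polynomials are jets (architect helper1)

`coeff t (tp ℝ A y) = (hasseDeriv t A_ℝ).eval y` (`Polynomial.taylor_coeff`, `Polynomial.coeff_coe`), whose derivative is
`(derivative (hasseDeriv t A_ℝ)).eval y = (t+1) (hasseDeriv (t+1) A_ℝ).eval y` (compare coefficients; or
`Polynomial.hasseDeriv_comp`: `hasseDeriv 1 ∘ hasseDeriv t = (t+1) hasseDeriv (t+1)`, `Polynomial.hasseDeriv_one`).
-/

namespace Pool.Agent.FAC

open PowerSeries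

theorem isJetAt_tp (A : Polynomial ℤ) (x : ℝ) : IsJetAt (fun y => tp ℝ A y) x := by
  intro t
  have e : ∀ (y : ℝ) (s : ℕ), PowerSeries.coeff s (tp ℝ A y) =
      (Polynomial.hasseDeriv s (A.map (Int.castRingHom ℝ))).eval y := by
    intro y s
    unfold tp
    rw [Polynomial.coeff_coe, Polynomial.taylor_coeff]
  have e2 : Polynomial.derivative (Polynomial.hasseDeriv t (A.map (Int.castRingHom ℝ))) =
      (t + 1) • Polynomial.hasseDeriv (t + 1) (A.map (Int.castRingHom ℝ)) := by
    have h1 := Polynomial.hasseDeriv_comp (R := ℝ) 1 t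
    have h2 := LinearMap.congr_fun h1 (A.map (Int.castRingHom ℝ))
    rw [LinearMap.comp_apply, Polynomial.hasseDeriv_one] at h2
    rw [h2, LinearMap.smul_apply, Nat.choose_one_right, add_comm 1 t]
  have h3 := (Polynomial.hasseDeriv t (A.map (Int.castRingHom ℝ))).hasDerivAt x
  rw [e2] at h3
  have h4 : ((t : ℝ) + 1) * PowerSeries.coeff (t + 1) (tp ℝ A x) =
      Polynomial.eval x ((t + 1) • Polynomial.hasseDeriv (t + 1) (A.map (Int.castRingHom ℝ))) := by
    rw [e, nsmul_eq_mul, Polynomial.eval_mul, Polynomial.eval_natCast]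
    push_cast
    ring
  show HasDerivAt (fun y => PowerSeries.coeff t (tp ℝ A y))
    (((t : ℝ) + 1) * PowerSeries.coeff (t + 1) (tp ℝ A x)) x
  rw [h4]
  have h5 : (fun y => PowerSeries.coeff t (tp ℝ A y)) =
      fun y => (Polynomial.hasseDeriv t (A.map (Int.castRingHom ℝ))).eval y := by
    funext y
    exact e y t
  rw [h5]
  exact h3

end Pool.Agent.FAC
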