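import Pool.Agent.FAC.Jet
import Pool.Agent.FAC.JetPoly
import Pool.Agent.FAC.JetBeta

/-!
# FAC/JetSer: the approximation forms are jets (architect helper1)

`Jv K c A v y = ∑_α C (v_α) * tp ℝ (A_α) y * ∏_l (C ((1+ly)^(1/3)) * rescale (l/(1+ly)) b)^(c_α l)`: move the constant
`C (Fv K (c α) y) = ∏_l C ((1+ly)^(1/3))^(c_α l)` into the product `Fh` (`map_mul`, `map_prod`, `map_pow`, `Finset.prod_mul_distrib`,
`mul_pow`), then apply `IsJetAt.sum`, `.mul`, `.const`, `isJetAt_tp`, `.prod`, `.pow`, `isJetAt_beta`.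
-/

namespace Pool.Agent.FAC

open PowerSeries

theorem isJetAt_Jv {ι : Type*} [Fintype ι] (K : ℕ) (c : ι → ℕ → ℕ) (A : ι → Polynomial ℤ)
    (v : ι → ℝ) {x : ℝ} (hx : 0 ≤ x) : IsJetAt (Jv K c A v) x := by
  have he : Jv K c A v = fun y => ∑ α, C (v α) * tp ℝ (A α) y *
      ∏ l ∈ Finset.Icc 1 K, (C ((1 + (l : ℝ) * y) ^ ((1 : ℝ) / 3)) *
        rescale ((l : ℝ) / (1 + (l : ℝ) * y)) (bS ℝ)) ^ c α l := by
    funext y
    unfold Jv Ser
    refine Finset.sum_congr rfl fun α _ => ?_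
    unfold Fh Fv
    rw [map_mul, map_prod]
    simp only [mul_pow, map_pow]
    rw [Finset.prod_mul_distrib]
    ring
  rw [he]
  exact IsJetAt.sum Finset.univ fun α _ => ((IsJetAt.const (v α) x).mul (isJetAt_tp (A α) x)).mul
    (IsJetAt.prod (Finset.Icc 1 K) fun l _ => (isJetAt_beta l hx).pow (c α l))

end Pool.Agent.FAC
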