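import Pool.Agent.FAC.Defs

/-!
# FAC/PatCount: counting by patterns (architect helper1)

Let `S ⊆ [a, a+L]`.  Call `n ∈ S` good if there is a pattern `h` (`Pat K h`) with `n + 3 h_i ∈ S` for all `i`.
* `bad_count`: cut `[a, a+L]` into at most `L/K + 1` windows of `K` consecutive integers.  In each window and each residue class
  modulo 3 there are at most 3 bad elements: if there were 4 elements `n₀ < n₁ < n₂ < n₃` of `S` there with `n₀` bad, then
  `h_i = (n_i - n₀)/3` would be a pattern (`n_i - n₀ ≤ K - 1`).  So at most `9 (L/K + 1)` bad elements.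
* `pattern_count`: every good element belongs to `S_h = {n ∈ S | ∀ i, n + 3 h_i ∈ S}` for some pattern; the patterns are determined by
  `(h 1, h 2, h 3) ∈ {0..K-1}^3` (`3 h_i ≤ K`, so `h_i < K` as `K ≥ 1`), so there are at most `K^3`, and each `S_h` has at most `J` elements.
-/

namespace Pool.Agent.FAC

private theorem div_window {x y K : ℕ} (hK : 1 ≤ K) (h : x / K = y / K) : y ≤ x + (K - 1) := by
  have h1 := Nat.div_add_mod x K
  have h2 := Nat.div_add_mod y K
  have h3 := Nat.mod_lt y (show 0 < K by omega)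
  rw [← h] at h2
  omega

theorem bad_count (S : Finset ℕ) {a L K : ℕ} (hK : 1 ≤ K) (hS : S ⊆ Finset.Icc a (a + L))
    (T : Finset ℕ) (hT : T ⊆ S)
    (hbad : ∀ n ∈ T, ¬ ∃ h : Fin 4 → ℕ, Pat K h ∧ ∀ i, n + 3 * h i ∈ S) :
    T.card ≤ 9 * (L / K + 1) := by
  classical
  have hmaps : ∀ n ∈ T, ((n - a) / K, n % 3) ∈
      (Finset.range (L / K + 1)) ×ˢ (Finset.range 3) := by
    intro n hn
    have h1 := Finset.mem_Icc.1 (hS (hT hn))
    rw [Finset.mem_product, Finset.mem_range, Finset.mem_range]
    refine ⟨?_, Nat.mod_lt _ (by norm_num)⟩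
    have h2 : (n - a) / K ≤ L / K := Nat.div_le_div_right (by omega)
    change (n - a) / K < L / K + 1
    omega
  have hfib : ∀ b ∈ (Finset.range (L / K + 1)) ×ˢ (Finset.range 3),
      (T.filter (fun n => ((n - a) / K, n % 3) = b)).card ≤ 3 := by
    intro b _
    by_contra hlt
    push Not at hlt
    obtain ⟨G, hG, hG4⟩ := Finset.exists_subset_card_eq (n := 4) (by omega :
      4 ≤ (T.filter (fun n => ((n - a) / K, n % 3) = b)).card)
    let e := G.orderEmbOfFin hG4
    have heT : ∀ i, e i ∈ T ∧ ((e i - a) / K, e i % 3) = b := by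
      intro i
      have := hG (G.orderEmbOfFin_mem hG4 i)
      rw [Finset.mem_filter] at this
      exact this
    have he0 : ∀ i, e 0 ≤ e i := fun i => e.monotone (Fin.zero_le i)
    have hea : ∀ i, a ≤ e i := fun i => (Finset.mem_Icc.1 (hS (hT (heT i).1))).1
    have hmod : ∀ i, e i % 3 = e 0 % 3 := by
      intro i
      have h1 := (heT i).2
      rw [← (heT 0).2, Prod.mk.injEq] at h1
      exact h1.2
    have hwin : ∀ i, e i ≤ e 0 + (K - 1) := by
      intro i
      have h1 := (heT i).2
      rw [← (heT 0).2, Prod.mk.injEq] at h1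
      have h2 := div_window hK h1.1.symm
      have h3 := hea i
      have h4 := hea 0
      omega
    have h3h : ∀ i, 3 * ((e i - e 0) / 3) = e i - e 0 := by
      intro i
      have h1 := hmod i
      have h2 := he0 i
      omega
    refine hbad (e 0) (heT 0).1 ⟨fun i => (e i - e 0) / 3, ⟨?_, ?_, ?_⟩, ?_⟩
    · simp
    · intro i j hij
      have h1 : e i < e j := e.strictMono hij
      have h2 := h3h i
      have h3 := h3h j
      have h4 := he0 i
      change (e i - e 0) / 3 < (e j - e 0) / 3
      omega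
    · intro i
      have h2 := h3h i
      have h3 := hwin i
      change 3 * ((e i - e 0) / 3) ≤ K
      omega
    · intro i
      have h2 := h3h i
      have h4 := he0 i
      have h5 : e 0 + 3 * ((e i - e 0) / 3) = e i := by omega
      change e 0 + 3 * ((e i - e 0) / 3) ∈ S
      rw [h5]
      exact hT (heT i).1
  have h := Finset.card_le_mul_card_image_of_maps_to hmaps 3 hfib
  rw [Finset.card_product, Finset.card_range, Finset.card_range] at h
  omega

private theorem pat_eq {K : ℕ} {h : Fin 4 → ℕ} (hp : Pat K h) : h = ![0, h 1, h 2, h 3] := by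
  funext i
  fin_cases i
  · exact hp.zero
  · rfl
  · rfl
  · rfl

theorem pattern_count (S : Finset ℕ) {a L K J : ℕ} (hK : 1 ≤ K)
    (hS : S ⊆ Finset.Icc a (a + L))
    (hJ : ∀ h : Fin 4 → ℕ, Pat K h → ∀ B ⊆ S, (∀ n ∈ B, ∀ i, n + 3 * h i ∈ S) → B.card ≤ J) :
    S.card ≤ 9 * (L / K + 1) + K ^ 3 * J := by
  classical
  have h1 := Finset.card_filter_add_card_filter_not (s := S)
    (fun n => ∃ h : Fin 4 → ℕ, Pat K h ∧ ∀ i, n + 3 * h i ∈ S)
  have h2 := bad_count S hK hS
    (S.filter (fun n => ¬ ∃ h : Fin 4 → ℕ, Pat K h ∧ ∀ i, n + 3 * h i ∈ S))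
    (Finset.filter_subset _ _) (fun n hn => (Finset.mem_filter.1 hn).2)
  have h3 : (S.filter (fun n => ∃ h : Fin 4 → ℕ, Pat K h ∧ ∀ i, n + 3 * h i ∈ S)).card ≤
      K ^ 3 * J := by
    set I : Finset (ℕ × ℕ × ℕ) := (Finset.range K) ×ˢ ((Finset.range K) ×ˢ (Finset.range K))
      with hI
    let B : ℕ × ℕ × ℕ → Finset ℕ := fun x =>
      S.filter (fun n => Pat K ![0, x.1, x.2.1, x.2.2] ∧
        ∀ i, n + 3 * (![0, x.1, x.2.1, x.2.2] : Fin 4 → ℕ) i ∈ S)
    have hsub : S.filter (fun n => ∃ h : Fin 4 → ℕ, Pat K h ∧ ∀ i, n + 3 * h i ∈ S) ⊆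
        I.biUnion B := by
      intro n hn
      obtain ⟨hnS, h, hp, hh⟩ := Finset.mem_filter.1 hn
      rw [Finset.mem_biUnion]
      have hlt : ∀ i, h i < K := by
        intro i
        have := hp.le i
        omega
      refine ⟨(h 1, h 2, h 3), ?_, ?_⟩
      · rw [hI, Finset.mem_product, Finset.mem_product, Finset.mem_range, Finset.mem_range,
          Finset.mem_range]
        exact ⟨hlt 1, hlt 2, hlt 3⟩
      · refine Finset.mem_filter.2 ⟨hnS, ?_⟩
        have he := pat_eq hp
        change Pat K ![0, h 1, h 2, h 3] ∧ ∀ i, n + 3 * (![0, h 1, h 2, h 3] : Fin 4 → ℕ) i ∈ S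
        rw [← he]
        exact ⟨hp, hh⟩
    have hB : ∀ x ∈ I, (B x).card ≤ J := by
      intro x _
      by_cases hp : Pat K ![0, x.1, x.2.1, x.2.2]
      · exact hJ _ hp (B x) (Finset.filter_subset _ _)
          (fun n hn => (Finset.mem_filter.1 hn).2.2)
      · have : B x = ∅ := by
          apply Finset.filter_eq_empty_iff.2
          intro n _ h
          exact hp h.1
        rw [this]
        simp
    refine (Finset.card_le_card hsub).trans ((Finset.card_biUnion_le_card_mul I B J hB).trans ?_)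
    rw [hI, Finset.card_product, Finset.card_product, Finset.card_range]
    apply le_of_eq
    ring
  omega

end Pool.Agent.FAC
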