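import Pool.Agent.FAC.Defs

/-!
# FAC/MapSer: rational series as real series (architect helper1)

`PowerSeries.map (algebraMap ℚ ℝ)` maps `bS ℚ` to `bS ℝ` (coefficients), `rescale a f` to `rescale (a : ℝ) (map f)`, products to
products, `tp ℚ A x` to `tp ℝ A (x : ℝ)` (`Polynomial.map_taylor`, `Polynomial.map_map`; or compare coefficients with
`Polynomial.taylor_coeff`), hence `Ser`.
-/

namespace Pool.Agent.FAC

open PowerSeries

private theorem map_bS : PowerSeries.map (algebraMap ℚ ℝ) (bS ℚ) = bS ℝ := by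
  ext t
  rw [coeff_map]
  unfold bS
  rw [coeff_mk, coeff_mk]
  simp

private theorem map_rescale (a : ℚ) (f : PowerSeries ℚ) :
    PowerSeries.map (algebraMap ℚ ℝ) (PowerSeries.rescale a f) =
      PowerSeries.rescale (a : ℝ) (PowerSeries.map (algebraMap ℚ ℝ) f) := by
  ext t
  rw [coeff_map, coeff_rescale, coeff_rescale, coeff_map, map_mul, map_pow]
  rfl

private theorem map_Fh (K : ℕ) (c : ℕ → ℕ) (x : ℚ) :
    PowerSeries.map (algebraMap ℚ ℝ) (Fh ℚ K c x) = Fh ℝ K c (x : ℝ) := by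
  unfold Fh
  rw [map_prod]
  refine Finset.prod_congr rfl fun l _ => ?_
  rw [map_pow, map_rescale, map_bS]
  push_cast
  rfl

private theorem map_tp (A : Polynomial ℤ) (x : ℚ) :
    PowerSeries.map (algebraMap ℚ ℝ) (tp ℚ A x) = tp ℝ A (x : ℝ) := by
  unfold tp
  rw [← Polynomial.polynomial_map_coe, Polynomial.map_taylor, Polynomial.map_map]
  have : (algebraMap ℚ ℝ).comp (Int.castRingHom ℚ) = Int.castRingHom ℝ := RingHom.ext_int _ _
  rw [this]
  rfl

private theorem map_Ser {ι : Type*} [Fintype ι] (K : ℕ) (c : ι → ℕ → ℕ) (A : ι → Polynomial ℤ)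
    (v : ι → ℚ) (x : ℚ) :
    PowerSeries.map (algebraMap ℚ ℝ) (Ser ℚ K c A v x) =
      Ser ℝ K c A (fun α => (v α : ℝ)) (x : ℝ) := by
  unfold Ser
  rw [map_sum]
  refine Finset.sum_congr rfl fun α _ => ?_
  rw [map_mul, map_mul, map_Fh, map_tp, map_C]
  rfl

theorem ser_cast {ι : Type*} [Fintype ι] (K : ℕ) (c : ι → ℕ → ℕ) (A : ι → Polynomial ℤ)
    (v : ι → ℚ) (x : ℚ) (t : ℕ) :
    ((coeff t (Ser ℚ K c A v x) : ℚ) : ℝ) =
      coeff t (Ser ℝ K c A (fun α => (v α : ℝ)) (x : ℝ)) := by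
  rw [← map_Ser, coeff_map]
  rfl

theorem fh_cast (K : ℕ) (c : ℕ → ℕ) (x : ℚ) (t : ℕ) :
    ((coeff t (Fh ℚ K c x) : ℚ) : ℝ) = coeff t (Fh ℝ K c (x : ℝ)) := by
  rw [← map_Fh, coeff_map]
  rfl

end Pool.Agent.FAC
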