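import Pool.Agent.FAC.Siegel
import Pool.Agent.FAC.FhInt
import Pool.Agent.FAC.FhBd
import Pool.Agent.FAC.MapSer

/-!
# FAC/SiegelApp: existence of the auxiliary polynomials (architect helper1)

Unknowns `a_{α,u}`, `α ∈ Idx` (10 values), `u ∈ Fin (d+1)`, `H_{α,u} = Hw N b K u`; equations indexed by
`Fin M₀ ⊕ (Fin 3 × Fin M₁)`: for `e = l` in the first part `L_{e,(α,u)} = 9^l [Fh_α(0)]_{l-u}` if `u ≤ l`, else `0` — an integer, namely
`9^u z_{α,l-u}` with `z` from `fh_int0`; in the second part the same times `vv i.succ α ∈ {0,1,2}`.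
* `hw_mul`: `Hw u · K^(l-u) ≤ Hw l` for `u ≤ l`, as `K ≤ N`.
* Bound: `∑ |L| H ≤ 10 · 2 · ∑_{u ≤ l} 9^l 4^K (2K)^(l-u) Hw u ≤ 20 (l+1) 18^l 4^K Hw l = Rw N b K l` (`fh_bd` at `x = 0` with `fh_cast`).
* `siegel_box`: the product over the equations is `∏_{l<M₀} (2 Rw+1) · (∏_{l<M₁} (2 Rw+1))^3`, over the unknowns
  `(∏_{l ≤ d} (Hw+1))^10` (`Fintype.prod_sum_type`, `Fintype.prod_prod_type`, `Finset.prod_range`).
* `A_α = ∑_u a_{α,u} X^u`; `coeff l (Ser ℚ K (cc h) A v 0) = ∑_α v_α ∑_{u ≤ l} a_{α,u} [Fh_α(0)]_{l-u}` (`tp ℚ A 0` is `A` itself: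
  `Polynomial.taylor_zero`).
-/

namespace Pool.Agent.FAC

open PowerSeries

theorem hw_mul {N b K u l : ℕ} (hKN : K ≤ N) (hul : u ≤ l) :
    Hw N b K u * K ^ (l - u) ≤ Hw N b K l := by
  unfold Hw
  refine le_min ?_ ?_
  · calc min (N ^ u) (N ^ b * K ^ u) * K ^ (l - u) ≤ N ^ u * N ^ (l - u) :=
        Nat.mul_le_mul (min_le_left _ _) (Nat.pow_le_pow_left hKN _)
      _ = N ^ l := by rw [← pow_add]; congr 1; omega
  · calc min (N ^ u) (N ^ b * K ^ u) * K ^ (l - u) ≤ N ^ b * K ^ u * K ^ (l - u) :=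
        Nat.mul_le_mul_right _ (min_le_right _ _)
      _ = N ^ b * K ^ l := by rw [mul_assoc, ← pow_add]; congr 2; omega

private theorem cc_le_two (h : Fin 4 → ℕ) (α : Idx) (l : ℕ) : cc h α l ≤ 2 := by
  unfold cc
  split_ifs <;> norm_num

private theorem vv_abs (i : Fin 4) (α : Idx) : |vv i α| ≤ 2 := by
  unfold vv
  split_ifs <;> norm_num

private theorem z_bd {K : ℕ} (h : Fin 4 → ℕ) (α : Idx) (w : ℕ) (z : ℤ)
    (hz : (z : ℚ) = 9 ^ w * coeff w (Fh ℚ K (cc h α) 0)) :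
    |z| ≤ 9 ^ w * (4 ^ K * (2 * (K : ℤ)) ^ w) := by
  have h1 := fh_bd K (cc h α) (cc_le_two h α) (le_refl (0 : ℝ)) w
  have h2 := fh_cast K (cc h α) 0 w
  rw [Rat.cast_zero] at h2
  have h3 : (z : ℝ) = 9 ^ w * coeff w (Fh ℝ K (cc h α) (0 : ℝ)) := by
    rw [← h2]
    have := congrArg (fun q : ℚ => (q : ℝ)) hz
    push_cast at this
    exact this
  have h4 : |(z : ℝ)| ≤ 9 ^ w * (4 ^ K * (2 * (K : ℝ)) ^ w) := by
    rw [h3, abs_mul, abs_of_nonneg (by positivity : (0 : ℝ) ≤ 9 ^ w)]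
    exact mul_le_mul_of_nonneg_left h1 (by positivity)
  exact_mod_cast h4

private theorem row_bd {N b K d l : ℕ} (hKN : K ≤ N) (h : Fin 4 → ℕ) (z : Idx → ℕ → ℤ)
    (hz : ∀ α w, (z α w : ℚ) = 9 ^ w * coeff w (Fh ℚ K (cc h α) 0)) (v : Idx → ℤ)
    (hv : ∀ α, |v α| ≤ 2) :
    ∑ p : Idx × Fin (d + 1), |v p.1 * (if (p.2 : ℕ) ≤ l then
      9 ^ (p.2 : ℕ) * z p.1 (l - (p.2 : ℕ)) else 0)| * ((Hw N b K (p.2 : ℕ) : ℕ) : ℤ) ≤
      ((Rw N b K l : ℕ) : ℤ) := by
  set c : ℤ := 2 * (18 ^ l * 4 ^ K * ((Hw N b K l : ℕ) : ℤ)) with hc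
  have hc0 : 0 ≤ c := by positivity
  have hterm : ∀ (α : Idx) (u : ℕ), |v α * (if u ≤ l then 9 ^ u * z α (l - u) else 0)| *
      ((Hw N b K u : ℕ) : ℤ) ≤ if u ≤ l then c else 0 := by
    intro α u
    split_ifs with hul
    · have h1 := z_bd h α (l - u) (z α (l - u)) (hz α (l - u))
      have h2 : ((Hw N b K u : ℕ) : ℤ) * (K : ℤ) ^ (l - u) ≤ ((Hw N b K l : ℕ) : ℤ) := by
        exact_mod_cast hw_mul (b := b) hKN hul
      have h3 : (2 : ℤ) ^ (l - u) ≤ 2 ^ l := pow_le_pow_right₀ (by norm_num) (by omega)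
      have h4 : (9 : ℤ) ^ u * 9 ^ (l - u) = 9 ^ l := by rw [← pow_add]; congr 1; omega
      have h5 : (18 : ℤ) ^ l = 9 ^ l * 2 ^ l := by rw [← mul_pow]; norm_num
      rw [abs_mul, abs_mul, abs_of_nonneg (by positivity : (0 : ℤ) ≤ 9 ^ u)]
      calc |v α| * (9 ^ u * |z α (l - u)|) * ((Hw N b K u : ℕ) : ℤ)
          ≤ 2 * (9 ^ u * (9 ^ (l - u) * (4 ^ K * (2 * (K : ℤ)) ^ (l - u)))) *
            ((Hw N b K u : ℕ) : ℤ) := by
            refine mul_le_mul_of_nonneg_right ?_ (by positivity)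
            refine mul_le_mul (hv α) ?_ (by positivity) (by norm_num)
            exact mul_le_mul_of_nonneg_left h1 (by positivity)
        _ = 2 * (9 ^ l * (2 ^ (l - u) * (4 ^ K *
            (((Hw N b K u : ℕ) : ℤ) * (K : ℤ) ^ (l - u))))) := by
            rw [mul_pow, ← h4]
            ring
        _ ≤ 2 * (9 ^ l * (2 ^ l * (4 ^ K * ((Hw N b K l : ℕ) : ℤ)))) := by
            refine mul_le_mul_of_nonneg_left ?_ (by norm_num)
            refine mul_le_mul_of_nonneg_left ?_ (by positivity)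
            refine mul_le_mul h3 ?_ (by positivity) (by positivity)
            exact mul_le_mul_of_nonneg_left h2 (by positivity)
        _ = c := by rw [hc, h5]; ring
    · rw [mul_zero, abs_zero, zero_mul]
  have hsum : ∑ u : Fin (d + 1), (if (u : ℕ) ≤ l then c else 0) ≤ ((l : ℤ) + 1) * c := by
    rw [← Finset.sum_range (fun u => if u ≤ l then c else 0), ← Finset.sum_filter,
      Finset.sum_const, nsmul_eq_mul]
    refine mul_le_mul_of_nonneg_right ?_ hc0
    have : ((Finset.range (d + 1)).filter (fun u => u ≤ l)).card ≤ l + 1 := by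
      refine (Finset.card_le_card (t := Finset.range (l + 1)) ?_).trans (by simp)
      intro u hu
      rw [Finset.mem_filter] at hu
      rw [Finset.mem_range]
      omega
    exact_mod_cast this
  calc ∑ p : Idx × Fin (d + 1), |v p.1 * (if (p.2 : ℕ) ≤ l then
        9 ^ (p.2 : ℕ) * z p.1 (l - (p.2 : ℕ)) else 0)| * ((Hw N b K (p.2 : ℕ) : ℕ) : ℤ)
      ≤ ∑ p : Idx × Fin (d + 1), (if (p.2 : ℕ) ≤ l then c else 0) :=
        Finset.sum_le_sum fun p _ => hterm p.1 p.2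
    _ = ∑ _α : Idx, ∑ u : Fin (d + 1), (if (u : ℕ) ≤ l then c else 0) :=
        Fintype.sum_prod_type _
    _ ≤ ∑ _α : Idx, ((l : ℤ) + 1) * c := Finset.sum_le_sum fun _ _ => hsum
    _ = 10 * (((l : ℤ) + 1) * c) := by
        rw [Finset.sum_const, Finset.card_univ, show Fintype.card Idx = 10 from by decide]
        simp
    _ = ((Rw N b K l : ℕ) : ℤ) := by
        unfold Rw
        rw [hc]
        push_cast
        ring

private noncomputable def Apol (d : ℕ) (a : Idx × Fin (d + 1) → ℤ) (α : Idx) :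
    Polynomial ℤ :=
  ∑ u : Fin (d + 1), Polynomial.monomial (u : ℕ) (a (α, u))

private theorem apol_coeff (d : ℕ) (a : Idx × Fin (d + 1) → ℤ) (α : Idx) (l : ℕ) :
    (Apol d a α).coeff l = if h : l < d + 1 then a (α, ⟨l, h⟩) else 0 := by
  unfold Apol
  rw [Polynomial.finsetSum_coeff]
  simp only [Polynomial.coeff_monomial]
  split_ifs with h
  · rw [Finset.sum_eq_single (⟨l, h⟩ : Fin (d + 1))]
    · simp
    · intro u _ hu
      rw [if_neg]
      intro hul
      exact hu (Fin.ext hul)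
    · intro h'
      exact absurd (Finset.mem_univ _) h'
  · apply Finset.sum_eq_zero
    intro u _
    rw [if_neg]
    have := u.2
    omega

private theorem row_zero {K d l : ℕ} (h : Fin 4 → ℕ) (z : Idx → ℕ → ℤ)
    (hz : ∀ α w, (z α w : ℚ) = 9 ^ w * coeff w (Fh ℚ K (cc h α) 0)) (v : Idx → ℤ)
    (a : Idx × Fin (d + 1) → ℤ)
    (h0 : ∑ p : Idx × Fin (d + 1), v p.1 * (if (p.2 : ℕ) ≤ l then
      9 ^ (p.2 : ℕ) * z p.1 (l - (p.2 : ℕ)) else 0) * a p = 0) :
    coeff l (Ser ℚ K (cc h) (Apol d a) (fun α => (v α : ℚ)) 0) = 0 := by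
  have hcoef : ∀ α, (9 : ℚ) ^ l * coeff l (tp ℚ (Apol d a α) 0 * Fh ℚ K (cc h α) 0) =
      ((∑ u : Fin (d + 1), (if (u : ℕ) ≤ l then 9 ^ (u : ℕ) * z α (l - (u : ℕ)) else 0) *
        a (α, u) : ℤ) : ℚ) := by
    intro α
    have hF : ∀ u, u ∈ Finset.range (l + 1) → (9 : ℚ) ^ l *
        (((Apol d a α).coeff u : ℚ) * coeff (l - u) (Fh ℚ K (cc h α) 0)) =
        (((if u ≤ l then 9 ^ u * z α (l - u) else 0) * (Apol d a α).coeff u : ℤ) : ℚ) := by
      intro u hu
      rw [Finset.mem_range] at hu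
      rw [if_pos (by omega : u ≤ l)]
      push_cast
      rw [hz]
      have h4 : (9 : ℚ) ^ l = 9 ^ u * 9 ^ (l - u) := by rw [← pow_add]; congr 1; omega
      rw [h4]
      ring
    have e1 : (9 : ℚ) ^ l * coeff l (tp ℚ (Apol d a α) 0 * Fh ℚ K (cc h α) 0) =
        ((∑ u ∈ Finset.range (l + 1), (if u ≤ l then 9 ^ u * z α (l - u) else 0) *
          (Apol d a α).coeff u : ℤ) : ℚ) := by
      rw [coeff_mul, Finset.Nat.sum_antidiagonal_eq_sum_range_succ_mk, Finset.mul_sum]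
      rw [Int.cast_sum]
      refine Finset.sum_congr rfl fun u hu => ?_
      rw [← hF u hu]
      congr 2
      unfold tp
      rw [Polynomial.coeff_coe, Polynomial.taylor_zero, Polynomial.coeff_map]
      rfl
    rw [e1]
    congr 1
    set g : ℕ → ℤ := fun u => (if u ≤ l then 9 ^ u * z α (l - u) else 0) *
      (Apol d a α).coeff u with hg
    have e2 : ∑ u ∈ Finset.range (l + 1), g u = ∑ u ∈ Finset.range (l + 1 + (d + 1)), g u := by
      apply Finset.sum_subset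
      · intro u hu
        rw [Finset.mem_range] at hu ⊢
        omega
      · intro u _ hu
        rw [Finset.mem_range] at hu
        rw [hg]
        simp only
        rw [if_neg (by omega), zero_mul]
    have e3 : ∑ u ∈ Finset.range (d + 1), g u = ∑ u ∈ Finset.range (l + 1 + (d + 1)), g u := by
      apply Finset.sum_subset
      · intro u hu
        rw [Finset.mem_range] at hu ⊢
        omega
      · intro u _ hu
        rw [Finset.mem_range] at hu
        rw [hg]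
        simp only
        rw [apol_coeff, dif_neg hu, mul_zero]
    rw [e2, ← e3, Finset.sum_range]
    refine Finset.sum_congr rfl fun u _ => ?_
    rw [hg]
    simp only
    rw [apol_coeff, dif_pos u.2]
  have h9 : (9 : ℚ) ^ l * coeff l (Ser ℚ K (cc h) (Apol d a) (fun α => (v α : ℚ)) 0) = 0 := by
    unfold Ser
    rw [map_sum, Finset.mul_sum]
    have h5 : ∀ α, (9 : ℚ) ^ l * coeff l (C (v α : ℚ) * tp ℚ (Apol d a α) 0 *
        Fh ℚ K (cc h α) 0) = ((v α * ∑ u : Fin (d + 1), (if (u : ℕ) ≤ l then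
          9 ^ (u : ℕ) * z α (l - (u : ℕ)) else 0) * a (α, u) : ℤ) : ℚ) := by
      intro α
      rw [mul_assoc (C (v α : ℚ)), coeff_C_mul, mul_left_comm, hcoef]
      push_cast
      ring
    rw [Finset.sum_congr rfl fun α _ => h5 α, ← Int.cast_sum]
    rw [Fintype.sum_prod_type] at h0
    have h6 : ∑ α : Idx, v α * ∑ u : Fin (d + 1), (if (u : ℕ) ≤ l then
          9 ^ (u : ℕ) * z α (l - (u : ℕ)) else 0) * a (α, u) = 0 := by
      refine Eq.trans ?_ h0
      refine Finset.sum_congr rfl fun α _ => ?_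
      rw [Finset.mul_sum]
      refine Finset.sum_congr rfl fun u _ => ?_
      rw [mul_assoc]
    rw [h6, Int.cast_zero]
  exact (mul_eq_zero.1 h9).resolve_left (by positivity)

theorem aux_exists {N b K d M₀ M₁ : ℕ} (hKN : K ≤ N) (h : Fin 4 → ℕ)
    (hnum : (∏ l ∈ Finset.range M₀, (2 * Rw N b K l + 1)) *
        (∏ l ∈ Finset.range M₁, (2 * Rw N b K l + 1)) ^ 3 <
      (∏ l ∈ Finset.range (d + 1), (Hw N b K l + 1)) ^ 10) :
    ∃ A : Idx → Polynomial ℤ, Aux K N b d M₀ M₁ h A := by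
  classical
  have hzex : ∀ (α : Idx) (w : ℕ), ∃ z : ℤ, (z : ℚ) = 9 ^ w * coeff w (Fh ℚ K (cc h α) 0) :=
    fun α w => fh_int0 K (cc h α) w
  choose z hz using hzex
  let row : (Idx → ℤ) → ℕ → Idx × Fin (d + 1) → ℤ := fun v l p =>
    v p.1 * (if (p.2 : ℕ) ≤ l then 9 ^ (p.2 : ℕ) * z p.1 (l - (p.2 : ℕ)) else 0)
  let L : (Fin M₀ ⊕ (Fin 3 × Fin M₁)) → Idx × Fin (d + 1) → ℤ := fun e => match e with
    | Sum.inl l => row (fun _ => 1) l
    | Sum.inr q => row (fun α => vv q.1.succ α) q.2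
  let R : (Fin M₀ ⊕ (Fin 3 × Fin M₁)) → ℕ := fun e => match e with
    | Sum.inl l => Rw N b K l
    | Sum.inr q => Rw N b K q.2
  let H : Idx × Fin (d + 1) → ℕ := fun p => Hw N b K p.2
  have hL : ∀ e, ∑ i, |L e i| * (H i : ℤ) ≤ (R e : ℤ) := by
    rintro (l | q)
    · exact row_bd hKN h z hz (fun _ => 1) (fun _ => by norm_num)
    · exact row_bd hKN h z hz (fun α => vv q.1.succ α) (fun α => vv_abs _ _)
  have hprod : ∏ e, (2 * R e + 1) < ∏ i, (H i + 1) := by
    have e1 : ∏ e, (2 * R e + 1) = (∏ l ∈ Finset.range M₀, (2 * Rw N b K l + 1)) *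
        (∏ l ∈ Finset.range M₁, (2 * Rw N b K l + 1)) ^ 3 := by
      rw [Fintype.prod_sum_type, Fintype.prod_prod_type, Finset.prod_range, Finset.prod_range]
      congr 1
      change ∏ _x : Fin 3, ∏ y : Fin M₁, (2 * Rw N b K (y : ℕ) + 1) = _
      rw [Finset.prod_const, Finset.card_univ, Fintype.card_fin]
    have e2 : ∏ i, (H i + 1) = (∏ l ∈ Finset.range (d + 1), (Hw N b K l + 1)) ^ 10 := by
      rw [Fintype.prod_prod_type, Finset.prod_range]
      change ∏ _x : Idx, ∏ y : Fin (d + 1), (Hw N b K (y : ℕ) + 1) = _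
      rw [Finset.prod_const, Finset.card_univ, show Fintype.card Idx = 10 from by decide]
    rw [e1, e2]
    exact hnum
  obtain ⟨a, ha0, haH, haL⟩ := siegel_box H R L hL hprod
  refine ⟨Apol d a, ⟨?_, ?_, ?_, ?_, ?_⟩⟩
  · intro α
    rw [Polynomial.natDegree_le_iff_coeff_eq_zero]
    intro l hl
    rw [apol_coeff, dif_neg (by omega)]
  · intro α l
    rw [apol_coeff]
    split_ifs with hl
    · exact haH (α, ⟨l, hl⟩)
    · rw [abs_zero]
      positivity
  · by_contra hne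
    push Not at hne
    apply ha0
    funext p
    have h1 := congrArg (fun q : Polynomial ℤ => q.coeff (p.2 : ℕ)) (hne p.1)
    simp only [Polynomial.coeff_zero] at h1
    rw [apol_coeff, dif_pos p.2.2] at h1
    exact h1
  · intro l hl
    have h1 := haL (Sum.inl ⟨l, hl⟩)
    have h2 := row_zero h z hz (fun _ => 1) a h1
    simpa using h2
  · intro i hi l hl
    obtain ⟨j, rfl⟩ := Fin.exists_succ_eq.2 hi
    have h1 := haL (Sum.inr (j, ⟨l, hl⟩))
    exact row_zero h z hz (fun α => vv j.succ α) a h1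

end Pool.Agent.FAC
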