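import Mathlib

/-!
# FAC/SumMin: sums of `min (l, b + l/5)` (architect helper1; Mathlib only)

With `b = 220 w` the two branches meet at `l = 275 w`.  In units of `w²` the integral of `min(λ, 220 + λ/5)` over `[0, m]` is
`37812.5 + 220 (m - 275) + (m² - 275²)/10` for `m ≥ 275`:
`m = 1995`: `806652.5`; `m = 5275`: `3912812.5`; `m = 2772`: `760835.9`·… (`37812.5 + 549340 + 760835.9 = 1347988.4`).
As the summand is nondecreasing, `∑_{l < m} ≤ ∫_0^m` and `∑_{l ≤ m} ≥ ∫_0^m`; direct proofs: split the range at `275 w` and sum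
(`Finset.sum_range_id_mul_two`), or prove by induction on `m` the exact formulas.
-/

namespace Pool.Agent.FAC

/-- the exponent function -/
noncomputable def gg (w l : ℕ) : ℝ := min (l : ℝ) (220 * (w : ℝ) + (l : ℝ) / 5)

theorem sum_id (n : ℕ) : ∑ l ∈ Finset.range n, (l : ℝ) = (n : ℝ) * ((n : ℝ) - 1) / 2 := by
  induction n with
  | zero => simp
  | succ n ih =>
    rw [Finset.sum_range_succ, ih]
    push_cast
    ring

theorem sum_lin (w r : ℕ) : ∑ j ∈ Finset.range r,
    (220 * (w : ℝ) + ((275 * w + j : ℕ) : ℝ) / 5) =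
      275 * (w : ℝ) * r + (r : ℝ) * ((r : ℝ) - 1) / 10 := by
  have h1 : ∀ j ∈ Finset.range r, (220 * (w : ℝ) + ((275 * w + j : ℕ) : ℝ) / 5) =
      275 * (w : ℝ) + (1 / 5) * (j : ℝ) := by
    intro j _
    push_cast
    ring
  rw [Finset.sum_congr rfl h1, Finset.sum_add_distrib, Finset.sum_const, Finset.card_range,
    ← Finset.mul_sum, sum_id, nsmul_eq_mul]
  ring

theorem gg_up (w r : ℕ) : ∑ l ∈ Finset.range (275 * w + r), gg w l ≤
    (275 * (w : ℝ)) * (275 * (w : ℝ) - 1) / 2 + (275 * (w : ℝ) * r + (r : ℝ) * ((r : ℝ) - 1) / 10) := by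
  rw [Finset.sum_range_add]
  apply add_le_add
  · calc ∑ l ∈ Finset.range (275 * w), gg w l ≤ ∑ l ∈ Finset.range (275 * w), (l : ℝ) :=
          Finset.sum_le_sum fun l _ => min_le_left _ _
      _ = _ := by
          rw [sum_id]
          push_cast
          ring
  · rw [← sum_lin]
    exact Finset.sum_le_sum fun l _ => min_le_right _ _

theorem gg_low (w : ℕ) :
    (806652 : ℝ) * (w : ℝ) ^ 2 ≤ ∑ l ∈ Finset.range (1995 * w + 1), gg w l := by
  have e : 1995 * w + 1 = 275 * w + (1720 * w + 1) := by ring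
  rw [e, Finset.sum_range_add]
  have hw : (0 : ℝ) ≤ (w : ℝ) := Nat.cast_nonneg w
  have h1 : (275 * (w : ℝ)) * (275 * (w : ℝ) - 1) / 2 ≤ ∑ l ∈ Finset.range (275 * w), gg w l := by
    have h2 : ∑ l ∈ Finset.range (275 * w), (l : ℝ) ≤ ∑ l ∈ Finset.range (275 * w), gg w l := by
      refine Finset.sum_le_sum fun l hl => le_min le_rfl ?_
      have h3 : (l : ℝ) ≤ 275 * (w : ℝ) := by
        have := (Finset.mem_range.1 hl).le
        exact_mod_cast this
      linarith
    rw [sum_id] at h2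
    push_cast at h2
    exact h2
  have h2 : 275 * (w : ℝ) * ((1720 * w + 1 : ℕ) : ℝ) +
      ((1720 * w + 1 : ℕ) : ℝ) * (((1720 * w + 1 : ℕ) : ℝ) - 1) / 10 ≤
      ∑ j ∈ Finset.range (1720 * w + 1), gg w (275 * w + j) := by
    rw [← sum_lin]
    refine Finset.sum_le_sum fun j _ => le_min ?_ le_rfl
    push_cast
    have hj : (0 : ℝ) ≤ (j : ℝ) := Nat.cast_nonneg j
    linarith
  push_cast at h2
  nlinarith

theorem gg_up0 (w : ℕ) :
    ∑ l ∈ Finset.range (5275 * w), gg w l ≤ (3912813 : ℝ) * (w : ℝ) ^ 2 := by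
  have e : 5275 * w = 275 * w + 5000 * w := by ring
  rw [e]
  have h := gg_up w (5000 * w)
  push_cast at h
  have hw : (0 : ℝ) ≤ (w : ℝ) := Nat.cast_nonneg w
  nlinarith

theorem gg_up1 (w : ℕ) :
    ∑ l ∈ Finset.range (2772 * w), gg w l ≤ (1347989 : ℝ) * (w : ℝ) ^ 2 := by
  have e : 2772 * w = 275 * w + 2497 * w := by ring
  rw [e]
  have h := gg_up w (2497 * w)
  push_cast at h
  have hw : (0 : ℝ) ≤ (w : ℝ) := Nat.cast_nonneg w
  nlinarith

end Pool.Agent.FAC
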