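import Pool.Agent.FAC.Defs
import Pool.Agent.FAC.SumMin

/-!
# FAC/SiegelNum: the numerical condition of the Siegel lemma (architect helper1)

`N = 3000 w`, `b = 220 w`, `K⁵ ≤ w < (K+1)⁵`, `Λ = log N`.
* `log K ≤ Λ/5` (`K⁵ ≤ w ≤ N`) and `log K ≥ Λ/5 - 3` (`N = 3000 w < 3000 (2K)⁵`, `(log 3000)/5 + log 2 < 3`).
* `hw_low`: `log (Hw l) = min (l Λ, b Λ + l log K) ≥ gg w l · Λ - 3 l`.
* `hw_up`: `log (Hw l) ≤ gg w l · Λ`; `rw_up`: `log (2 Rw + 1) ≤ log (3 Rw) ≤ gg w l Λ + log 60 + log (l+1) + l log 18 + K log 4`.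
* `siegel_num`: take logarithms: `10 ∑_{l ≤ 1995w} log (Hw l + 1) ≥ 8066520 w² Λ - 30 ∑ l ≥ 8066520 w² Λ - C w²` and
  `∑_{l<5275w} log(2Rw+1) + 3 ∑_{l<2772w} log(2Rw+1) ≤ (3912813 + 4043967) w² Λ + C w² = 7956780 w² Λ + C w²`
  (the sums of `log 60 + log(l+1) + l log 18 + K log 4` over `l < 5275 w` are `O(w²)` as `K ≤ w`, `log (l+1) ≤ l+1`).  The difference is
  at least `109740 w² Λ - C w² > 0` for large `w`.
-/

namespace Pool.Agent.FAC

theorem SN.K_pos {w K : ℕ} (hw : 1 ≤ w) (h2 : w < (K + 1) ^ 5) : 1 ≤ K := by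
  by_contra h
  have h0 : K = 0 := by omega
  subst h0
  simp at h2
  omega

theorem logK {w K : ℕ} (hw : 1 ≤ w) (h1 : K ^ 5 ≤ w) (h2 : w < (K + 1) ^ 5) :
    Real.log K ≤ Real.log (3000 * (w : ℝ)) / 5 ∧
      Real.log (3000 * (w : ℝ)) / 5 - 3 ≤ Real.log K := by
  have hK := SN.K_pos hw h2
  have hKr : (1 : ℝ) ≤ K := by exact_mod_cast hK
  have hK0 : (0 : ℝ) < K := by linarith
  have hwr : (1 : ℝ) ≤ w := by exact_mod_cast hw
  have e : Real.log ((K : ℝ) ^ 5) = 5 * Real.log K := by rw [Real.log_pow]; norm_num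
  constructor
  · have h3 : (K : ℝ) ^ 5 ≤ 3000 * w := by
      have : ((K ^ 5 : ℕ) : ℝ) ≤ w := by exact_mod_cast h1
      push_cast at this
      linarith
    have h4 := Real.log_le_log (by positivity) h3
    rw [e] at h4
    linarith
  · have h3 : 3000 * (w : ℝ) ≤ 2 ^ 17 * (K : ℝ) ^ 5 := by
      have h4 : (w : ℝ) ≤ (K + 1) ^ 5 := by exact_mod_cast h2.le
      have h5 : ((K : ℝ) + 1) ^ 5 ≤ (2 * K) ^ 5 := pow_le_pow_left₀ (by positivity) (by linarith) 5
      have h6 : (2 * (K : ℝ)) ^ 5 = 32 * (K : ℝ) ^ 5 := by ring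
      have h7 : (0 : ℝ) ≤ (K : ℝ) ^ 5 := by positivity
      rw [h6] at h5
      linarith
    have h4 := Real.log_le_log (by positivity) h3
    have e2 : Real.log (2 ^ 17 * (K : ℝ) ^ 5) = 17 * Real.log 2 + 5 * Real.log K := by
      rw [Real.log_mul (by positivity) (by positivity), e, Real.log_pow]
      norm_num
    rw [e2] at h4
    have h5 := Real.log_two_lt_d9
    linarith

theorem SN.hw_cast (N b K l : ℕ) : ((Hw N b K l : ℕ) : ℝ) =
    min ((N : ℝ) ^ l) ((N : ℝ) ^ b * (K : ℝ) ^ l) := by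
  unfold Hw
  push_cast
  rfl

theorem SN.hw_pos {w K : ℕ} (hw : 1 ≤ w) (h2 : w < (K + 1) ^ 5) (l : ℕ) :
    1 ≤ Hw (3000 * w) (220 * w) K l := by
  have hK := SN.K_pos hw h2
  unfold Hw
  refine le_min (Nat.one_le_pow _ _ (by omega)) ?_
  exact Nat.mul_pos (Nat.pow_pos (by omega)) (Nat.pow_pos hK)

theorem SN.log_hw {w K : ℕ} (hw : 1 ≤ w) (h2 : w < (K + 1) ^ 5) (l : ℕ) :
    Real.log ((Hw (3000 * w) (220 * w) K l : ℕ) : ℝ) =
      min ((l : ℝ) * Real.log (3000 * (w : ℝ)))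
        (220 * (w : ℝ) * Real.log (3000 * (w : ℝ)) + (l : ℝ) * Real.log K) := by
  have hK := SN.K_pos hw h2
  have hKr : (0 : ℝ) < K := by exact_mod_cast hK
  have hwr : (0 : ℝ) < w := by exact_mod_cast hw
  have hN : (0 : ℝ) < 3000 * (w : ℝ) := by positivity
  have e1 : Real.log ((3000 * (w : ℝ)) ^ l) = (l : ℝ) * Real.log (3000 * (w : ℝ)) :=
    Real.log_pow _ _
  have e2 : Real.log ((3000 * (w : ℝ)) ^ (220 * w) * (K : ℝ) ^ l) =
      220 * (w : ℝ) * Real.log (3000 * (w : ℝ)) + (l : ℝ) * Real.log K := by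
    rw [Real.log_mul (by positivity) (by positivity), Real.log_pow, Real.log_pow]
    push_cast
    ring
  rw [SN.hw_cast, ← e1, ← e2]
  push_cast
  rcases le_total ((3000 * (w : ℝ)) ^ l) ((3000 * (w : ℝ)) ^ (220 * w) * (K : ℝ) ^ l) with h | h
  · rw [min_eq_left h, min_eq_left (Real.log_le_log (by positivity) h)]
  · rw [min_eq_right h, min_eq_right (Real.log_le_log (by positivity) h)]

theorem SN.log_nonneg {w : ℕ} (hw : 1 ≤ w) : 0 ≤ Real.log (3000 * (w : ℝ)) := by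
  have hwr : (1 : ℝ) ≤ w := by exact_mod_cast hw
  exact Real.log_nonneg (by linarith)

theorem hw_low {w K : ℕ} (hw : 1 ≤ w) (h1 : K ^ 5 ≤ w) (h2 : w < (K + 1) ^ 5) (l : ℕ) :
    gg w l * Real.log (3000 * (w : ℝ)) - 3 * (l : ℝ) ≤
      Real.log ((Hw (3000 * w) (220 * w) K l : ℕ) : ℝ) := by
  have hΛ := SN.log_nonneg hw
  obtain ⟨-, h3⟩ := logK hw h1 h2
  rw [SN.log_hw hw h2]
  have hl : (0 : ℝ) ≤ l := Nat.cast_nonneg l
  have g1 : gg w l * Real.log (3000 * (w : ℝ)) ≤ (l : ℝ) * Real.log (3000 * (w : ℝ)) :=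
    mul_le_mul_of_nonneg_right (min_le_left _ _) hΛ
  have g2 : gg w l * Real.log (3000 * (w : ℝ)) ≤
      (220 * (w : ℝ) + (l : ℝ) / 5) * Real.log (3000 * (w : ℝ)) :=
    mul_le_mul_of_nonneg_right (min_le_right _ _) hΛ
  have g3 := mul_le_mul_of_nonneg_left h3 hl
  refine le_min ?_ ?_
  · linarith
  · linarith

theorem hw_up {w K : ℕ} (hw : 1 ≤ w) (h1 : K ^ 5 ≤ w) (h2 : w < (K + 1) ^ 5) (l : ℕ) :
    Real.log ((Hw (3000 * w) (220 * w) K l : ℕ) : ℝ) ≤
      gg w l * Real.log (3000 * (w : ℝ)) := by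
  have hΛ := SN.log_nonneg hw
  obtain ⟨h3, -⟩ := logK hw h1 h2
  rw [SN.log_hw hw h2]
  have hl : (0 : ℝ) ≤ l := Nat.cast_nonneg l
  have g3 := mul_le_mul_of_nonneg_left h3 hl
  unfold gg
  rw [min_mul_of_nonneg _ _ hΛ]
  refine le_min (min_le_left _ _) ((min_le_right _ _).trans ?_)
  linarith

theorem rw_up {w K : ℕ} (hw : 1 ≤ w) (h1 : K ^ 5 ≤ w) (h2 : w < (K + 1) ^ 5) (l : ℕ) :
    Real.log ((2 * Rw (3000 * w) (220 * w) K l + 1 : ℕ) : ℝ) ≤
      gg w l * Real.log (3000 * (w : ℝ)) + (100 + 5 * (l : ℝ) + 2 * (K : ℝ)) := by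
  have hH := SN.hw_pos hw h2 l
  have hHr : (1 : ℝ) ≤ ((Hw (3000 * w) (220 * w) K l : ℕ) : ℝ) := by exact_mod_cast hH
  have hH0 : (0 : ℝ) < ((Hw (3000 * w) (220 * w) K l : ℕ) : ℝ) := by linarith
  have hR : 1 ≤ Rw (3000 * w) (220 * w) K l := by
    unfold Rw
    have : 0 < 20 * (l + 1) * 18 ^ l * 4 ^ K * Hw (3000 * w) (220 * w) K l := by positivity
    omega
  have h3 : ((2 * Rw (3000 * w) (220 * w) K l + 1 : ℕ) : ℝ) ≤
      3 * ((Rw (3000 * w) (220 * w) K l : ℕ) : ℝ) := by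
    have : (1 : ℝ) ≤ ((Rw (3000 * w) (220 * w) K l : ℕ) : ℝ) := by exact_mod_cast hR
    push_cast
    linarith
  have h4 := Real.log_le_log (by positivity) h3
  have e : 3 * ((Rw (3000 * w) (220 * w) K l : ℕ) : ℝ) =
      60 * ((l : ℝ) + 1) * 18 ^ l * 4 ^ K * ((Hw (3000 * w) (220 * w) K l : ℕ) : ℝ) := by
    unfold Rw
    push_cast
    ring
  rw [e, Real.log_mul (by positivity) (by positivity), Real.log_mul (by positivity) (by positivity),
    Real.log_mul (by positivity) (by positivity), Real.log_mul (by positivity) (by positivity),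
    Real.log_pow, Real.log_pow] at h4
  have h5 : Real.log 60 ≤ 100 := by
    have := Real.log_le_sub_one_of_pos (by norm_num : (0 : ℝ) < 60)
    linarith
  have h6 : Real.log ((l : ℝ) + 1) ≤ l := by
    have := Real.log_le_sub_one_of_pos (by positivity : (0 : ℝ) < (l : ℝ) + 1)
    linarith
  have h2' := Real.log_two_lt_d9
  have h7 : Real.log 18 ≤ 4 := by
    have : Real.log 18 ≤ Real.log (2 ^ 5) := Real.log_le_log (by norm_num) (by norm_num)
    rw [Real.log_pow] at this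
    push_cast at this
    linarith
  have h8 : Real.log 4 ≤ 2 := by
    have : Real.log 4 = Real.log (2 ^ 2) := by norm_num
    rw [Real.log_pow] at this
    push_cast at this
    linarith
  have h9 := hw_up hw h1 h2 l
  have h10 : (l : ℝ) * Real.log 18 ≤ l * 4 := mul_le_mul_of_nonneg_left h7 (Nat.cast_nonneg l)
  have h11 : (K : ℝ) * Real.log 4 ≤ K * 2 := mul_le_mul_of_nonneg_left h8 (Nat.cast_nonneg K)
  linarith

/-- the sum of the error terms -/
theorem SN.err {w K m a : ℕ} (hm : m = a * w) (hw : 1 ≤ w) (hK : K ≤ w) :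
    ∑ l ∈ Finset.range m, (100 + 5 * (l : ℝ) + 2 * (K : ℝ)) ≤
      a * (102 + 5 * a) * (w : ℝ) ^ 2 := by
  have hwr : (1 : ℝ) ≤ w := by exact_mod_cast hw
  have hKr : (K : ℝ) ≤ w := by exact_mod_cast hK
  have ha : (0 : ℝ) ≤ a := Nat.cast_nonneg a
  have h1 : ∀ l ∈ Finset.range m, (100 + 5 * (l : ℝ) + 2 * (K : ℝ)) ≤ (102 + 5 * a) * w := by
    intro l hl
    rw [Finset.mem_range] at hl
    have : (l : ℝ) ≤ a * w := by
      have : (l : ℝ) ≤ m := by exact_mod_cast hl.le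
      rw [hm] at this
      push_cast at this
      exact this
    linarith
  refine (Finset.sum_le_card_nsmul _ _ _ h1).trans ?_
  rw [Finset.card_range, nsmul_eq_mul, hm]
  push_cast
  apply le_of_eq
  ring

theorem siegel_num : ∃ w₀ : ℕ, ∀ w ≥ w₀, ∀ K : ℕ, K ^ 5 ≤ w → w < (K + 1) ^ 5 →
    (∏ l ∈ Finset.range (5275 * w), (2 * Rw (3000 * w) (220 * w) K l + 1)) *
      (∏ l ∈ Finset.range (2772 * w), (2 * Rw (3000 * w) (220 * w) K l + 1)) ^ 3 <
    (∏ l ∈ Finset.range (1995 * w + 1), (Hw (3000 * w) (220 * w) K l + 1)) ^ 10 := by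
  obtain ⟨w₀, hw₀⟩ := exists_nat_ge (Real.exp 4000)
  refine ⟨w₀ + 1, fun w hw K h1 h2 => ?_⟩
  have hw1 : 1 ≤ w := by omega
  have hwr : (1 : ℝ) ≤ w := by exact_mod_cast hw1
  have hΛ : 4000 ≤ Real.log (3000 * (w : ℝ)) := by
    have h3 : Real.exp 4000 ≤ 3000 * (w : ℝ) := by
      have : (w₀ : ℝ) ≤ w := by
        have : w₀ ≤ w := by omega
        exact_mod_cast this
      linarith
    have h4 := Real.log_le_log (Real.exp_pos _) h3
    rwa [Real.log_exp] at h4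
  have hKw : K ≤ w := by
    have hK := SN.K_pos hw1 h2
    calc K = K ^ 1 := (pow_one K).symm
      _ ≤ K ^ 5 := Nat.pow_le_pow_right hK (by norm_num)
      _ ≤ w := h1
  set Λ := Real.log (3000 * (w : ℝ)) with hΛd
  -- logarithm of the left side
  have lR : ∀ m : ℕ, Real.log ((∏ l ∈ Finset.range m,
      (2 * Rw (3000 * w) (220 * w) K l + 1) : ℕ) : ℝ) ≤
      (∑ l ∈ Finset.range m, gg w l) * Λ +
        ∑ l ∈ Finset.range m, (100 + 5 * (l : ℝ) + 2 * (K : ℝ)) := by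
    intro m
    rw [Nat.cast_prod, Real.log_prod (fun l _ => by positivity), Finset.sum_mul,
      ← Finset.sum_add_distrib]
    exact Finset.sum_le_sum fun l _ => rw_up hw1 h1 h2 l
  have A1 := lR (5275 * w)
  have A2 := lR (2772 * w)
  have B1 := SN.err (w := w) (K := K) (a := 5275) rfl hw1 hKw
  have B2 := SN.err (w := w) (K := K) (a := 2772) rfl hw1 hKw
  have C1 := mul_le_mul_of_nonneg_right (gg_up0 w) (by linarith : 0 ≤ Λ)
  have C2 := mul_le_mul_of_nonneg_right (gg_up1 w) (by linarith : 0 ≤ Λ)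
  -- logarithm of the right side
  have A3 : (∑ l ∈ Finset.range (1995 * w + 1), gg w l) * Λ -
      3 * ∑ l ∈ Finset.range (1995 * w + 1), (l : ℝ) ≤
      Real.log ((∏ l ∈ Finset.range (1995 * w + 1),
        (Hw (3000 * w) (220 * w) K l + 1) : ℕ) : ℝ) := by
    rw [Nat.cast_prod, Real.log_prod (fun l _ => by positivity), Finset.sum_mul, Finset.mul_sum,
      ← Finset.sum_sub_distrib]
    refine Finset.sum_le_sum fun l _ => (hw_low hw1 h1 h2 l).trans ?_
    have hH := SN.hw_pos hw1 h2 l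
    have hHr : (1 : ℝ) ≤ ((Hw (3000 * w) (220 * w) K l : ℕ) : ℝ) := by exact_mod_cast hH
    refine Real.log_le_log (by linarith) ?_
    push_cast
    linarith
  have B3 : ∑ l ∈ Finset.range (1995 * w + 1), (l : ℝ) ≤ 1996 * 1995 * (w : ℝ) ^ 2 := by
    have h3 : ∀ l ∈ Finset.range (1995 * w + 1), (l : ℝ) ≤ 1995 * w := by
      intro l hl
      rw [Finset.mem_range] at hl
      have : (l : ℝ) ≤ ((1995 * w : ℕ) : ℝ) := by
        have : l ≤ 1995 * w := by omega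
        exact_mod_cast this
      push_cast at this
      exact this
    refine (Finset.sum_le_card_nsmul _ _ _ h3).trans ?_
    rw [Finset.card_range, nsmul_eq_mul]
    push_cast
    have : (1995 * (w : ℝ) + 1) ≤ 1996 * w := by linarith
    calc (1995 * (w : ℝ) + 1) * (1995 * w) ≤ 1996 * w * (1995 * w) :=
          mul_le_mul_of_nonneg_right this (by positivity)
      _ = 1996 * 1995 * (w : ℝ) ^ 2 := by ring
  have C3 := mul_le_mul_of_nonneg_right (gg_low w) (by linarith : 0 ≤ Λ)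
  have D : (4000 : ℝ) * (w : ℝ) ^ 2 ≤ (w : ℝ) ^ 2 * Λ := by
    rw [mul_comm]
    exact mul_le_mul_of_nonneg_left hΛ (by positivity)
  have D0 : (1 : ℝ) ≤ (w : ℝ) ^ 2 := one_le_pow₀ hwr
  have key : Real.log ((∏ l ∈ Finset.range (5275 * w),
        (2 * Rw (3000 * w) (220 * w) K l + 1) : ℕ) : ℝ) +
      3 * Real.log ((∏ l ∈ Finset.range (2772 * w),
        (2 * Rw (3000 * w) (220 * w) K l + 1) : ℕ) : ℝ) <
      10 * Real.log ((∏ l ∈ Finset.range (1995 * w + 1),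
        (Hw (3000 * w) (220 * w) K l + 1) : ℕ) : ℝ) := by
    push_cast at B1 B2
    linarith
  have P1 : (0 : ℝ) < ((∏ l ∈ Finset.range (5275 * w),
        (2 * Rw (3000 * w) (220 * w) K l + 1) : ℕ) : ℝ) := by
    exact_mod_cast Finset.prod_pos fun l _ => Nat.succ_pos _
  have P2 : (0 : ℝ) < ((∏ l ∈ Finset.range (2772 * w),
        (2 * Rw (3000 * w) (220 * w) K l + 1) : ℕ) : ℝ) := by
    exact_mod_cast Finset.prod_pos fun l _ => Nat.succ_pos _
  have P3 : (0 : ℝ) < ((∏ l ∈ Finset.range (1995 * w + 1),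
        (Hw (3000 * w) (220 * w) K l + 1) : ℕ) : ℝ) := by
    exact_mod_cast Finset.prod_pos fun l _ => Nat.succ_pos _
  have fin : ((∏ l ∈ Finset.range (5275 * w), (2 * Rw (3000 * w) (220 * w) K l + 1) : ℕ) : ℝ) *
      ((∏ l ∈ Finset.range (2772 * w), (2 * Rw (3000 * w) (220 * w) K l + 1) : ℕ) : ℝ) ^ 3 <
      ((∏ l ∈ Finset.range (1995 * w + 1), (Hw (3000 * w) (220 * w) K l + 1) : ℕ) : ℝ) ^ 10 := by
    rw [← Real.log_lt_log_iff (by positivity) (by positivity), Real.log_mul P1.ne'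
      (pow_pos P2 3).ne', Real.log_pow, Real.log_pow]
    push_cast at key ⊢
    exact key
  exact_mod_cast fin

end Pool.Agent.FAC
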