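import Pool.Agent.FAC.FhODE

/-!
# FAC/RecR: the derivatives of a relation (architect helper1)

Let `R_s = ∑_{α ∈ S} C (v α) * taylor x (𝒟_α^s A_α) * Fh_α(x)`.  Then `τ(T) R_s' = R_{s+1}`: `(τ B · Fh)' = τ(B') Fh + τ B · Fh'` (the Taylor shift
commutes with the derivative), `τ(T) τ(B') Fh + τ(B) τ(rho) Fh = τ(T B' + rho B) Fh = τ(𝒟 B) Fh` (`fh_ode`).  If `X^(m-s) ∣ R_s` then
`X^(m-s-1) ∣ R_s'`, hence `X^(m-(s+1)) ∣ R_{s+1}`.
-/

namespace Pool.Agent.FAC

open PowerSeries

private theorem rr_dvd {k : Type*} [Field k] {R : PowerSeries k} {n : ℕ}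
    (h : (X : PowerSeries k) ^ (n + 1) ∣ R) : (X : PowerSeries k) ^ n ∣ d⁄dX k R := by
  rw [X_pow_dvd_iff] at h ⊢
  intro m hm
  rw [coeff_derivative, h (m + 1) (by omega), zero_mul]

private theorem rr_taylor {k : Type*} [Field k] (x : k) (B : Polynomial k) :
    d⁄dX k ((Polynomial.taylor x B : Polynomial k) : PowerSeries k) =
      ((Polynomial.taylor x (Polynomial.derivative B) : Polynomial k) : PowerSeries k) := by
  rw [derivative_coe]
  congr 1
  rw [Polynomial.taylor_apply, Polynomial.taylor_apply, Polynomial.derivative_comp]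
  simp

private theorem rr_step {k : Type*} [Field k] [CharZero k] (K : ℕ) (c : ℕ → ℕ) {x : k}
    (hx : ∀ l ∈ Finset.Icc 1 K, 1 + (l : k) * x ≠ 0) (v : k) (B : Polynomial k) :
    ((Polynomial.taylor x (TT k K) : Polynomial k) : PowerSeries k) *
      d⁄dX k (C v * ((Polynomial.taylor x B : Polynomial k) : PowerSeries k) * Fh k K c x) =
      C v * ((Polynomial.taylor x (DD k K c B) : Polynomial k) : PowerSeries k) *
        Fh k K c x := by
  have h1 := fh_ode k K c hx
  have h2 : ((Polynomial.taylor x (DD k K c B) : Polynomial k) : PowerSeries k) =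
      ((Polynomial.taylor x (TT k K) : Polynomial k) : PowerSeries k) *
        ((Polynomial.taylor x (Polynomial.derivative B) : Polynomial k) : PowerSeries k) +
      ((Polynomial.taylor x (rho k K c) : Polynomial k) : PowerSeries k) *
        ((Polynomial.taylor x B : Polynomial k) : PowerSeries k) := by
    rw [← Polynomial.coe_mul, ← Polynomial.coe_mul, ← Polynomial.coe_add]
    congr 1
    unfold DD
    simp only [Polynomial.taylor_apply, Polynomial.add_comp, Polynomial.mul_comp]
  have h3 : d⁄dX k (C v : PowerSeries k) = 0 := by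
    ext n
    rw [coeff_derivative, coeff_C]
    simp
  rw [Derivation.leibniz, Derivation.leibniz, rr_taylor, h3, h2]
  simp only [smul_eq_mul, mul_zero, add_zero]
  linear_combination (C v * ((Polynomial.taylor x B : Polynomial k) : PowerSeries k)) * h1

theorem dvd_R {k : Type*} [Field k] [CharZero k] {ι : Type*} (S : Finset ι) (K : ℕ)
    (c : ι → ℕ → ℕ) (A : ι → Polynomial k) (v : ι → k) {x : k}
    (hx : ∀ l ∈ Finset.Icc 1 K, 1 + (l : k) * x ≠ 0) {m : ℕ}
    (h0 : (X : PowerSeries k) ^ m ∣ ∑ α ∈ S,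
      C (v α) * ((Polynomial.taylor x (A α) : Polynomial k) : PowerSeries k) * Fh k K (c α) x)
    (s : ℕ) :
    (X : PowerSeries k) ^ (m - s) ∣ ∑ α ∈ S,
      C (v α) * ((Polynomial.taylor x ((DD k K (c α))^[s] (A α)) : Polynomial k) :
        PowerSeries k) * Fh k K (c α) x := by
  induction s with
  | zero =>
    simp only [Function.iterate_zero, id_eq, Nat.sub_zero]
    exact h0
  | succ s ih =>
    rcases Nat.eq_zero_or_pos (m - s) with h | h
    · have h1 : m - (s + 1) = 0 := by omega
      rw [h1, pow_zero]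
      exact one_dvd _
    · obtain ⟨n, hn⟩ : ∃ n, m - s = n + 1 := ⟨m - s - 1, by omega⟩
      have h1 : m - (s + 1) = n := by omega
      rw [hn] at ih
      rw [h1]
      have h2 := rr_dvd ih
      have h3 := Dvd.dvd.mul_left h2
        ((Polynomial.taylor x (TT k K) : Polynomial k) : PowerSeries k)
      rw [map_sum, Finset.mul_sum] at h3
      refine h3.trans (dvd_of_eq (Finset.sum_congr rfl fun α _ => ?_))
      rw [rr_step K (c α) hx, Function.iterate_succ_apply']

end Pool.Agent.FAC
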