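import Pool.Agent.FAC.WDet
import Pool.Agent.FAC.RecR
import Pool.Agent.FAC.Adj

/-!
# FAC/ZeroEst: the zero estimate (architect helper1)

Let `𝒜 = {α | A_α ≠ 0}`, `g = card 𝒜 ≥ 1`, `e : Fin g ↪ ι` with range `𝒜` (`Finset.equivFin`), `A'_α = A_α` mapped to `ℚ[X]`
(nonzero, same degree).  Let `P = det Wm`.  For `n ∈ B`, `x = 1/n`, `1 + l x ≠ 0`: the hypothesis says `X^(J+1) ∣ Ser` (`PowerSeries.X_pow_dvd_iff`), the
sum over `ι` equals the sum over `𝒜` (`tp` of `0` is `0`); `dvd_R` gives `X^(J+1-s) ∣ R_s`, so `X^(J+2-g) ∣ R_s` for `s < g`; the matrix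
`τ_x(Wm)` (`Matrix.map`, ring homomorphism `Polynomial.taylor` followed by the coercion, `RingHom.map_det`) applied to the vector
`w_j = C (μ (e j)) * Fh (c (e j)) x` (units: `μ ≠ 0`, `fh_unit`) has entries `R_s`; `adj_dvd` and `taylor_dvd` give `(X - 1/n)^(J+2-g) ∣ P`.
The `1/n` are distinct, so `∏_{n ∈ B} (X - 1/n)^(J+2-g) ∣ P` (`Finset.prod_dvd_of_coprime`, `Polynomial.isCoprime_X_sub_C_of_isUnit_sub`), and comparing
degrees (`wr_ne_zero`, `wr_degree`, `Polynomial.natDegree_le_of_dvd`): `card B * (J+2-g) ≤ g (d + g K)`; finally `g ≤ card ι` (here stated with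
`G = card ι`: `J + 2 - G ≤ J + 2 - g` and `g (d + g K) ≤ G (d + G K)`).
-/

namespace Pool.Agent.FAC

open PowerSeries

theorem zero_est {ι : Type*} [Fintype ι] (K : ℕ) (c : ι → ℕ → ℕ)
    (hsep : ∀ α β, α ≠ β → ∃ l ∈ Finset.Icc 1 K, ¬ (3 : ℤ) ∣ ((c α l : ℤ) - (c β l : ℤ)))
    {A : ι → Polynomial ℤ} (hne : ∃ α, A α ≠ 0) {d : ℕ} (hd : ∀ α, (A α).natDegree ≤ d)
    (J : ℕ) (B : Finset ℕ) (hB : ∀ n ∈ B, 0 < n)
    (hμ : ∀ n ∈ B, ∃ μ : ι → ℚ, (∀ α, μ α ≠ 0) ∧
      ∀ t ≤ J, coeff t (Ser ℚ K c A μ (1 / (n : ℚ))) = 0) :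
    B.card * (J + 2 - Fintype.card ι) ≤
      Fintype.card ι * (d + Fintype.card ι * K) := by
  classical
  set S : Finset ι := Finset.univ.filter (fun α => A α ≠ 0) with hS
  set g : ℕ := S.card with hg
  let e0 : Fin g ≃ S := S.equivFin.symm
  let e : Fin g ↪ ι := e0.toEmbedding.trans (Function.Embedding.subtype _)
  have he : ∀ j, e j = (e0 j : ι) := fun j => rfl
  have heS : ∀ j, e j ∈ S := fun j => (e0 j).2
  let A' : ι → Polynomial ℚ := fun α => (A α).map (Int.castRingHom ℚ)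
  have hA : ∀ j, A' (e j) ≠ 0 := by
    intro j
    have h1 := heS j
    rw [hS, Finset.mem_filter] at h1
    exact (Polynomial.map_ne_zero_iff (RingHom.injective_int (Int.castRingHom ℚ))).2 h1.2
  have hgG : g ≤ Fintype.card ι := by
    rw [hg]; exact Finset.card_le_univ S
  have hg0 : 0 < g := by
    obtain ⟨α, hα⟩ := hne
    exact Finset.card_pos.2 ⟨α, by rw [hS, Finset.mem_filter]; exact ⟨Finset.mem_univ _, hα⟩⟩
  set P : Polynomial ℚ := (Wm ℚ K c A' g e).det with hP
  have hP0 : P ≠ 0 := wr_ne_zero K c hsep A' g e hA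
  have hPd : P.natDegree ≤ g * (d + g * K) := by
    refine wr_degree K c A' g e ?_
    intro j
    exact (Polynomial.natDegree_map_le).trans (hd _)
  have hdiv : ∀ n ∈ B, (Polynomial.X - Polynomial.C (1 / (n : ℚ))) ^ (J + 2 - g) ∣ P := by
    intro n hn
    obtain ⟨μ, hμ0, hμ1⟩ := hμ n hn
    have hn0 : (0 : ℚ) < n := by exact_mod_cast hB n hn
    set x : ℚ := 1 / (n : ℚ) with hxdef
    have hx0 : 0 < x := by rw [hxdef]; positivity
    have hx : ∀ l ∈ Finset.Icc 1 K, 1 + (l : ℚ) * x ≠ 0 := by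
      intro l _
      positivity
    have hSer : Ser ℚ K c A μ x = ∑ α ∈ S,
        C (μ α) * ((Polynomial.taylor x (A' α) : Polynomial ℚ) : PowerSeries ℚ) *
          Fh ℚ K (c α) x := by
      unfold Ser tp
      symm
      apply Finset.sum_subset (Finset.subset_univ _)
      intro α _ hα
      have h0 : A α = 0 := by
        by_contra h
        exact hα (by rw [hS, Finset.mem_filter]; exact ⟨Finset.mem_univ _, h⟩)
      simp [A', h0]
    have h0 : (X : PowerSeries ℚ) ^ (J + 1) ∣ ∑ α ∈ S,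
        C (μ α) * ((Polynomial.taylor x (A' α) : Polynomial ℚ) : PowerSeries ℚ) *
          Fh ℚ K (c α) x := by
      rw [← hSer, PowerSeries.X_pow_dvd_iff]
      intro t ht
      exact hμ1 t (by omega)
    let φ : Polynomial ℚ →+* PowerSeries ℚ :=
      (Polynomial.coeToPowerSeries.ringHom).comp
        ((Polynomial.taylorAlgHom x : Polynomial ℚ →ₐ[ℚ] Polynomial ℚ) :
          Polynomial ℚ →+* Polynomial ℚ)
    have hφ : ∀ Q : Polynomial ℚ,
        φ Q = ((Polynomial.taylor x Q : Polynomial ℚ) : PowerSeries ℚ) := fun Q => rfl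
    let w : Fin g → PowerSeries ℚ := fun j => C (μ (e j)) * Fh ℚ K (c (e j)) x
    have hw : IsUnit (w ⟨0, hg0⟩) := by
      refine IsUnit.mul ?_ (fh_unit ℚ K _ x)
      exact (isUnit_iff_ne_zero.2 (hμ0 _)).map (C (R := ℚ))
    have hdet : (X : PowerSeries ℚ) ^ (J + 2 - g) ∣ ((Wm ℚ K c A' g e).map φ).det := by
      refine adj_dvd _ w ⟨0, hg0⟩ hw ?_
      intro i
      have h1 := dvd_R S K c A' μ hx h0 (i : ℕ)
      have h2 : ((Wm ℚ K c A' g e).map φ).mulVec w i = ∑ α ∈ S,
          C (μ α) * ((Polynomial.taylor x ((DD ℚ K (c α))^[(i : ℕ)] (A' α)) : Polynomial ℚ) :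
            PowerSeries ℚ) * Fh ℚ K (c α) x := by
        rw [← Finset.sum_coe_sort S, ← Equiv.sum_comp e0]
        unfold Matrix.mulVec dotProduct
        refine Finset.sum_congr rfl ?_
        intro j _
        simp only [Matrix.map_apply, Wm, Matrix.of_apply, hφ, w, he]
        ring
      rw [h2]
      refine dvd_trans (pow_dvd_pow _ ?_) h1
      have := i.2
      omega
    have hmap : ((Wm ℚ K c A' g e).map φ).det = φ P := by
      rw [hP, RingHom.map_det]
      rfl
    rw [hmap, hφ] at hdet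
    exact taylor_dvd x P hdet
  have hprod : ∏ n ∈ B, (Polynomial.X - Polynomial.C (1 / (n : ℚ))) ^ (J + 2 - g) ∣ P := by
    apply Finset.prod_dvd_of_coprime
    · intro a ha b hb hab
      apply IsCoprime.pow
      apply Polynomial.isCoprime_X_sub_C_of_isUnit_sub
      rw [isUnit_iff_ne_zero, sub_ne_zero]
      have ha0 : (0 : ℚ) < a := by exact_mod_cast hB a ha
      have hb0 : (0 : ℚ) < b := by exact_mod_cast hB b hb
      intro h
      rw [one_div, one_div, inv_inj] at h
      exact hab (by exact_mod_cast h)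
    · exact hdiv
  have hle := Polynomial.natDegree_le_of_dvd hprod hP0
  rw [Polynomial.natDegree_prod_of_monic _ _
    (fun n _ => (Polynomial.monic_X_sub_C _).pow _)] at hle
  simp only [Polynomial.natDegree_pow, Polynomial.natDegree_X_sub_C, mul_one,
    Finset.sum_const, smul_eq_mul] at hle
  calc B.card * (J + 2 - Fintype.card ι) ≤ B.card * (J + 2 - g) := by
        apply Nat.mul_le_mul_left
        omega
    _ ≤ g * (d + g * K) := hle.trans hPd
    _ ≤ Fintype.card ι * (d + Fintype.card ι * K) := by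
        apply Nat.mul_le_mul hgG
        apply Nat.add_le_add_left
        exact Nat.mul_le_mul_right _ hgG

end Pool.Agent.FAC
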