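import Pool.Agent.FAC.NumIneq
import Pool.Agent.FAC.SiegelNum
import Pool.Agent.FAC.Forced
import Pool.Agent.FAC.SiegelApp
import Pool.Agent.FAC.ZeroEst
import Pool.Agent.FAC.CcSep
import Pool.Agent.FAC.PatCount

/-!
# FAC/Local: the number of solutions in `[3000 w, 3003 w]` (architect helper1)

* `fix_pattern`: for large `w` and `K⁵ ≤ w < (K+1)⁵`, a pattern `h`, and a set `B ⊆ [3000w, 3003w]` of `n` such that all `n + 3 h_i`
  are solutions: `card B ≤ 40000 K`.  Proof: `siegel_num` + `aux_exists` give `A` (`N = 3000w`, `b = 220w`, `d = 1995w`, `M₀ = 5275w`,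
  `M₁ = 2772w`); for `n ∈ B` choose `m_i`; `forced` with `num_ineq` gives the vanishing for all `t` with `t K ≤ w`, in particular for
  `t ≤ J = w/K`; `μ_α ≠ 0` as `m_i, n > 0`; `zero_est` (`card Idx = 10`, `cc_sep`): `card B * (w/K + 2 - 10) ≤ 10 (1995 w + 10 K)`.  For large `w`
  (`K` large, `w ≥ K⁵`): `w/K - 8 ≥ w/(2K)`, so `card B ≤ 2K (19950 w + 100 K)/w ≤ 40000 K`.
* `local_count`: `pattern_count` with `a = 3000w`, `L = 3w`, `J = 40000 K` (all elements of `B` and the shifted ones are in `S` = the solutions in the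
  interval): `card ≤ 9 (3w/K + 1) + 40000 K⁴`, with `K ≤ w^(1/5)`, `K ≥ w^(1/5)/2`, is `≤ 50000 w^(4/5)`.
-/

namespace Pool.Agent.FAC

open PowerSeries

theorem fix_pattern : ∃ w₀ : ℕ, ∀ w ≥ w₀, ∀ K : ℕ, K ^ 5 ≤ w → w < (K + 1) ^ 5 →
    ∀ h : Fin 4 → ℕ, Pat K h → ∀ B : Finset ℕ, B ⊆ Finset.Icc (3000 * w) (3003 * w) →
      (∀ n ∈ B, ∀ i, Sol (n + 3 * h i)) → B.card ≤ 40000 * K := by
  obtain ⟨w₁, h₁⟩ := siegel_num
  obtain ⟨w₂, h₂⟩ := num_ineq
  refine ⟨w₁ + w₂ + 10 ^ 10, fun w hw K hK1 hK2 h hp B hB hsol => ?_⟩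
  have hw1 : w₁ ≤ w := by omega
  have hw2 : w₂ ≤ w := by omega
  have hw3 : 10 ^ 10 ≤ w := by omega
  have hK : 99 ≤ K := by
    by_contra hlt
    have h5 : (K + 1) ^ 5 ≤ 99 ^ 5 := Nat.pow_le_pow_left (by omega) 5
    norm_num at h5 hw3
    omega
  have hKw : K * 99 ^ 4 ≤ w := by
    calc K * 99 ^ 4 ≤ K * K ^ 4 := Nat.mul_le_mul_left _ (Nat.pow_le_pow_left hK 4)
      _ = K ^ 5 := by ring
      _ ≤ w := hK1
  norm_num at hKw
  obtain ⟨A, hA⟩ := aux_exists (N := 3000 * w) (b := 220 * w) (d := 1995 * w) (M₀ := 5275 * w)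
    (M₁ := 2772 * w) (by omega : K ≤ 3000 * w) h (h₁ w hw1 K hK1 hK2)
  have hpos : ∀ n ∈ B, 0 < n := by
    intro n hn
    have := (Finset.mem_Icc.mp (hB hn)).1
    omega
  have hz := zero_est K (cc h) (cc_sep hp) hA.ne hA.deg (w / K) B hpos (by
    intro n hn
    have hn1 := (Finset.mem_Icc.mp (hB hn)).1
    have hn2 := (Finset.mem_Icc.mp (hB hn)).2
    choose m hm hs using hsol n hn
    have hn0 : 0 < n := hpos n hn
    refine ⟨fun α => ((m α.1.1 : ℚ) * (m α.1.2 : ℚ)) / (n : ℚ) ^ (h α.1.1 + h α.1.2), ?_, ?_⟩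
    · intro α
      have a1 : (m α.1.1 : ℚ) ≠ 0 := by exact_mod_cast (hm α.1.1).ne'
      have a2 : (m α.1.2 : ℚ) ≠ 0 := by exact_mod_cast (hm α.1.2).ne'
      have a3 : (n : ℚ) ≠ 0 := by exact_mod_cast hn0.ne'
      positivity
    · intro t ht
      have htK : t * K ≤ w := (Nat.mul_le_mul_right K ht).trans (Nat.div_mul_le_self w K)
      have htM : t ≤ 2772 * w := by
        have : w / K ≤ w := Nat.div_le_self _ _
        omega
      exact forced hp hA (by omega) (by omega) (by omega) hn1 hm hs htM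
        (h₂ w hw2 K hK1 hK2 n hn1 hn2 t htK))
  have hcard : Fintype.card Idx = 10 := by decide
  rw [hcard] at hz
  -- arithmetic
  by_contra hcon
  push Not at hcon
  have hq : w < K * (w / K + 1) := by
    have := Nat.lt_mul_div_succ w (show 0 < K by omega)
    simpa using this
  obtain ⟨q, hqdef⟩ : ∃ q, w / K = q := ⟨_, rfl⟩
  rw [hqdef] at hz hq
  have hq8 : 1000 ≤ q := by
    by_contra hlt
    have : K * (q + 1) ≤ K * 1000 := Nat.mul_le_mul_left _ (by omega)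
    omega
  have h2q : q + 2 - 10 = q - 8 := by omega
  rw [h2q] at hz
  obtain ⟨r, hr⟩ : ∃ r, q = r + 8 := ⟨q - 8, by omega⟩
  subst hr
  have hr8 : r + 8 - 8 = r := by omega
  rw [hr8] at hz
  -- w < K (r + 9), (40000 K + 1) r ≤ 19950 w + 100 K
  have hz2 : (40000 * K + 1) * r ≤ 10 * (1995 * w + 10 * K) :=
    (Nat.mul_le_mul_right r hcon).trans hz
  have hq2 : w < K * r + 9 * K := by nlinarith
  have hKr : K * 992 ≤ K * r := Nat.mul_le_mul_left _ (by omega)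
  have e1 : (40000 * K + 1) * r = 40000 * (K * r) + r := by ring
  rw [e1] at hz2
  generalize K * r = P at *
  omega

open Classical in
theorem local_count : ∃ w₀ : ℕ, ∀ w ≥ w₀,
    ((((Finset.Icc (3000 * w) (3003 * w)).filter Sol).card : ℕ) : ℝ) ≤
      50000 * (w : ℝ) ^ ((4 : ℝ) / 5) := by
  obtain ⟨w₁, h₁⟩ := fix_pattern
  refine ⟨w₁ + 1, fun w hw => ?_⟩
  have hw1 : w₁ ≤ w := by omega
  have hwpos : 0 < w := by omega
  -- choose K
  obtain ⟨K, hK1, hK2⟩ : ∃ K : ℕ, K ^ 5 ≤ w ∧ w < (K + 1) ^ 5 := by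
    refine ⟨Nat.findGreatest (fun k => k ^ 5 ≤ w) w, ?_, ?_⟩
    · exact Nat.findGreatest_spec (P := fun k => k ^ 5 ≤ w) (Nat.zero_le w) (by simp)
    · by_contra hcon
      push Not at hcon
      have hle : Nat.findGreatest (fun k => k ^ 5 ≤ w) w + 1 ≤ w :=
        (Nat.le_self_pow (by norm_num) _).trans hcon
      have := Nat.le_findGreatest (P := fun k => k ^ 5 ≤ w) hle hcon
      omega
  have hK0 : 1 ≤ K := by
    by_contra hlt
    have : K = 0 := by omega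
    subst this
    norm_num at hK2
    omega
  set S := (Finset.Icc (3000 * w) (3003 * w)).filter Sol with hS
  have hSsub : S ⊆ Finset.Icc (3000 * w) (3000 * w + 3 * w) := by
    intro n hn
    have := (Finset.mem_filter.mp hn).1
    rw [Finset.mem_Icc] at this ⊢
    omega
  have hpc := pattern_count S (a := 3000 * w) (L := 3 * w) (K := K) (J := 40000 * K) hK0 hSsub (by
    intro h hp B hB hBS
    refine h₁ w hw1 K hK1 hK2 h hp B ?_ ?_
    · intro n hn
      exact (Finset.mem_filter.mp (hB hn)).1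
    · intro n hn i
      exact (Finset.mem_filter.mp (hBS n hn i)).2)
  -- real estimates
  have hwr : (1 : ℝ) ≤ w := by exact_mod_cast hwpos
  have hw0 : (0 : ℝ) ≤ w := by linarith
  set y : ℝ := (w : ℝ) ^ ((1 : ℝ) / 5) with hy
  have hy5 : y ^ 5 = w := by
    rw [hy, ← Real.rpow_natCast, ← Real.rpow_mul hw0]
    norm_num
  have hy0 : 0 < y := Real.rpow_pos_of_pos (by linarith) _
  have hy4 : (w : ℝ) ^ ((4 : ℝ) / 5) = y ^ 4 := by
    rw [hy, ← Real.rpow_natCast, ← Real.rpow_mul hw0]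
    norm_num
  have hKy : (K : ℝ) ≤ y := by
    have : (K : ℝ) ^ 5 ≤ y ^ 5 := by rw [hy5]; exact_mod_cast hK1
    exact le_of_pow_le_pow_left₀ (by norm_num) hy0.le this
  have hyK : y < (K : ℝ) + 1 := by
    have : y ^ 5 < ((K : ℝ) + 1) ^ 5 := by rw [hy5]; exact_mod_cast hK2
    exact lt_of_pow_lt_pow_left₀ 5 (by positivity) this
  have hK0r : (1 : ℝ) ≤ K := by exact_mod_cast hK0
  have hdiv : ((3 * w / K : ℕ) : ℝ) ≤ 6 * y ^ 4 := by
    have h1 : ((3 * w / K : ℕ) : ℝ) ≤ ((3 * w : ℕ) : ℝ) / (K : ℝ) := Nat.cast_div_le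
    refine h1.trans ?_
    rw [div_le_iff₀ (by linarith)]
    push_cast
    rw [← hy5]
    have : y ≤ 2 * K := by linarith
    nlinarith [pow_pos hy0 4]
  have hK4 : (K : ℝ) ^ 4 ≤ y ^ 4 := pow_le_pow_left₀ (by linarith) hKy 4
  have hy1 : 1 ≤ y ^ 4 := by
    have : (1 : ℝ) ≤ (K : ℝ) ^ 4 := one_le_pow₀ hK0r
    linarith
  have hpcr : (S.card : ℝ) ≤ 9 * (((3 * w / K : ℕ) : ℝ) + 1) + (K : ℝ) ^ 3 * (40000 * K) := by
    exact_mod_cast hpc
  rw [hy4]
  nlinarith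

end Pool.Agent.FAC
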