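import Pool.Agent.FAC.Resid

/-!
# FAC/NonVan: linear independence over the polynomials (architect helper1)

Induction on `S.card` for all `u`.  Let `α₀ ∈ S`.  Differentiate the relation for `s` and multiply by `T`:
`∑ T u_α' 𝒟^s A_α + u_α (𝒟^(s+1) A_α - ρ_α 𝒟^s A_α) = 0` (as `T (B)' = 𝒟 B - ρ B`), and `∑ u_α 𝒟^(s+1) A_α = 0` for `s + 1 < card`, so
`∑ (T u_α' - ρ_α u_α) 𝒟^s A_α = 0` for `s < card - 1`.  Multiply this by `u_{α₀}` and subtract `(T u_{α₀}' - ρ_{α₀} u_{α₀})` times the relation:
the vector `w_α = u_{α₀} (T u_α' - ρ_α u_α) - u_α (T u_{α₀}' - ρ_{α₀} u_{α₀})`, which vanishes at `α₀`, satisfies the hypothesis for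
`S.erase α₀`.  By induction `w_α = 0` for `α ∈ S`, `α ≠ α₀`: `T (u_α' u_{α₀} - u_α u_{α₀}') = (ρ_α - ρ_{α₀}) u_α u_{α₀}`.
If `u_{α₀} ≠ 0`, then `u_α = 0` for all `α ≠ α₀` (`resid` and the separation hypothesis), and the relation `s = 0` reads `u_{α₀} A_{α₀} = 0`:
contradiction.  As `α₀` is arbitrary, `u = 0` on `S`.
-/

namespace Pool.Agent.FAC

open Polynomial

theorem nonvan {ι : Type*} [DecidableEq ι] (K : ℕ) (c : ι → ℕ → ℕ)
    (hsep : ∀ α β, α ≠ β → ∃ l ∈ Finset.Icc 1 K, ¬ (3 : ℤ) ∣ ((c α l : ℤ) - (c β l : ℤ)))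
    (A : ι → Polynomial ℚ) (S : Finset ι) (hA : ∀ α ∈ S, A α ≠ 0) (u : ι → Polynomial ℚ)
    (hu : ∀ s < S.card, ∑ α ∈ S, u α * (DD ℚ K (c α))^[s] (A α) = 0) :
    ∀ α ∈ S, u α = 0 := by
  induction hn : S.card generalizing S u with
  | zero =>
    intro α hα
    rw [Finset.card_eq_zero] at hn
    rw [hn] at hα
    exact absurd hα (Finset.notMem_empty α)
  | succ n ih =>
    intro α₀ hα₀
    by_contra hne
    set T := TT ℚ K with hT
    have hcard : (S.erase α₀).card = n := by rw [Finset.card_erase_of_mem hα₀, hn]; rfl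
    have hE : ∀ s < n, ∑ α ∈ S, (T * derivative (u α) - rho ℚ K (c α) * u α) *
        (DD ℚ K (c α))^[s] (A α) = 0 := by
      intro s hs
      have h0 := hu s (by omega)
      have h1 := hu (s + 1) (by omega)
      have h2 : T * derivative (∑ α ∈ S, u α * (DD ℚ K (c α))^[s] (A α)) = 0 := by
        rw [h0, derivative_zero, mul_zero]
      rw [derivative_sum, Finset.mul_sum] at h2
      have h3 : ∑ α ∈ S, (T * derivative (u α) - rho ℚ K (c α) * u α) *
          (DD ℚ K (c α))^[s] (A α) = ∑ α ∈ S, T * derivative (u α * (DD ℚ K (c α))^[s] (A α)) -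
            ∑ α ∈ S, u α * (DD ℚ K (c α))^[s + 1] (A α) := by
        rw [← Finset.sum_sub_distrib]
        refine Finset.sum_congr rfl fun α _ => ?_
        rw [derivative_mul, Function.iterate_succ_apply']
        conv_rhs => rw [DD]
        ring
      rw [h3, h2, h1, sub_zero]
    have hw := ih (S.erase α₀) (fun α hα => hA α (Finset.mem_of_mem_erase hα))
      (fun α => u α₀ * (T * derivative (u α) - rho ℚ K (c α) * u α) -
        u α * (T * derivative (u α₀) - rho ℚ K (c α₀) * u α₀)) (by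
        intro s hs
        rw [hcard] at hs
        have h0 := hu s (by omega)
        have h1 := hE s hs
        have h2 : ∑ α ∈ S, (u α₀ * (T * derivative (u α) - rho ℚ K (c α) * u α) -
            u α * (T * derivative (u α₀) - rho ℚ K (c α₀) * u α₀)) *
              (DD ℚ K (c α))^[s] (A α) =
            u α₀ * ∑ α ∈ S, (T * derivative (u α) - rho ℚ K (c α) * u α) *
              (DD ℚ K (c α))^[s] (A α) -
            (T * derivative (u α₀) - rho ℚ K (c α₀) * u α₀) *
              ∑ α ∈ S, u α * (DD ℚ K (c α))^[s] (A α) := by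
          rw [Finset.mul_sum, Finset.mul_sum, ← Finset.sum_sub_distrib]
          refine Finset.sum_congr rfl fun α _ => ?_
          ring
        rw [h0, h1, mul_zero, mul_zero, sub_zero, ← Finset.add_sum_erase S _ hα₀] at h2
        have h3 : (u α₀ * (T * derivative (u α₀) - rho ℚ K (c α₀) * u α₀) -
            u α₀ * (T * derivative (u α₀) - rho ℚ K (c α₀) * u α₀)) *
              (DD ℚ K (c α₀))^[s] (A α₀) = 0 := by rw [sub_self, zero_mul]
        rw [h3, zero_add] at h2
        exact h2) hcard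
    have hz : ∀ α ∈ S.erase α₀, u α = 0 := by
      intro α hα
      by_contra hαne
      have h1 := hw α hα
      obtain ⟨l, hl, hl3⟩ := hsep α α₀ (Finset.ne_of_mem_erase hα)
      refine resid K (c α) (c α₀) hl hl3 hαne hne ?_
      rw [← hT]
      linear_combination h1
    have h0 := hu 0 (by omega)
    rw [← Finset.add_sum_erase S _ hα₀, Finset.sum_eq_zero (fun α hα => by
      rw [hz α hα, zero_mul]), add_zero, Function.iterate_zero, id] at h0
    rcases mul_eq_zero.mp h0 with h | h
    · exact hne h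
    · exact hA α₀ hα₀ h

end Pool.Agent.FAC
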