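import Pool.Agent.FAC.Defs

/-!
# FAC/NumIneq: the smallness inequality (architect helper1)

Parameters: `N = 3000 w`, `b = 220 w`, `d = 1995 w`, `M₀ = 5275 w`, `M₁ = 2772 w`, `K⁵ ≤ w < (K+1)⁵`, `3000 w ≤ n ≤ 3003 w`, `t K ≤ w`.
Write `L = log n`.
* `Yn n = (n!)^(2/3)`, `n! ≤ n^n`, `n! ≥ (n/3)^n` (`Nat.factorial_le_pow`-type, and `n^n ≤ 3^n n!`-type bounds, e.g. from
  `Real.exp` series `n^n/n! ≤ e^n ≤ 3^n`): `2000 w (L - log 3) ≤ log Yn n ≤ 2002 w L` (`2n/3 ≤ 2002 w`, `2n/3 ≥ 2000 w`).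
* `log K ≤ (1/5) log w ≤ (1/5) L`, `t K ≤ w`, so `log (9 (2n)^K)^t ≤ t log 9 + w (log 2 + L)`; `t log n ≤ (w/K) L ≤ w L/10` and
  `K log n ≤ w L / 10` for large `w` (`K → ∞`, `K² ≤ w`).
* First term: exponent (in units `w L`): `1995 + 1 + 2002 + 220 + 5275/5 - 5275 = -2`; second: `1995 + 1 + 220 + 2772/5 - 2772 = -1.6`;
  third: `1995 + 1 - 2000 = -4`; all remaining terms are `≤ 0.4 w L + O(w)` in the exponent.  Hence each of the three terms is `< 1/3` for large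
  `w` (`0.6 w L` beats `O(w)`).
-/

namespace Pool.Agent.FAC

theorem yn_pos (n : ℕ) : 0 < Yn n := by
  unfold Yn
  have : (0 : ℝ) < (n.factorial : ℝ) := by exact_mod_cast n.factorial_pos
  positivity

theorem yn_cube (n : ℕ) : Yn n ^ 3 = (n.factorial : ℝ) ^ 2 := by
  unfold Yn
  have h0 : (0 : ℝ) ≤ (n.factorial : ℝ) := by positivity
  rw [← pow_mul, mul_comm 2 3, pow_mul, ← Real.rpow_natCast ((n.factorial : ℝ) ^ ((1 : ℝ) / 3)) 3,
    ← Real.rpow_mul h0]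
  norm_num

theorem yn_bounds {w n : ℕ} (hw : 1 ≤ w) (h1 : 3000 * w ≤ n) (h2 : n ≤ 3003 * w) :
    ((n : ℝ) / 3) ^ (2000 * w) ≤ Yn n ∧ Yn n ≤ (n : ℝ) ^ (2002 * w) := by
  have hn1 : (3000 : ℝ) ≤ n := by
    have : 3000 ≤ n := by omega
    exact_mod_cast this
  have hf0 : (0 : ℝ) < (n.factorial : ℝ) := by exact_mod_cast n.factorial_pos
  constructor
  · refine le_of_pow_le_pow_left₀ (n := 3) (by norm_num) (yn_pos n).le ?_
    rw [yn_cube, ← pow_mul]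
    have h3 : ((n : ℝ) / 3) ^ n ≤ (n.factorial : ℝ) := by
      have e1 := Real.pow_div_factorial_le_exp (n : ℝ) (by positivity) n
      have e2 : Real.exp (n : ℝ) ≤ 3 ^ n := by
        have : Real.exp (n : ℝ) = Real.exp 1 ^ n := by
          rw [← Real.exp_nat_mul, mul_one]
        rw [this]
        exact pow_le_pow_left₀ (Real.exp_pos _).le Real.exp_one_lt_three.le n
      rw [div_le_iff₀ hf0] at e1
      rw [div_pow, div_le_iff₀ (by positivity)]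
      calc (n : ℝ) ^ n ≤ Real.exp (n : ℝ) * (n.factorial : ℝ) := e1
        _ ≤ 3 ^ n * (n.factorial : ℝ) := by gcongr
        _ = (n.factorial : ℝ) * 3 ^ n := mul_comm _ _
    calc ((n : ℝ) / 3) ^ (2000 * w * 3) ≤ ((n : ℝ) / 3) ^ (n * 2) :=
          pow_le_pow_right₀ (by linarith) (by omega)
      _ = (((n : ℝ) / 3) ^ n) ^ 2 := by rw [pow_mul]
      _ ≤ (n.factorial : ℝ) ^ 2 := by gcongr
  · refine le_of_pow_le_pow_left₀ (n := 3) (by norm_num) (by positivity) ?_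
    rw [yn_cube, ← pow_mul]
    have h3 : (n.factorial : ℝ) ≤ (n : ℝ) ^ n := by exact_mod_cast Nat.factorial_le_pow n
    calc (n.factorial : ℝ) ^ 2 ≤ ((n : ℝ) ^ n) ^ 2 := by gcongr
      _ = (n : ℝ) ^ (n * 2) := by rw [pow_mul]
      _ ≤ (n : ℝ) ^ (2002 * w * 3) := pow_le_pow_right₀ (by linarith) (by omega)

theorem num_common : ∃ w₀ : ℕ, ∀ w ≥ w₀, ∀ K : ℕ, K ^ 5 ≤ w → w < (K + 1) ^ 5 →
    ∀ n : ℕ, 3000 * w ≤ n → n ≤ 3003 * w → ∀ t : ℕ, t * K ≤ w →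
      (1 ≤ w ∧ 1 ≤ K) ∧ (10 ^ 6 : ℝ) ≤ Real.log n ∧
        Real.log (((3000 * w : ℕ) : ℕ) : ℝ) ≤ Real.log n ∧
        5 * Real.log K ≤ Real.log n ∧
        (t : ℝ) * Real.log n ≤ (w : ℝ) * Real.log n / 20 ∧
        (K : ℝ) * Real.log n ≤ (w : ℝ) * Real.log n / 20 ∧ (t : ℝ) ≤ w ∧ (K : ℝ) ≤ w ∧
        (t : ℝ) * (K : ℝ) ≤ w := by
  obtain ⟨E, hE⟩ : ∃ E : ℕ, Real.exp (10 ^ 6) ≤ E := ⟨_, Nat.le_ceil _⟩
  refine ⟨E + 4084101, fun w hw K hK1 hK2 n hn1 hn2 t ht => ?_⟩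
  have hw1 : 4084101 ≤ w := by omega
  have hw2 : E ≤ w := by omega
  have hK : 21 ≤ K := by
    by_contra hlt
    have h5 : (K + 1) ^ 5 ≤ 21 ^ 5 := Nat.pow_le_pow_left (by omega) 5
    norm_num at h5
    omega
  have hKw : K * 21 ^ 4 ≤ w := by
    calc K * 21 ^ 4 ≤ K * K ^ 4 := Nat.mul_le_mul_left _ (Nat.pow_le_pow_left hK 4)
      _ = K ^ 5 := by ring
      _ ≤ w := hK1
  norm_num at hKw
  have hwpos : 1 ≤ w := by omega
  have hwr : (1 : ℝ) ≤ w := by exact_mod_cast hwpos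
  have hnr : (3000 * (w : ℝ)) ≤ n := by exact_mod_cast hn1
  have hL : (10 ^ 6 : ℝ) ≤ Real.log n := by
    rw [Real.le_log_iff_exp_le (by linarith)]
    have : Real.exp (10 ^ 6) ≤ w := hE.trans (by exact_mod_cast hw2)
    linarith
  have hL0 : 0 ≤ Real.log n := by
    refine le_trans ?_ hL
    norm_num
  have ht20 : 20 * t ≤ w := by nlinarith
  have hK20 : 20 * K ≤ w := by omega
  have ht20r : 20 * (t : ℝ) ≤ w := by exact_mod_cast ht20
  have hK20r : 20 * (K : ℝ) ≤ w := by exact_mod_cast hK20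
  have ht0 : (0 : ℝ) ≤ t := by positivity
  have hKr0 : (0 : ℝ) < K := by
    have : 0 < K := by omega
    exact_mod_cast this
  refine ⟨⟨hwpos, by omega⟩, hL, ?_, ?_, ?_, ?_, by linarith, by linarith, by exact_mod_cast ht⟩
  · apply Real.log_le_log
    · have : 0 < 3000 * w := by omega
      exact_mod_cast this
    · exact_mod_cast hn1
  · have h5 : 5 * Real.log K = Real.log ((K : ℝ) ^ 5) := by
      rw [Real.log_pow]; norm_num
    rw [h5]
    apply Real.log_le_log (by positivity)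
    have : K ^ 5 ≤ n := by omega
    exact_mod_cast this
  · nlinarith
  · nlinarith

theorem log_Zf {N b K M n t : ℕ} (hN : 0 < N) (hK : 0 < K) (hn : 0 < n) :
    Real.log (Zf N b K M n t) = (M : ℝ) * Real.log 2 + (Real.log 40 + Real.log ((M : ℝ) + 1) +
      (K : ℝ) * Real.log 8 + (b : ℝ) * Real.log N + (M : ℝ) * (Real.log 2 + Real.log K)) +
      (t : ℝ) * Real.log n - (M : ℝ) * Real.log n := by
  have hNr : (0 : ℝ) < N := by exact_mod_cast hN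
  have hKr : (0 : ℝ) < K := by exact_mod_cast hK
  have hnr : (0 : ℝ) < n := by exact_mod_cast hn
  have hM : (0 : ℝ) < (M : ℝ) + 1 := by positivity
  unfold Zf
  rw [Real.log_div (by positivity) (by positivity), Real.log_mul (by positivity) (by positivity),
    Real.log_mul (by positivity) (by positivity), Real.log_mul (by positivity) (by positivity),
    Real.log_mul (by positivity) (by positivity), Real.log_mul (by positivity) (by positivity),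
    Real.log_mul (by positivity) (by positivity), Real.log_pow, Real.log_pow, Real.log_pow,
    Real.log_pow, Real.log_pow, Real.log_pow, Real.log_mul (by positivity) (by positivity)]

theorem zf_pos {N b K M n t : ℕ} (hN : 0 < N) (hK : 0 < K) (hn : 0 < n) :
    0 < Zf N b K M n t := by
  have hNr : (0 : ℝ) < N := by exact_mod_cast hN
  have hKr : (0 : ℝ) < K := by exact_mod_cast hK
  have hnr : (0 : ℝ) < n := by exact_mod_cast hn
  unfold Zf
  positivity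

theorem log_pref {w K n t : ℕ} (hn : 0 < n) :
    Real.log ((n : ℝ) ^ (1995 * w + K) * (9 * (2 * (n : ℝ)) ^ K) ^ t) =
      (1995 * (w : ℝ) + K) * Real.log n +
        (t : ℝ) * (Real.log 9 + (K : ℝ) * (Real.log 2 + Real.log n)) := by
  have hnr : (0 : ℝ) < n := by exact_mod_cast hn
  rw [Real.log_mul (by positivity) (by positivity), Real.log_pow, Real.log_pow,
    Real.log_mul (by positivity) (by positivity), Real.log_pow,
    Real.log_mul (by positivity) (by positivity)]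
  push_cast
  ring

theorem log_bounds : Real.log 2 ≤ 1 ∧ Real.log 9 ≤ 8 ∧ Real.log 8 ≤ 7 ∧ Real.log 40 ≤ 39 ∧
    Real.log 4 ≤ 3 ∧ Real.log 10 ≤ 9 ∧ Real.log 3 ≤ 2 := by
  refine ⟨?_, ?_, ?_, ?_, ?_, ?_, ?_⟩ <;>
  · refine (Real.log_le_sub_one_of_pos (by norm_num)).trans ?_
    norm_num

theorem log_nonnegs : 0 ≤ Real.log 2 ∧ 0 ≤ Real.log 9 ∧ 0 ≤ Real.log 8 ∧ 0 ≤ Real.log 40 ∧
    0 ≤ Real.log 4 ∧ 0 ≤ Real.log 10 ∧ 0 ≤ Real.log 3 := by
  refine ⟨?_, ?_, ?_, ?_, ?_, ?_, ?_⟩ <;> exact Real.log_nonneg (by norm_num)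

theorem lt_third {x : ℝ} (hx : 0 < x) (h : Real.log x < -2) : x < 1 / 3 := by
  have h3 := log_bounds.2.2.2.2.2.2
  rw [← Real.log_lt_log_iff hx (by norm_num), one_div, Real.log_inv]
  linarith

theorem num_ineq1 : ∃ w₀ : ℕ, ∀ w ≥ w₀, ∀ K : ℕ, K ^ 5 ≤ w → w < (K + 1) ^ 5 →
    ∀ n : ℕ, 3000 * w ≤ n → n ≤ 3003 * w → ∀ t : ℕ, t * K ≤ w →
      (n : ℝ) ^ (1995 * w + K) * (9 * (2 * (n : ℝ)) ^ K) ^ t *
        (Yn n * Zf (3000 * w) (220 * w) K (5275 * w) n t) < 1 / 3 := by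
  obtain ⟨w₀, h₀⟩ := num_common
  refine ⟨w₀, fun w hw K hK1 hK2 n hn1 hn2 t ht => ?_⟩
  obtain ⟨⟨hw1, hK⟩, hL, hLN, hLK, htL, hKL, htw, hKw, htK⟩ := h₀ w hw K hK1 hK2 n hn1 hn2 t ht
  have hn : 0 < n := by omega
  have hN : 0 < 3000 * w := by omega
  have hnr : (0 : ℝ) < n := by exact_mod_cast hn
  have hwr : (1 : ℝ) ≤ w := by exact_mod_cast hw1
  have hZ := zf_pos (b := 220 * w) (M := 5275 * w) (t := t) hN hK hn
  have hY := (yn_bounds hw1 hn1 hn2).2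
  have hY0 := yn_pos n
  have step : (n : ℝ) ^ (1995 * w + K) * (9 * (2 * (n : ℝ)) ^ K) ^ t *
        (Yn n * Zf (3000 * w) (220 * w) K (5275 * w) n t) ≤
      (n : ℝ) ^ (1995 * w + K) * (9 * (2 * (n : ℝ)) ^ K) ^ t *
        ((n : ℝ) ^ (2002 * w) * Zf (3000 * w) (220 * w) K (5275 * w) n t) := by
    gcongr
  refine lt_of_le_of_lt step (lt_third (by positivity) ?_)
  rw [Real.log_mul (by positivity) (by positivity), log_pref hn,
    Real.log_mul (by positivity) (by positivity), Real.log_pow, log_Zf hN hK hn]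
  obtain ⟨b2, b9, b8, b40, b4, b10, b3⟩ := log_bounds
  obtain ⟨p2, p9, p8, p40, p4, p10, p3⟩ := log_nonnegs
  have hM1 : Real.log ((((5275 * w : ℕ) : ℕ) : ℝ) + 1) ≤ 5275 * (w : ℝ) := by
    refine (Real.log_le_sub_one_of_pos (by positivity)).trans ?_
    push_cast
    linarith
  have e1 : (((220 * w : ℕ) : ℕ) : ℝ) * Real.log (((3000 * w : ℕ) : ℕ) : ℝ) ≤
      220 * ((w : ℝ) * Real.log n) := by
    push_cast at hLN ⊢
    nlinarith
  have e2 : (((5275 * w : ℕ) : ℕ) : ℝ) * Real.log K ≤ 1055 * ((w : ℝ) * Real.log n) := by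
    push_cast
    nlinarith
  have e3 : (t : ℝ) * Real.log 9 ≤ 8 * w := by nlinarith
  have e4 : (t : ℝ) * ((K : ℝ) * Real.log 2) ≤ w := by nlinarith
  have e5 : (t : ℝ) * ((K : ℝ) * Real.log n) ≤ w * Real.log n := by nlinarith
  have e6 : (((5275 * w : ℕ) : ℕ) : ℝ) * Real.log 2 ≤ 5275 * w := by push_cast; nlinarith
  have e7 : (K : ℝ) * Real.log 8 ≤ 7 * w := by nlinarith
  have e8 : (10 ^ 6 : ℝ) * w ≤ (w : ℝ) * Real.log n := by nlinarith
  have e9 : (t : ℝ) * (Real.log 9 + (K : ℝ) * (Real.log 2 + Real.log n)) =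
      (t : ℝ) * Real.log 9 + (t : ℝ) * ((K : ℝ) * Real.log 2) +
        (t : ℝ) * ((K : ℝ) * Real.log n) := by ring
  have e10 : (((5275 * w : ℕ) : ℕ) : ℝ) * (Real.log 2 + Real.log K) =
      (((5275 * w : ℕ) : ℕ) : ℝ) * Real.log 2 + (((5275 * w : ℕ) : ℕ) : ℝ) * Real.log K := by ring
  have e11 : (1995 * (w : ℝ) + K) * Real.log n =
      1995 * ((w : ℝ) * Real.log n) + K * Real.log n := by ring
  have e12 : (((2002 * w : ℕ) : ℕ) : ℝ) * Real.log n = 2002 * ((w : ℝ) * Real.log n) := by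
    push_cast; ring
  have e13 : (((5275 * w : ℕ) : ℕ) : ℝ) * Real.log n = 5275 * ((w : ℝ) * Real.log n) := by
    push_cast; ring
  rw [e9, e10, e11, e12, e13]
  linarith

theorem num_ineq2 : ∃ w₀ : ℕ, ∀ w ≥ w₀, ∀ K : ℕ, K ^ 5 ≤ w → w < (K + 1) ^ 5 →
    ∀ n : ℕ, 3000 * w ≤ n → n ≤ 3003 * w → ∀ t : ℕ, t * K ≤ w →
      (n : ℝ) ^ (1995 * w + K) * (9 * (2 * (n : ℝ)) ^ K) ^ t *
        (4 * Zf (3000 * w) (220 * w) K (2772 * w) n t) < 1 / 3 := by
  obtain ⟨w₀, h₀⟩ := num_common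
  refine ⟨w₀, fun w hw K hK1 hK2 n hn1 hn2 t ht => ?_⟩
  obtain ⟨⟨hw1, hK⟩, hL, hLN, hLK, htL, hKL, htw, hKw, htK⟩ := h₀ w hw K hK1 hK2 n hn1 hn2 t ht
  have hn : 0 < n := by omega
  have hN : 0 < 3000 * w := by omega
  have hnr : (0 : ℝ) < n := by exact_mod_cast hn
  have hwr : (1 : ℝ) ≤ w := by exact_mod_cast hw1
  have hZ := zf_pos (b := 220 * w) (M := 2772 * w) (t := t) hN hK hn
  refine lt_third (by positivity) ?_
  rw [Real.log_mul (by positivity) (by positivity), log_pref hn,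
    Real.log_mul (by positivity) (by positivity), log_Zf hN hK hn]
  obtain ⟨b2, b9, b8, b40, b4, b10, b3⟩ := log_bounds
  obtain ⟨p2, p9, p8, p40, p4, p10, p3⟩ := log_nonnegs
  have hM1 : Real.log ((((2772 * w : ℕ) : ℕ) : ℝ) + 1) ≤ 2772 * (w : ℝ) := by
    refine (Real.log_le_sub_one_of_pos (by positivity)).trans ?_
    push_cast
    linarith
  have e1 : (((220 * w : ℕ) : ℕ) : ℝ) * Real.log (((3000 * w : ℕ) : ℕ) : ℝ) ≤
      220 * ((w : ℝ) * Real.log n) := by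
    push_cast at hLN ⊢
    nlinarith
  have e2 : 5 * ((((2772 * w : ℕ) : ℕ) : ℝ) * Real.log K) ≤
      2772 * ((w : ℝ) * Real.log n) := by
    push_cast
    nlinarith
  have e3 : (t : ℝ) * Real.log 9 ≤ 8 * w := by nlinarith
  have e4 : (t : ℝ) * ((K : ℝ) * Real.log 2) ≤ w := by nlinarith
  have e5 : (t : ℝ) * ((K : ℝ) * Real.log n) ≤ w * Real.log n := by nlinarith
  have e6 : (((2772 * w : ℕ) : ℕ) : ℝ) * Real.log 2 ≤ 2772 * w := by push_cast; nlinarith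
  have e7 : (K : ℝ) * Real.log 8 ≤ 7 * w := by nlinarith
  have e8 : (10 ^ 6 : ℝ) * w ≤ (w : ℝ) * Real.log n := by nlinarith
  have e9 : (t : ℝ) * (Real.log 9 + (K : ℝ) * (Real.log 2 + Real.log n)) =
      (t : ℝ) * Real.log 9 + (t : ℝ) * ((K : ℝ) * Real.log 2) +
        (t : ℝ) * ((K : ℝ) * Real.log n) := by ring
  have e10 : (((2772 * w : ℕ) : ℕ) : ℝ) * (Real.log 2 + Real.log K) =
      (((2772 * w : ℕ) : ℕ) : ℝ) * Real.log 2 + (((2772 * w : ℕ) : ℕ) : ℝ) * Real.log K := by ring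
  have e11 : (1995 * (w : ℝ) + K) * Real.log n =
      1995 * ((w : ℝ) * Real.log n) + K * Real.log n := by ring
  have e13 : (((2772 * w : ℕ) : ℕ) : ℝ) * Real.log n = 2772 * ((w : ℝ) * Real.log n) := by
    push_cast; ring
  rw [e9, e10, e11, e13]
  linarith

theorem num_ineq3 : ∃ w₀ : ℕ, ∀ w ≥ w₀, ∀ K : ℕ, K ^ 5 ≤ w → w < (K + 1) ^ 5 →
    ∀ n : ℕ, 3000 * w ≤ n → n ≤ 3003 * w → ∀ t : ℕ, t * K ≤ w →
      (n : ℝ) ^ (1995 * w + K) * (9 * (2 * (n : ℝ)) ^ K) ^ t *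
        (10 * (Yn n)⁻¹ * (((t : ℝ) + 1) * 2 ^ (1995 * w + 1) * 8 ^ K * (n : ℝ) ^ t)) <
          1 / 3 := by
  obtain ⟨w₀, h₀⟩ := num_common
  refine ⟨w₀, fun w hw K hK1 hK2 n hn1 hn2 t ht => ?_⟩
  obtain ⟨⟨hw1, hK⟩, hL, hLN, hLK, htL, hKL, htw, hKw, htK⟩ := h₀ w hw K hK1 hK2 n hn1 hn2 t ht
  have hn : 0 < n := by omega
  have hN : 0 < 3000 * w := by omega
  have hnr : (0 : ℝ) < n := by exact_mod_cast hn
  have hwr : (1 : ℝ) ≤ w := by exact_mod_cast hw1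
  have hY := (yn_bounds hw1 hn1 hn2).1
  have hY0 := yn_pos n
  have hYlog : 2000 * (w : ℝ) * (Real.log n - Real.log 3) ≤ Real.log (Yn n) := by
    have := Real.log_le_log (by positivity) hY
    rw [Real.log_pow, Real.log_div (by positivity) (by norm_num)] at this
    push_cast at this
    exact this
  refine lt_third (by positivity) ?_
  rw [Real.log_mul (by positivity) (by positivity), log_pref hn,
    Real.log_mul (by positivity) (by positivity), Real.log_mul (by positivity) (by positivity),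
    Real.log_mul (by positivity) (by positivity), Real.log_mul (by positivity) (by positivity),
    Real.log_mul (by positivity) (by positivity), Real.log_inv, Real.log_pow, Real.log_pow,
    Real.log_pow]
  obtain ⟨b2, b9, b8, b40, b4, b10, b3⟩ := log_bounds
  obtain ⟨p2, p9, p8, p40, p4, p10, p3⟩ := log_nonnegs
  have hM1 : Real.log ((t : ℝ) + 1) ≤ (w : ℝ) := by
    refine (Real.log_le_sub_one_of_pos (by positivity)).trans ?_
    linarith
  have e3 : (t : ℝ) * Real.log 9 ≤ 8 * w := by nlinarith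
  have e4 : (t : ℝ) * ((K : ℝ) * Real.log 2) ≤ w := by nlinarith
  have e5 : (t : ℝ) * ((K : ℝ) * Real.log n) ≤ w * Real.log n := by nlinarith
  have e6 : (((1995 * w + 1 : ℕ) : ℕ) : ℝ) * Real.log 2 ≤ 1996 * w := by push_cast; nlinarith
  have e7 : (K : ℝ) * Real.log 8 ≤ 7 * w := by nlinarith
  have e8 : (10 ^ 6 : ℝ) * w ≤ (w : ℝ) * Real.log n := by nlinarith
  have e9 : (t : ℝ) * (Real.log 9 + (K : ℝ) * (Real.log 2 + Real.log n)) =
      (t : ℝ) * Real.log 9 + (t : ℝ) * ((K : ℝ) * Real.log 2) +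
        (t : ℝ) * ((K : ℝ) * Real.log n) := by ring
  have e11 : (1995 * (w : ℝ) + K) * Real.log n =
      1995 * ((w : ℝ) * Real.log n) + K * Real.log n := by ring
  have e12 : 2000 * (w : ℝ) * (Real.log n - Real.log 3) =
      2000 * ((w : ℝ) * Real.log n) - 2000 * (w * Real.log 3) := by ring
  have e14 : (w : ℝ) * Real.log 3 ≤ 2 * w := by nlinarith
  rw [e12] at hYlog
  rw [e9, e11]
  linarith

theorem num_ineq : ∃ w₀ : ℕ, ∀ w ≥ w₀, ∀ K : ℕ, K ^ 5 ≤ w → w < (K + 1) ^ 5 →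
    ∀ n : ℕ, 3000 * w ≤ n → n ≤ 3003 * w → ∀ t : ℕ, t * K ≤ w →
      (n : ℝ) ^ (1995 * w + K) * (9 * (2 * (n : ℝ)) ^ K) ^ t *
        (Yn n * Zf (3000 * w) (220 * w) K (5275 * w) n t +
          4 * Zf (3000 * w) (220 * w) K (2772 * w) n t +
          10 * (Yn n)⁻¹ * (((t : ℝ) + 1) * 2 ^ (1995 * w + 1) * 8 ^ K * (n : ℝ) ^ t)) < 1 := by
  obtain ⟨w₁, h₁⟩ := num_ineq1
  obtain ⟨w₂, h₂⟩ := num_ineq2
  obtain ⟨w₃, h₃⟩ := num_ineq3
  refine ⟨w₁ + w₂ + w₃, fun w hw K hK1 hK2 n hn1 hn2 t ht => ?_⟩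
  have a₁ := h₁ w (by omega) K hK1 hK2 n hn1 hn2 t ht
  have a₂ := h₂ w (by omega) K hK1 hK2 n hn1 hn2 t ht
  have a₃ := h₃ w (by omega) K hK1 hK2 n hn1 hn2 t ht
  rw [mul_add, mul_add]
  linarith

end Pool.Agent.FAC
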