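import Pool.Agent.FAC.Defs

/-!
# FAC/OpD: degrees for the operator `𝒟` (architect helper1)

`TT` has degree `≤ K`, `rho` has degree `≤ K` (each summand: a constant times a product of at most `K` linear factors; for `K = 0` the sum is
empty), so `DD` raises the degree by at most `K`.
`DD_map`/`taylor` lemmas: `TT_eval_ne`: at a point with all `1 + l x ≠ 0`.
-/

namespace Pool.Agent.FAC

open Polynomial

variable (k : Type*) [Field k]

private theorem natDegree_prod_aux (s : Finset ℕ) :
    (∏ l ∈ s, (1 + C (l : k) * X)).natDegree ≤ s.card := by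
  refine (natDegree_prod_le s _).trans ?_
  refine (Finset.sum_le_sum (g := fun _ => 1) fun l _ => ?_).trans (by simp)
  refine (natDegree_add_le _ _).trans ?_
  rw [natDegree_one]
  exact max_le (Nat.zero_le _) ((natDegree_C_mul_le _ _).trans natDegree_X_le)

theorem natDegree_TT_le (K : ℕ) : (TT k K).natDegree ≤ K := by
  unfold TT
  refine (natDegree_prod_aux k _).trans ?_
  simp

theorem natDegree_rho_le (K : ℕ) (c : ℕ → ℕ) : (rho k K c).natDegree ≤ K := by
  unfold rho
  refine natDegree_sum_le_of_forall_le _ _ fun l _ => ?_
  refine (natDegree_C_mul_le _ _).trans ?_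
  refine (natDegree_prod_aux k _).trans ?_
  refine (Finset.card_erase_le).trans ?_
  simp

theorem natDegree_DD_le (K : ℕ) (c : ℕ → ℕ) (A : Polynomial k) :
    (DD k K c A).natDegree ≤ A.natDegree + K := by
  unfold DD
  refine (natDegree_add_le _ _).trans (max_le ?_ ?_)
  · refine natDegree_mul_le.trans ?_
    have h1 := natDegree_TT_le k K
    have h2 := natDegree_derivative_le A
    omega
  · refine natDegree_mul_le.trans ?_
    have h1 := natDegree_rho_le k K c
    omega

theorem natDegree_DD_iter_le (K : ℕ) (c : ℕ → ℕ) (A : Polynomial k) (s : ℕ) :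
    ((DD k K c)^[s] A).natDegree ≤ A.natDegree + s * K := by
  induction s with
  | zero => simp
  | succ s ih =>
    rw [Function.iterate_succ_apply']
    refine (natDegree_DD_le k K c _).trans ?_
    rw [Nat.succ_mul]
    omega

end Pool.Agent.FAC
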