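import Pool.Agent.FAC.Defs

/-!
# FAC/Resid: the residue lemma (architect helper1)

Let `r = -1/l₀`, `π = 1 + l₀ X = l₀ (X - r)`.  Write `p = (X-r)^a p₁`, `q = (X-r)^b q₁` with `p₁(r), q₁(r) ≠ 0`
(`Polynomial.exists_eq_pow_rootMultiplicity_mul_and_not_dvd`).  Then `p' q - p q' = (X-r)^(a+b-1) [(a-b) p₁ q₁ + (X-r)(p₁' q₁ - p₁ q₁')]`
(multiply by `(X-r)` to avoid natural subtraction: `(X-r) p' = a (X-r)^a p₁ + (X-r)^(a+1) p₁'`).  `TT = l₀ (X-r) T₁` with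
`T₁ = ∏_{l ≠ l₀} (1 + l X)`, `T₁(r) ≠ 0`.  The assumed equation becomes, after cancelling `(X-r)^(a+b)`:
`l₀ T₁ [(a-b) p₁ q₁ + (X-r) (…)] = (rho c - rho c') p₁ q₁`.  Evaluate at `r`: in `rho(r)` only the term `l = l₀` survives:
`rho c (r) = c(l₀) l₀ T₁(r) / 3`.  So `a - b = (c(l₀) - c'(l₀))/3`, contradiction with `3 ∤ c(l₀) - c'(l₀)`.
-/

namespace Pool.Agent.FAC

open Polynomial

private theorem mul_deriv (r : ℚ) (a : ℕ) (p₁ : Polynomial ℚ) :
    (X - C r) * derivative ((X - C r) ^ a * p₁) =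
      (X - C r) ^ a * ((a : Polynomial ℚ) * p₁ + (X - C r) * derivative p₁) := by
  rw [derivative_mul, derivative_X_sub_C_pow]
  rcases a with _ | n
  · simp
  · simp only [Nat.add_sub_cancel, Polynomial.C_eq_natCast]
    push_cast
    ring

theorem resid (K : ℕ) (c c' : ℕ → ℕ) {l₀ : ℕ} (hl : l₀ ∈ Finset.Icc 1 K)
    (hne : ¬ (3 : ℤ) ∣ ((c l₀ : ℤ) - (c' l₀ : ℤ))) {p q : Polynomial ℚ} (hp : p ≠ 0)
    (hq : q ≠ 0) :
    TT ℚ K * (derivative p * q - p * derivative q) ≠ (rho ℚ K c - rho ℚ K c') * (p * q) := by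
  classical
  intro h
  have hl1 : 1 ≤ l₀ := (Finset.mem_Icc.1 hl).1
  have hl0 : (l₀ : ℚ) ≠ 0 := by
    have : (0 : ℚ) < l₀ := by exact_mod_cast hl1
    exact this.ne'
  set r : ℚ := -1 / (l₀ : ℚ) with hr
  set T₁ : Polynomial ℚ := ∏ l ∈ (Finset.Icc 1 K).erase l₀, (1 + C (l : ℚ) * X) with hT1
  have hlin : (1 + C (l₀ : ℚ) * X : Polynomial ℚ) = C (l₀ : ℚ) * (X - C r) := by
    rw [mul_sub, ← C_mul]
    have : (l₀ : ℚ) * r = -1 := by rw [hr]; field_simp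
    rw [this, C_neg, C_1]
    ring
  have hTT : TT ℚ K = C (l₀ : ℚ) * (X - C r) * T₁ := by
    unfold TT
    rw [← Finset.mul_prod_erase _ _ hl, hlin]
  have hT1r : T₁.eval r ≠ 0 := by
    rw [hT1, eval_prod, Finset.prod_ne_zero_iff]
    intro l hl'
    have hne' : l ≠ l₀ := (Finset.mem_erase.1 hl').1
    simp only [eval_add, eval_one, eval_mul, eval_C, eval_X]
    rw [hr]
    have h3 : (1 + (l : ℚ) * (-1 / (l₀ : ℚ))) = ((l₀ : ℚ) - l) / l₀ := by
      field_simp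
      ring
    rw [h3]
    apply div_ne_zero _ hl0
    rw [sub_ne_zero]
    exact_mod_cast hne'.symm
  have hrho : ∀ f : ℕ → ℕ, (rho ℚ K f).eval r = (f l₀ : ℚ) * (l₀ : ℚ) / 3 * T₁.eval r := by
    intro f
    unfold rho
    rw [eval_finsetSum]
    rw [Finset.sum_eq_single_of_mem l₀ hl]
    · rw [eval_mul, eval_C]
    · intro l hl' hne'
      rw [eval_mul, eval_prod]
      have hz : ∏ x ∈ (Finset.Icc 1 K).erase l,
          eval r (1 + C ((x : ℕ) : ℚ) * X : Polynomial ℚ) = 0 := by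
        apply Finset.prod_eq_zero (i := l₀)
        · exact Finset.mem_erase.2 ⟨hne'.symm, hl⟩
        · rw [hlin]; simp
      rw [hz, mul_zero]
  obtain ⟨p₁, hp₁, hp₁'⟩ := Polynomial.exists_eq_pow_rootMultiplicity_mul_and_not_dvd p hp r
  obtain ⟨q₁, hq₁, hq₁'⟩ := Polynomial.exists_eq_pow_rootMultiplicity_mul_and_not_dvd q hq r
  set a := p.rootMultiplicity r
  set b := q.rootMultiplicity r
  have hp1r : p₁.eval r ≠ 0 := fun h0 => hp₁' (Polynomial.dvd_iff_isRoot.2 h0)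
  have hq1r : q₁.eval r ≠ 0 := fun h0 => hq₁' (Polynomial.dvd_iff_isRoot.2 h0)
  have hp2 := mul_deriv r a p₁
  have hq2 := mul_deriv r b q₁
  rw [← hp₁] at hp2
  rw [← hq₁] at hq2
  have hY : (X - C r : Polynomial ℚ) ^ a * (X - C r) ^ b ≠ 0 :=
    mul_ne_zero (pow_ne_zero _ (X_sub_C_ne_zero r)) (pow_ne_zero _ (X_sub_C_ne_zero r))
  have key : (X - C r : Polynomial ℚ) ^ a * (X - C r) ^ b *
      (C (l₀ : ℚ) * T₁ * (((a : Polynomial ℚ) * p₁ + (X - C r) * derivative p₁) * q₁ -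
        p₁ * ((b : Polynomial ℚ) * q₁ + (X - C r) * derivative q₁))) =
      (X - C r : Polynomial ℚ) ^ a * (X - C r) ^ b *
        ((rho ℚ K c - rho ℚ K c') * (p₁ * q₁)) := by
    have h1 : TT ℚ K * (derivative p * q - p * derivative q) =
        C (l₀ : ℚ) * T₁ * (((X - C r) * derivative p) * q - p * ((X - C r) * derivative q)) := by
      rw [hTT]; ring
    rw [h1, hp2, hq2] at h
    rw [show (X - C r : Polynomial ℚ) ^ a * (X - C r) ^ b *
        ((rho ℚ K c - rho ℚ K c') * (p₁ * q₁)) = (rho ℚ K c - rho ℚ K c') *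
          (((X - C r : Polynomial ℚ) ^ a * p₁) * ((X - C r) ^ b * q₁)) by ring,
      ← hp₁, ← hq₁, ← h]
    linear_combination
      (-(C (l₀ : ℚ) * T₁ * ((X - C r) ^ a * ((a : Polynomial ℚ) * p₁ +
        (X - C r) * derivative p₁)))) * hq₁ +
      (C (l₀ : ℚ) * T₁ * ((X - C r) ^ b * ((b : Polynomial ℚ) * q₁ +
        (X - C r) * derivative q₁))) * hp₁
  have key2 := mul_left_cancel₀ hY key
  have key3 := congrArg (eval r) key2
  simp only [eval_mul, eval_sub, eval_add, eval_C, eval_X, sub_self, zero_mul, add_zero,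
    eval_natCast, hrho] at key3
  have h4 : (3 : ℚ) * ((a : ℚ) - b) = (c l₀ : ℚ) - c' l₀ := by
    have h5 : ((l₀ : ℚ) * eval r T₁ * (eval r p₁ * eval r q₁)) * (3 * ((a : ℚ) - b)) =
        ((l₀ : ℚ) * eval r T₁ * (eval r p₁ * eval r q₁)) * ((c l₀ : ℚ) - c' l₀) := by
      linear_combination 3 * key3
    exact mul_left_cancel₀ (mul_ne_zero (mul_ne_zero hl0 hT1r) (mul_ne_zero hp1r hq1r)) h5
  apply hne
  refine ⟨(a : ℤ) - b, ?_⟩
  have : ((c l₀ : ℚ) - c' l₀) = 3 * ((a : ℚ) - b) := h4.symm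
  exact_mod_cast this

end Pool.Agent.FAC
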