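import Mathlib

/-!
# FAC/Siegel: pigeonhole form of the Siegel lemma with boxes (architect helper1; Mathlib only)

The box `∏_i {0, …, H_i}` (`Fintype.piFinset fun i => Finset.Icc (0:ℤ) (H i)`) has `∏ (H_i + 1)` elements; the map
`a ↦ (∑_i L_{e,i} a_i)_e` sends it into `∏_e [-R_e, R_e]` (`|L_{e,i} a_i| ≤ |L_{e,i}| H_i`), which has `∏ (2 R_e + 1)` elements.
Two distinct elements of the box have the same image (`Finset.exists_ne_map_eq_of_card_lt_of_maps_to`); take the difference.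
-/

namespace Pool.Agent.FAC

theorem siegel_box {σ τ : Type*} [Fintype σ] [DecidableEq σ] [Fintype τ] [DecidableEq τ]
    (H : σ → ℕ) (R : τ → ℕ) (L : τ → σ → ℤ) (hL : ∀ e, ∑ i, |L e i| * (H i : ℤ) ≤ (R e : ℤ))
    (hprod : ∏ e, (2 * R e + 1) < ∏ i, (H i + 1)) :
    ∃ a : σ → ℤ, a ≠ 0 ∧ (∀ i, |a i| ≤ (H i : ℤ)) ∧ ∀ e, ∑ i, L e i * a i = 0 := by
  classical
  set s : Finset (σ → ℤ) := Fintype.piFinset fun i => Finset.Icc (0 : ℤ) (H i) with hs
  set t : Finset (τ → ℤ) := Fintype.piFinset fun e => Finset.Icc (-(R e : ℤ)) (R e) with ht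
  have hcs : s.card = ∏ i, (H i + 1) := by
    rw [hs, Fintype.card_piFinset]
    refine Finset.prod_congr rfl fun i _ => ?_
    rw [Int.card_Icc]
    omega
  have hct : t.card = ∏ e, (2 * R e + 1) := by
    rw [ht, Fintype.card_piFinset]
    refine Finset.prod_congr rfl fun e _ => ?_
    rw [Int.card_Icc]
    omega
  have hmaps : ∀ a ∈ s, (fun e => ∑ i, L e i * a i) ∈ t := by
    intro a ha
    rw [hs, Fintype.mem_piFinset] at ha
    rw [ht, Fintype.mem_piFinset]
    intro e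
    rw [Finset.mem_Icc, ← abs_le]
    refine (Finset.abs_sum_le_sum_abs _ _).trans (le_trans (Finset.sum_le_sum fun i _ => ?_) (hL e))
    have h1 := Finset.mem_Icc.mp (ha i)
    rw [abs_mul, abs_of_nonneg h1.1]
    exact mul_le_mul_of_nonneg_left h1.2 (abs_nonneg _)
  obtain ⟨x, hx, y, hy, hxy, hf⟩ :=
    Finset.exists_ne_map_eq_of_card_lt_of_maps_to (by rw [hcs, hct]; exact hprod) hmaps
  rw [hs, Fintype.mem_piFinset] at hx hy
  refine ⟨x - y, sub_ne_zero.mpr hxy, fun i => ?_, fun e => ?_⟩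
  · have h1 := Finset.mem_Icc.mp (hx i)
    have h2 := Finset.mem_Icc.mp (hy i)
    rw [Pi.sub_apply, abs_le]
    constructor <;> linarith [h1.1, h1.2, h2.1, h2.2]
  · have h3 := congrFun hf e
    simp only [Pi.sub_apply, mul_sub, Finset.sum_sub_distrib]
    rw [h3, sub_self]

end Pool.Agent.FAC
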