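import Pool.Agent.FAC.NonVan
import Pool.Agent.FAC.OpD

/-!
# FAC/WDet: the determinant `𝒫` (architect helper1)

* `wr_ne_zero`: otherwise `Matrix.exists_mulVec_eq_zero_iff` gives a nonzero vector `u'` with `M u' = 0`; transport it to
  `u : ι → ℚ[X]` along `e` and apply `nonvan` (`S = Finset.univ` image of `e`, i.e. `Finset.univ.map e.toEmbedding`, `card = g`).
* `wr_degree`: `Matrix.det_apply`, each entry in row `s` has degree `≤ d + s K ≤ d + g K`; so the degree is `≤ g (d + g K)`.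
-/

namespace Pool.Agent.FAC

open Polynomial

/-- the matrix `(𝒟^s A_(e j))_{s, j}` -/
noncomputable def Wm (k : Type*) [Field k] {ι : Type*} (K : ℕ) (c : ι → ℕ → ℕ)
    (A : ι → Polynomial k) (g : ℕ) (e : Fin g ↪ ι) : Matrix (Fin g) (Fin g) (Polynomial k) :=
  Matrix.of fun s j => (DD k K (c (e j)))^[(s : ℕ)] (A (e j))

theorem wr_ne_zero {ι : Type*} (K : ℕ) (c : ι → ℕ → ℕ)
    (hsep : ∀ α β, α ≠ β → ∃ l ∈ Finset.Icc 1 K, ¬ (3 : ℤ) ∣ ((c α l : ℤ) - (c β l : ℤ)))
    (A : ι → Polynomial ℚ) (g : ℕ) (e : Fin g ↪ ι) (hA : ∀ j, A (e j) ≠ 0) :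
    (Wm ℚ K c A g e).det ≠ 0 := by
  classical
  intro h0
  obtain ⟨v, hv, hMv⟩ := Matrix.exists_mulVec_eq_zero_iff.mpr h0
  apply hv
  set u : ι → Polynomial ℚ := Function.extend e v 0 with hu
  have hue : ∀ j, u (e j) = v j := fun j => e.injective.extend_apply v 0 j
  have hcard : (Finset.univ.map e : Finset ι).card = g := by
    rw [Finset.card_map, Finset.card_univ, Fintype.card_fin]
  have key := nonvan K c hsep A (Finset.univ.map e) (fun α hα => by
    obtain ⟨j, _, rfl⟩ := Finset.mem_map.mp hα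
    exact hA j) u (fun s hs => by
    rw [hcard] at hs
    rw [Finset.sum_map]
    have h1 := congrFun hMv ⟨s, hs⟩
    unfold Matrix.mulVec dotProduct at h1
    rw [Pi.zero_apply] at h1
    rw [← h1]
    refine Finset.sum_congr rfl fun j _ => ?_
    rw [hue]
    simp only [Wm, Matrix.of_apply]
    ring)
  funext j
  have h1 := key (e j) (Finset.mem_map_of_mem e (Finset.mem_univ j))
  rw [hue] at h1
  rw [h1]
  rfl

theorem wr_degree {k : Type*} [Field k] {ι : Type*} (K : ℕ) (c : ι → ℕ → ℕ)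
    (A : ι → Polynomial k) (g : ℕ) (e : Fin g ↪ ι) {d : ℕ}
    (hd : ∀ j, (A (e j)).natDegree ≤ d) :
    (Wm k K c A g e).det.natDegree ≤ g * (d + g * K) := by
  classical
  rw [Matrix.det_apply']
  refine Polynomial.natDegree_sum_le_of_forall_le _ _ fun σ _ => ?_
  refine Polynomial.natDegree_mul_le.trans ?_
  rw [Polynomial.natDegree_intCast, zero_add]
  refine (Polynomial.natDegree_prod_le _ _).trans ?_
  have h1 : ∀ i ∈ (Finset.univ : Finset (Fin g)),
      (Wm k K c A g e (σ i) i).natDegree ≤ d + g * K := by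
    intro i _
    simp only [Wm, Matrix.of_apply]
    refine (natDegree_DD_iter_le k K (c (e i)) (A (e i)) _).trans ?_
    exact Nat.add_le_add (hd i) (Nat.mul_le_mul_right K (σ i).isLt.le)
  refine (Finset.sum_le_card_nsmul _ _ _ h1).trans ?_
  rw [Finset.card_univ, Fintype.card_fin, smul_eq_mul]

end Pool.Agent.FAC
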