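import Pool.Agent.FAC.Defs

/-!
# FAC/YRel: the values `m_i` in terms of `n` (architect helper1)

Write `y(n) = (n!)^(1/3)` (real).
* `sol_eps`: `m^3 - m = y^3`, so `m^3 = y^3 + m ≥ y^3`, `m ≥ y > 0`; put `ε = m/y - 1 ≥ 0`.  From `(m - y)(m² + m y + y²) = m` and
  `m² + m y + y² ≥ 2 m y`: `m - y ≤ 1/(2y)`, so `ε y² = (m-y) y ≤ 1/2 ≤ 1`.  (`m = 1` gives `n! = 0`, impossible; natural subtraction:
  `m ≥ 2`.)
* `fac_root`: `(n+3j)! = n! ∏_{l=1}^{3j} (n+l) = n! n^(3j) ∏_{l=1}^{3j} (1+l/n)`; take cube roots (`Real.mul_rpow`,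
  `Real.finsetProd_rpow`), and `∏_{l ≤ 3j} = ∏_{l ∈ Icc 1 K} (if l ≤ 3j then … else 1)` as `3j ≤ K`.
* `fv_cc`: `Fv K (cc h α) x = P(α₁) P(α₂)` with `P(i) = ∏_{l ∈ Icc 1 K} (if l ≤ 3 h_i then (1+l x)^(1/3) else 1)` (`pow_add`,
  `Finset.prod_mul_distrib`).
* `mu_eq`: apply `sol_eps` to `n + 3 h_i`, `m_i` to get `ε_i`; `y(n+3h_i) = y(n) n^(h_i) P(i)`; `ε_i y(n)² ≤ ε_i y(n+3h_i)² ≤ 1` (factorials
  increase; `Yn n = y(n)²`).
-/

namespace Pool.Agent.FAC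

theorem cbrt_cube {a : ℝ} (ha : 0 ≤ a) : (a ^ ((1 : ℝ) / 3)) ^ 3 = a := by
  rw [← Real.rpow_natCast, ← Real.rpow_mul ha]
  norm_num

theorem sol_eps {n m : ℕ} (hm : 0 < m) (h : n.factorial = (m - 1) * m * (m + 1)) :
    ∃ ε : ℝ, 0 ≤ ε ∧ ε * Yn n ≤ 1 ∧
      (m : ℝ) = ((n.factorial : ℝ)) ^ ((1 : ℝ) / 3) * (1 + ε) := by
  set y : ℝ := ((n.factorial : ℝ)) ^ ((1 : ℝ) / 3) with hy
  have hfac : (0 : ℝ) < n.factorial := by exact_mod_cast n.factorial_pos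
  have hy0 : 0 < y := Real.rpow_pos_of_pos hfac _
  have hy3 : y ^ 3 = n.factorial := cbrt_cube hfac.le
  have hm0 : (0 : ℝ) < m := by exact_mod_cast hm
  have hrel : (m : ℝ) ^ 3 - m = y ^ 3 := by
    rw [hy3, h]
    push_cast [Nat.cast_sub (Nat.one_le_iff_ne_zero.mpr hm.ne')]
    ring
  have hmy : y ≤ m := by
    by_contra hlt
    push Not at hlt
    have h1 : (m : ℝ) ^ 3 < y ^ 3 := by
      gcongr
    linarith
  have h2 : ((m : ℝ) - y) * ((m : ℝ) ^ 2 + m * y + y ^ 2) = m := by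
    have : ((m : ℝ) - y) * ((m : ℝ) ^ 2 + m * y + y ^ 2) = (m : ℝ) ^ 3 - y ^ 3 := by ring
    rw [this]; linarith
  have h3 : 2 * ((m : ℝ) * y) ≤ (m : ℝ) ^ 2 + m * y + y ^ 2 := by nlinarith [sq_nonneg ((m : ℝ) - y), mul_pos hm0 hy0]
  have h4 : ((m : ℝ) - y) * (2 * (m * y)) ≤ m := by
    calc ((m : ℝ) - y) * (2 * (m * y)) ≤ ((m : ℝ) - y) * ((m : ℝ) ^ 2 + m * y + y ^ 2) :=
          mul_le_mul_of_nonneg_left h3 (by linarith)
      _ = m := h2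
  have h5 : 2 * (((m : ℝ) - y) * y) ≤ 1 := by
    have : (m : ℝ) * (2 * (((m : ℝ) - y) * y)) ≤ m * 1 := by linarith
    exact le_of_mul_le_mul_left this hm0
  refine ⟨(m : ℝ) / y - 1, ?_, ?_, ?_⟩
  · rw [sub_nonneg, le_div_iff₀ hy0]; linarith
  · have h6 : ((m : ℝ) / y - 1) * Yn n = (m - y) * y := by
      unfold Yn
      rw [← hy]
      field_simp
    rw [h6]
    linarith
  · field_simp
    ring

theorem fac_root {n j K : ℕ} (hn : 0 < n) (hj : 3 * j ≤ K) :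
    (((n + 3 * j).factorial : ℝ)) ^ ((1 : ℝ) / 3) =
      ((n.factorial : ℝ)) ^ ((1 : ℝ) / 3) * (n : ℝ) ^ j *
        ∏ l ∈ Finset.Icc 1 K,
          (if l ≤ 3 * j then (1 + (l : ℝ) * (1 / (n : ℝ))) ^ ((1 : ℝ) / 3) else 1) := by
  have hn0 : (0 : ℝ) < n := by exact_mod_cast hn
  have h1 : ∀ i : ℕ, ((n + i).factorial : ℝ) =
      (n.factorial : ℝ) * (n : ℝ) ^ i * ∏ l ∈ Finset.Icc 1 i, (1 + (l : ℝ) * (1 / (n : ℝ))) := by
    intro i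
    induction i with
    | zero => simp
    | succ i ih =>
      rw [Finset.prod_Icc_succ_top (by omega), ← add_assoc, Nat.factorial_succ]
      push_cast
      rw [ih]
      field_simp
      ring
  have hprod : (0 : ℝ) ≤ ∏ l ∈ Finset.Icc 1 (3 * j), (1 + (l : ℝ) * (1 / (n : ℝ))) :=
    Finset.prod_nonneg fun l _ => by positivity
  have h2 : ∏ l ∈ Finset.Icc 1 K,
          (if l ≤ 3 * j then (1 + (l : ℝ) * (1 / (n : ℝ))) ^ ((1 : ℝ) / 3) else 1) =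
      ∏ l ∈ Finset.Icc 1 (3 * j), (1 + (l : ℝ) * (1 / (n : ℝ))) ^ ((1 : ℝ) / 3) := by
    rw [← Finset.prod_filter]
    congr 1
    ext l
    simp only [Finset.mem_filter, Finset.mem_Icc]
    omega
  rw [h2, Real.finsetProd_rpow _ _ (fun l _ => by positivity), h1 (3 * j),
    Real.mul_rpow (by positivity) hprod, Real.mul_rpow (by positivity) (by positivity), pow_mul]
  congr 2
  rw [← Real.rpow_natCast, ← Real.rpow_mul (by positivity), ← Real.rpow_natCast, ← Real.rpow_mul hn0.le,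
    ← Real.rpow_natCast]
  congr 1
  push_cast
  ring

theorem fv_cc (K : ℕ) (h : Fin 4 → ℕ) (α : Idx) (x : ℝ) :
    Fv K (cc h α) x =
      (∏ l ∈ Finset.Icc 1 K,
        (if l ≤ 3 * h α.1.1 then (1 + (l : ℝ) * x) ^ ((1 : ℝ) / 3) else 1)) *
      ∏ l ∈ Finset.Icc 1 K,
        (if l ≤ 3 * h α.1.2 then (1 + (l : ℝ) * x) ^ ((1 : ℝ) / 3) else 1) := by
  unfold Fv
  rw [← Finset.prod_mul_distrib]
  refine Finset.prod_congr rfl fun l _ => ?_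
  unfold cc
  split_ifs <;> simp [pow_succ]

theorem mu_eq {K : ℕ} {h : Fin 4 → ℕ} (hp : Pat K h) {n : ℕ} (hn : 0 < n) {m : Fin 4 → ℕ}
    (hm : ∀ i, 0 < m i)
    (hs : ∀ i, (n + 3 * h i).factorial = (m i - 1) * m i * (m i + 1)) :
    ∃ ε : Fin 4 → ℝ, (∀ i, 0 ≤ ε i) ∧ (∀ i, ε i * Yn n ≤ 1) ∧
      ∀ α : Idx, ((m α.1.1 : ℝ) * (m α.1.2 : ℝ)) / (n : ℝ) ^ (h α.1.1 + h α.1.2) =
        Yn n * ((1 + ε α.1.1) * (1 + ε α.1.2)) * Fv K (cc h α) (1 / (n : ℝ)) := by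
  have hn0 : (0 : ℝ) < n := by exact_mod_cast hn
  choose ε hε0 hεY hmε using fun i => sol_eps (hm i) (hs i)
  refine ⟨ε, hε0, fun i => ?_, fun α => ?_⟩
  · refine le_trans (mul_le_mul_of_nonneg_left ?_ (hε0 i)) (hεY i)
    unfold Yn
    have h1 : (n.factorial : ℝ) ≤ ((n + 3 * h i).factorial : ℝ) := by
      exact_mod_cast Nat.factorial_le (by omega)
    have h2 : (0 : ℝ) ≤ (n.factorial : ℝ) ^ ((1 : ℝ) / 3) := by positivity
    exact pow_le_pow_left₀ h2 (Real.rpow_le_rpow (by positivity) h1 (by norm_num)) 2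
  · rw [hmε α.1.1, hmε α.1.2, fac_root hn (hp.le α.1.1), fac_root hn (hp.le α.1.2), fv_cc]
    unfold Yn
    rw [pow_add]
    have h3 : (n : ℝ) ^ h α.1.1 ≠ 0 := by positivity
    have h4 : (n : ℝ) ^ h α.1.2 ≠ 0 := by positivity
    rw [div_eq_iff (mul_ne_zero h3 h4)]
    ring

end Pool.Agent.FAC
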